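import Pool.Agent.H98.C.Fin2

set_option autoImplicit false

/-! The final stage starting from one family of blocks, for graphs whose balls are doubling at one
large scale and larger than quadratic. -/

namespace Pool.H98.C

open Finset Pool.Agent.H61.SW

set_option maxHeartbeats 2000000 in
/-- final assembly starting from a family of blocks at an arbitrary scale -/
theorem fin_core2 {V : Type} [Infinite V] {G : SimpleGraph V} {o : V} (hG : TG G)
    {k u v A0 S0 L0 : ℕ} {t lam p M δf X w : ℝ} (hlam : 0 < lam)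
    (ht : t = Real.exp (-lam)) (hH : ∀ R, Nonempty (Homog G o R))
    (hfam : ∀ (R : ℕ) (H : Homog G o R), ∃ (z : V) (F : Finset (V × List V)),
      Fam hG H S0 (1 / 40000) A0 L0 z (fun _ => True) F ∧ Real.exp X ≤ wt t F)
    -- numbers
    (hS1 : 1 ≤ S0) (hv1 : 1 ≤ v) (hvu : v ≤ u) (hA1 : A0 + S0 ≤ v) (hLu : L0 + 4 * S0 ≤ 4 * u)
    (hp0 : 0 < p) (hp1 : p ≤ 1) (hp : p ≤ bb hG o u / bb hG o (20 * ((5 + 4 * k) * u)))
    (hM : M = 12 / p) (hδf : δf = p / (32 * (1 + 2 * M) ^ (k + 1)))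
    (hq : 4 * (((5 + 19 * (5 + 4 * k) + 6 * 2 ^ k) * u : ℕ) : ℝ) ^ 2 * (1 / bb hG o v) ≤ δf)
    (hra : 80 * (u : ℝ) ^ 2 * (1 / bb hG o S0) ≤ δf)
    (hx : 4 * v * lam + (1 + Real.log (bb hG o (4 * u)) - Real.log (p / 2) +
      2 * Real.log (2 * (2 ^ k * (6 * u)))) + w ≤ X)
    (hfin : 2 * Real.log (((5 + 19 * (5 + 4 * k) + 6 * 2 ^ k) * u : ℕ) : ℝ) +
      ((4 * v + 19 * ((5 + 4 * k) * u) : ℕ) : ℝ) * lam <
      Real.log (p / 2) + 2 ^ k * w) :
    ¬ Summable (fun k : ℕ => (cnt (sa G) o k : ℝ) * t ^ k) := by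
  have hu1 : 1 ≤ u := hv1.trans hvu
  set e : ℕ := (5 + 4 * k) * u with he
  have heu : 5 * u ≤ e := by rw [he]; exact Nat.mul_le_mul_right _ (by omega)
  set Y : ℕ := (5 + 19 * (5 + 4 * k) + 6 * 2 ^ k) * u with hY
  have hYe : Y = 5 * u + 19 * e + 2 ^ k * (6 * u) := by rw [hY, he]; ring
  set R : ℕ := 32 * u + (3 * v + 2 ^ k * (6 * u)) + 65 * e with hR
  obtain ⟨H⟩ := hH R
  have ht0 : 0 < t := by rw [ht]; exact Real.exp_pos _
  have ht1 : t ≤ 1 := by rw [ht]; exact Real.exp_le_one_iff.2 (by linarith)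
  have hM0 : 0 < M := by rw [hM]; positivity
  have hM1 : (1 : ℝ) ≤ 1 + 2 * M := by linarith
  have hδ0 : 0 < δf := by rw [hδf]; positivity
  have hpow1 : (1 + 2 * M) ^ (k + 1) * δf = p / 32 := by
    rw [hδf]; field_simp
  have hpow0 : (1 + 2 * M) ^ k * δf ≤ p / 32 := by
    rw [← hpow1]
    exact mul_le_mul_of_nonneg_right (pow_le_pow_right₀ hM1 (by omega)) hδ0.le
  have hδk : δf ≤ (1 + 2 * M) ^ k * δf :=
    le_mul_of_one_le_left hδ0.le (one_le_pow₀ hM1)
  have hu1r : (1 : ℝ) ≤ u := by exact_mod_cast hu1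
  have hv1r : (1 : ℝ) ≤ v := by exact_mod_cast hv1
  have hvur : (v : ℝ) ≤ u := by exact_mod_cast hvu
  obtain ⟨z0, F0, l2, l3'⟩ := hfam R H
  have hbbJ := bb_pos hG (o := o) S0
  -- raise to radius v
  obtain ⟨ω, F1, r1, r2⟩ := raise (S' := v) (δ' := δf) (t := t) (M := 16) hG H ht0
    (by norm_num) hv1 (by omega) z0 (fun _ => True) F0 l2 (by linarith) (by
      refine le_trans ?_ hra
      have a1 : (L0 : ℝ) + 4 * (S0 : ℝ) ≤ 4 * u := by
        exact_mod_cast hLu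
      have a0 : (1 : ℝ) ≤ (S0 : ℝ) := by exact_mod_cast hS1
      have a2 : (L0 : ℝ) + 1 + (S0 : ℝ) + v ≤ 5 * u := by linarith
      have a3 : (v : ℝ) * ((L0 : ℝ) + 1 + (S0 : ℝ) + v) ≤ u * (5 * u) :=
        mul_le_mul hvur a2 (by positivity) (by positivity)
      have a4 : 0 ≤ 1 / bb hG o S0 := by positivity
      have a5 := mul_le_mul_of_nonneg_right a3 a4
      linarith)
  set z := en z0 (por hG H z0 ω.1) with hz
  have r1' : Fam hG H v δf v (L0 + 2 * S0) z (fun _ => True) F1 :=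
    r1.mono hG H le_rfl hA1 le_rfl fun _ _ => trivial
  have r3 : Real.exp (X - 1) ≤ wt t F1 :=
    half_exp l3' r2 (wt_nonneg ht0.le _)
  -- common far end
  obtain ⟨z', F2, p1, p2, p3⟩ := pigeon (t := t) hG H r1'
  have hL1 : L0 + 2 * S0 ≤ 4 * u := by omega
  have hbb4 := bb_pos hG (o := o) (4 * u)
  have p4 : Real.exp (X - 1 - Real.log (bb hG o (4 * u))) ≤ wt t F2 := by
    rw [Real.exp_sub, Real.exp_log hbb4, div_le_iff₀ hbb4]
    refine r3.trans (p3.trans ?_)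
    rw [mul_comm]
    exact mul_le_mul_of_nonneg_left (bb_mono hG hL1) (wt_nonneg ht0.le _)
  -- iterate
  set C : ℝ := - Real.log (p / 2) + 4 * v * lam + 2 * Real.log (2 * (2 ^ k * (6 * u))) with hC
  have hlp : Real.log (p / 2) ≤ 0 := Real.log_nonpos (by positivity) (by linarith)
  have hl2 : 0 ≤ Real.log (2 * (2 ^ k * (6 * u)) : ℝ) := by
    refine Real.log_nonneg ?_
    have h2k : (1 : ℝ) ≤ 2 ^ k := one_le_pow₀ (by norm_num)
    nlinarith
  have hC0 : 0 ≤ C := by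
    have : 0 ≤ 4 * v * lam := by positivity
    rw [hC]; linarith
  have hbbu := bb_pos hG (o := o) u
  obtain ⟨z'', F3, L, i1, i2, i3, i4⟩ := ap_iter (u := u) (v := v) (A := v) (k := k) (p := p)
    (M := M) (δf := δf) (x0 := X - 1 - Real.log (bb hG o (4 * u))) (C := C)
    hG H hlam ht hv1 hvu le_rfl hp0
    (hp.trans (div_le_div_of_nonneg_left hbbu.le (bb_pos hG _) (bb_mono hG (by omega)))) hM hδ0
    (by linarith) (by
      refine le_trans ?_ hq
      have b1 : (2 : ℝ) ^ k * (6 * u) ≤ (Y : ℝ) := by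
        have : 2 ^ k * (6 * u) ≤ Y := by omega
        exact_mod_cast this
      have b2 : ((2 : ℝ) ^ k * (6 * u)) ^ 2 ≤ (Y : ℝ) ^ 2 := pow_le_pow_left₀ (by positivity) b1 2
      have b3 : 0 ≤ 1 / bb hG o v := by have := bb_pos hG (o := o) v; positivity
      have b4 : 0 ≤ (Y : ℝ) ^ 2 := by positivity
      exact mul_le_mul_of_nonneg_right (by linarith) b3) le_rfl (by omega) z
    ⟨z', F2, L0 + 2 * S0, by omega, p1.trans hL1,
      p2.mono hG H le_rfl le_rfl le_rfl fun s hs => ⟨hs.2.1, fun x hx =>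
        (hs.2.2 x hx).trans (by omega)⟩, p4⟩ k le_rfl
  -- the exponent
  have hexp : 2 ^ k * w ≤
      2 ^ k * (X - 1 - Real.log (bb hG o (4 * u)) - C) + C := by
    have h1 : w ≤
        X - 1 - Real.log (bb hG o (4 * u)) - C := by
      rw [hC]; linarith
    have h2 : (2 : ℝ) ^ k * w ≤
      2 ^ k * (X - 1 - Real.log (bb hG o (4 * u)) - C) :=
      mul_le_mul_of_nonneg_left h1 (by positivity)
    linarith
  have i5 : Real.exp (2 ^ k * w) ≤ wt t F3 :=
    (Real.exp_le_exp.2 hexp).trans i4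
  have hne : F3.Nonempty := by
    rw [Finset.nonempty_iff_ne_empty]
    rintro rfl
    have : (0 : ℝ) < 0 := (Real.exp_pos _).trans_le (i5.trans (by simp [wt]))
    exact lt_irrefl _ this
  have hbbv := bb_pos hG (o := o) v
  have hβ0 : 0 ≤ 1 / bb hG o v := by positivity
  -- lengths in terms of Y
  have y1 : 2 * v + 2 * v + (15 * e + 4 * e) + L + 1 + v ≤ Y := by omega
  have y2 : 2 * v + 2 * v + (15 * e + 4 * e) + L + 2 ≤ Y := by omega
  have hYr : (0 : ℝ) ≤ Y := Nat.cast_nonneg Y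
  have c1 : ((2 * v + 2 * v + (15 * e + 4 * e) + L + 1 + v : ℕ) : ℝ) ≤ Y := by exact_mod_cast y1
  have c2 : ((L + 1 + v : ℕ) : ℝ) ≤ Y := by exact_mod_cast (by omega : L + 1 + v ≤ Y)
  have c3 : ((L + 1 : ℕ) : ℝ) ≤ Y := by exact_mod_cast (by omega : L + 1 ≤ Y)
  have c4 : ((15 * e + 4 * e : ℕ) : ℝ) ≤ Y := by exact_mod_cast (by omega : 15 * e + 4 * e ≤ Y)
  have c5 : (v : ℝ) ≤ Y := by exact_mod_cast (by omega : v ≤ Y)
  have c6 : ((2 * v + 2 * v + (15 * e + 4 * e) + L + 1 : ℕ) : ℝ) ≤ Y := by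
    exact_mod_cast (by omega : 2 * v + 2 * v + (15 * e + 4 * e) + L + 1 ≤ Y)
  have c7 : ((v + v + (15 * e + 4 * e) : ℕ) : ℝ) ≤ Y := by
    exact_mod_cast (by omega : v + v + (15 * e + 4 * e) ≤ Y)
  push_cast at c1 c2 c3 c4 c6 c7
  refine chain (D := 15 * e) (e := e) (p := p) (M := M) (δ := (1 + 2 * M) ^ k * δf)
    (δ' := (1 + 2 * M) ^ (k + 1) * δf) hG H ht0 ht1 (by positivity) hM0 (by omega) (by omega)
    le_rfl (by omega) z F3 hne
    (i3.mono hG H le_rfl le_rfl le_rfl fun s hs x hx => (hs.2 x hx).trans (by rw [he]; ring_nf; omega))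
    ?_ ?_ ?_ ?_
  · refine hp.trans (div_le_div₀ (bb_pos hG _).le (bb_mono hG (by omega)) (bb_pos hG _)
      (bb_mono hG (by omega)))
  · push_cast
    have d1 : (2 * (v : ℝ) + 2 * v + (15 * e + 4 * e) + L + 1 + v) * (L + 1 + v) ≤ Y * Y :=
      mul_le_mul c1 c2 (by positivity) hYr
    have d2 : (v : ℝ) * (L + 1) ≤ Y * Y := mul_le_mul c5 c3 (by positivity) hYr
    have d3 : (15 * (e : ℝ) + 4 * e) * (2 * v + 2 * v + (15 * e + 4 * e) + L + 1) ≤ Y * Y :=
      mul_le_mul c4 c6 (by positivity) hYr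
    have d4 : (15 * (e : ℝ) + 4 * e) * (L + 1) ≤ Y * Y := mul_le_mul c4 c3 (by positivity) hYr
    have d5 : ((2 * (v : ℝ) + 2 * v + (15 * e + 4 * e) + L + 1 + v) * (L + 1 + v) + v * (L + 1) +
        (15 * e + 4 * e) * (2 * v + 2 * v + (15 * e + 4 * e) + L + 1) +
        (15 * e + 4 * e) * (L + 1)) * (1 / bb hG o v) ≤ δf := by
      refine le_trans (mul_le_mul_of_nonneg_right ?_ hβ0) hq
      linarith
    have d6 : 1 / M = p / 12 := by rw [hM]; field_simp
    rw [hpow1, d6]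
    linarith
  · push_cast
    have d1 : (v : ℝ) * (v + v + (15 * e + 4 * e)) ≤ Y * Y := mul_le_mul c5 c7 (by positivity) hYr
    have d2 : (v : ℝ) * (v + v + (15 * e + 4 * e)) * (1 / bb hG o v) ≤ δf := by
      refine le_trans (mul_le_mul_of_nonneg_right ?_ hβ0) hq
      have : 0 ≤ (Y : ℝ) * Y := by positivity
      linarith
    have d3 : (1 + 2 * M) ^ (k + 1) * δf = (1 + 2 * M) ^ k * δf +
        M * ((1 + 2 * M) ^ k * δf + (1 + 2 * M) ^ k * δf) := by ring
    rw [d3]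
    have d4 : M * ((1 + 2 * M) ^ k * δf + (v : ℝ) * (v + v + (15 * e + 4 * e)) *
        (1 / bb hG o v)) ≤ M * ((1 + 2 * M) ^ k * δf + (1 + 2 * M) ^ k * δf) :=
      mul_le_mul_of_nonneg_left (by linarith) hM0.le
    linarith
  · have e1 : (2 * (v : ℝ) + 2 * v + (((15 * e : ℕ) : ℝ) + 4 * e) + L + 2) ^ 2 ≤ (Y : ℝ) ^ 2 := by
      refine pow_le_pow_left₀ (by positivity) ?_ 2
      exact_mod_cast y2
    refine lt_of_le_of_lt e1 ?_
    have hY0 : (0 : ℝ) < Y := by exact_mod_cast (by omega : 0 < Y)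
    have e2 : (Y : ℝ) ^ 2 = Real.exp (2 * Real.log Y) := by
      rw [two_mul, Real.exp_add, Real.exp_log hY0, sq]
    have e3 : p / 2 * Real.exp (2 ^ k * w) *
        t ^ (2 * v + 2 * v + (15 * e + 4 * e)) =
        Real.exp (Real.log (p / 2) + 2 ^ k * w -
          ((4 * v + 19 * e : ℕ) : ℝ) * lam) := by
      rw [Real.exp_sub, Real.exp_add, Real.exp_log (by positivity), ht, ← Real.exp_nat_mul,
        mul_neg, Real.exp_neg, div_eq_mul_inv]
      congr 3
      push_cast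
      ring_nf
    have e4 : Real.exp (Real.log (p / 2) + 2 ^ k * w -
          ((4 * v + 19 * e : ℕ) : ℝ) * lam) ≤
        p / 2 * wt t F3 * t ^ (2 * v + 2 * v + (15 * e + 4 * e)) := by
      rw [← e3]
      refine mul_le_mul_of_nonneg_right ?_ (by positivity)
      exact mul_le_mul_of_nonneg_left i5 (by positivity)
    refine lt_of_lt_of_le ?_ e4
    rw [e2]
    exact Real.exp_lt_exp.2 (by linarith)

end Pool.H98.C
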