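import Pool.Agent.H98.C.Defs

set_option autoImplicit false

/-! Exposed arms, good cores. -/

namespace Pool.H98.C

open Finset Pool.Agent.H61.SW

variable {V : Type} {G : SimpleGraph V} {o : V} {R : ℕ} (hG : TG G) (H : Homog G o R)

/-- `α` is an exposed arm at `y ∈ M`: a geodesic-like path from `y` avoiding `M`, whose end is
exposed at scale `S` -/
structure Expd (S r : ℕ) (δ : ℝ) (M : Finset V) (y : V) (α : List V) : Prop where
  ch : ch G y α
  nd : (y :: α).Nodup
  len : α.length ≤ r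
  av : ∀ v ∈ α, v ∉ M
  hit : hit hG H S (en y α) M.toList ≤ δ

/-- compatible arms -/
structure Cpt (S : ℕ) (δ : ℝ) (y1 : V) (α1 : List V) (y2 : V) (α2 : List V) : Prop where
  dj : ∀ v ∈ α2, v ∉ α1
  h1 : hit hG H S (en y2 α2) α1 ≤ δ
  h2 : hit hG H S (en y1 α1) α2 ≤ δ
  qq : QQ hG H S (en y1 α1) (en y2 α2) ≤ δ

/-- good core `c` starting at `y` -/
def GC (S : ℕ) (δ : ℝ) (A L : ℕ) (y : V) (c : List V) : Prop :=
  ∃ z a b, en z a = y ∧ Blk hG H S δ A L z a c b

/-- concatenation of `n` cores with property `P` -/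
def CP (P : V → List V → Prop) : ℕ → V → List V → Prop
  | 0, _, s => s = []
  | n + 1, v, s => ∃ c t, s = c ++ t ∧ P v c ∧ CP P n (en v c) t

end Pool.H98.C
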