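import Pool.Agent.H98.C.Defs

set_option autoImplicit false

/-! Nets, collisions. -/

namespace Pool.H98.C

open Finset Pool.Agent.H61.SW Classical

variable {V : Type} {G : SimpleGraph V} (hG : TG G)

theorem exists_net (o x : V) (D ρ : ℕ) : ∃ N : Finset V, (∀ n ∈ N, G.dist x n ≤ D) ∧
    (∀ y, G.dist x y ≤ D → ∃ n ∈ N, G.dist n y ≤ ρ) ∧
    N.card * (bl hG o (ρ / 2)).card ≤ (bl hG o (D + ρ / 2)).card := by
  classical
  set 𝓕 : Finset (Finset V) := (bl hG x D).powerset.filter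
    (fun N => ∀ a ∈ N, ∀ b ∈ N, a ≠ b → ρ < G.dist a b) with h𝓕
  have hne : 𝓕.Nonempty := ⟨∅, by simp [h𝓕]⟩
  obtain ⟨N, hN, hmax⟩ := Finset.exists_max_image 𝓕 Finset.card hne
  rw [h𝓕, Finset.mem_filter, Finset.mem_powerset] at hN
  obtain ⟨hsub, hsep⟩ := hN
  have hD : ∀ n ∈ N, G.dist x n ≤ D := fun n hn => (mem_bl hG x n D).1 (hsub hn)
  refine ⟨N, hD, ?_, ?_⟩
  · intro y hy
    by_contra hcon
    push Not at hcon
    have hyN : y ∉ N := by
      intro h
      have := hcon y h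
      simp at this
    have h1 : insert y N ∈ 𝓕 := by
      rw [h𝓕, Finset.mem_filter, Finset.mem_powerset]
      refine ⟨?_, ?_⟩
      · intro z hz
        rcases Finset.mem_insert.1 hz with rfl | hz
        · exact (mem_bl hG x z D).2 hy
        · exact hsub hz
      · intro a ha b hb hab
        rcases Finset.mem_insert.1 ha with rfl | ha
        · rcases Finset.mem_insert.1 hb with rfl | hb
          · exact absurd rfl hab
          · rw [SimpleGraph.dist_comm]; exact hcon b hb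
        · rcases Finset.mem_insert.1 hb with hb | hb
          · rw [hb]; exact hcon a ha
          · exact hsep a ha b hb hab
    have h2 := hmax _ h1
    rw [Finset.card_insert_of_notMem hyN] at h2
    omega
  · have hdisj : (N : Set V).PairwiseDisjoint (fun n => bl hG n (ρ / 2)) := by
      intro a ha b hb hab
      rw [Function.onFun, Finset.disjoint_left]
      intro z hz1 hz2
      rw [mem_bl] at hz1 hz2
      have h1 := hsep a ha b hb hab
      have h2 := hG.tri a z b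
      rw [SimpleGraph.dist_comm (u := z) (v := b)] at h2
      omega
    have h1 : (N.biUnion fun n => bl hG n (ρ / 2)).card = N.card * (bl hG o (ρ / 2)).card := by
      rw [Finset.card_biUnion hdisj, Finset.sum_congr rfl (fun n _ => card_bl hG n o (ρ / 2))]
      simp
    rw [← h1, card_bl hG o x (D + ρ / 2)]
    refine Finset.card_le_card ?_
    intro z hz
    obtain ⟨n, hn, hz⟩ := Finset.mem_biUnion.1 hz
    rw [mem_bl] at hz ⊢
    have := hG.tri x n z
    have := hD n hn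
    omega

private lemma net_class (o x : V) (D ρ : ℕ) {Ω : Type} (F : Ω → V)
    (hF : ∀ ω, G.dist x (F ω) ≤ D) :
    ∃ (N : Finset V) (c : Ω → V), (∀ ω, c ω ∈ N) ∧ (∀ n ∈ N, G.dist x n ≤ D) ∧
      (∀ ω, G.dist (c ω) (F ω) ≤ ρ) ∧
      (N.card : ℝ) * bb hG o (ρ / 2) ≤ bb hG o (D + ρ / 2) := by
  obtain ⟨N, h1, h2, h3⟩ := exists_net hG o x D ρ
  choose c hc1 hc2 using fun ω => h2 (F ω) (hF ω)
  refine ⟨N, c, hc1, h1, hc2, ?_⟩
  unfold bb
  exact_mod_cast h3

private lemma bb_pos' (o : V) (S : ℕ) : 0 < bb hG o S := by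
  unfold bb; exact_mod_cast card_bl_pos hG o S

private lemma sum_Pr_class {Ω : Type} [Fintype Ω] [Nonempty Ω] (N : Finset V) (c : Ω → V)
    (hc : ∀ ω, c ω ∈ N) : ∑ n ∈ N, Pr (fun ω => c ω = n) = 1 := by
  classical
  unfold Pr
  rw [← Ex_sum]
  refine (congrArg Ex (funext fun ω => ?_)).trans (Ex_const (Ω := Ω) (1 : ℝ))
  rw [Finset.sum_ite_eq, if_pos (hc ω)]

theorem collision (o x : V) (D ρ : ℕ) {Ω : Type} [Fintype Ω] [Nonempty Ω] (F : Ω → V)
    (hF : ∀ ω, G.dist x (F ω) ≤ D) :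
    bb hG o (ρ / 2 / 2) / bb hG o (D + ρ / 2 / 2) ≤
      Pr (fun p : Ω × Ω => G.dist (F p.1) (F p.2) ≤ ρ) := by
  classical
  obtain ⟨N, c, hcN, hND, hcF, hcard⟩ := net_class hG o x D (ρ / 2) F hF
  have hsum := sum_Pr_class N c hcN
  have h1 : ∑ n ∈ N, Pr (fun ω => c ω = n) ^ 2 ≤
      Pr (fun p : Ω × Ω => G.dist (F p.1) (F p.2) ≤ ρ) := by
    have h2 : ∀ n ∈ N, Pr (fun ω => c ω = n) ^ 2 =
        Pr (fun p : Ω × Ω => c p.1 = n ∧ c p.2 = n) := by
      intro n _
      rw [Pr_prod, sq]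
      have h3 : ∀ ω, Pr (fun ω' => c ω = n ∧ c ω' = n) =
          (Pr fun ω' => c ω' = n) * (if c ω = n then (1 : ℝ) else 0) := by
        intro ω
        by_cases h : c ω = n
        · simp [h]
        · simp only [h, false_and, if_false, mul_zero]
          unfold Pr Ex
          simp
      simp only [h3]
      rw [Ex_const_mul]
      rfl
    rw [Finset.sum_congr rfl h2]
    unfold Pr
    rw [← Ex_sum]
    refine Ex_mono fun p => ?_
    beta_reduce
    by_cases h : c p.1 = c p.2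
    · have h4 : G.dist (F p.1) (F p.2) ≤ ρ := by
        have h5 := hG.tri (F p.1) (c p.1) (F p.2)
        have h6 := hcF p.1
        have h7 := hcF p.2
        rw [SimpleGraph.dist_comm] at h6
        rw [← h] at h7
        omega
      rw [if_pos h4]
      refine (Finset.sum_congr rfl (g := fun n => if c p.1 = n then (1 : ℝ) else 0)
        (fun n _ => ?_)).trans_le ?_
      · rw [← h]
        by_cases h9 : c p.1 = n <;> simp [h9]
      · rw [Finset.sum_ite_eq]
        split_ifs <;> norm_num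
    · refine (Finset.sum_congr rfl (g := fun _ => (0 : ℝ)) (fun n _ => ?_)).trans_le ?_
      · rw [if_neg]
        rintro ⟨a, b⟩
        exact h (a.trans b.symm)
      · simp only [Finset.sum_const_zero]
        positivity
  refine le_trans ?_ h1
  -- Cauchy-Schwarz
  have hNne : N.Nonempty := ⟨_, hcN (Classical.arbitrary Ω)⟩
  have hNpos : (0 : ℝ) < N.card := by exact_mod_cast hNne.card_pos
  have h9 : (∑ n ∈ N, Pr (fun ω => c ω = n)) ^ 2 ≤
      N.card * ∑ n ∈ N, Pr (fun ω => c ω = n) ^ 2 := sq_sum_le_card_mul_sum_sq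
  rw [hsum, one_pow] at h9
  rw [div_le_iff₀ (bb_pos' hG o _)]
  have hb := bb_pos' hG o (ρ / 2 / 2)
  set T := ∑ n ∈ N, Pr (fun ω => c ω = n) ^ 2 with hT
  have hT0 : 0 ≤ T := Finset.sum_nonneg fun n _ => sq_nonneg _
  calc bb hG o (ρ / 2 / 2) = 1 * bb hG o (ρ / 2 / 2) := (one_mul _).symm
    _ ≤ (N.card * T) * bb hG o (ρ / 2 / 2) := mul_le_mul_of_nonneg_right h9 hb.le
    _ = T * (N.card * bb hG o (ρ / 2 / 2)) := by ring
    _ ≤ T * bb hG o (D + ρ / 2 / 2) := mul_le_mul_of_nonneg_left hcard hT0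

theorem exists_center (o x : V) (D ρ : ℕ) {Ω : Type} [Fintype Ω] [Nonempty Ω] (F : Ω → V)
    (hF : ∀ ω, G.dist x (F ω) ≤ D) :
    ∃ v, G.dist x v ≤ D ∧
      bb hG o (ρ / 2) / bb hG o (D + ρ / 2) ≤ Pr (fun ω : Ω => G.dist (F ω) v ≤ ρ) := by
  classical
  obtain ⟨N, c, hcN, hND, hcF, hcard⟩ := net_class hG o x D ρ F hF
  have hsum := sum_Pr_class N c hcN
  have hNne : N.Nonempty := ⟨_, hcN (Classical.arbitrary Ω)⟩
  obtain ⟨n, hn, hmax⟩ := Finset.exists_max_image N (fun n => Pr (fun ω => c ω = n)) hNne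
  refine ⟨n, hND n hn, ?_⟩
  have h1 : Pr (fun ω => c ω = n) ≤ Pr (fun ω : Ω => G.dist (F ω) n ≤ ρ) := by
    refine Pr_mono fun ω h => ?_
    rw [← h, SimpleGraph.dist_comm]
    exact hcF ω
  refine le_trans ?_ h1
  rw [div_le_iff₀ (bb_pos' hG o _)]
  have h2 : (1 : ℝ) ≤ N.card * Pr (fun ω => c ω = n) := by
    rw [← hsum, ← nsmul_eq_mul]
    exact Finset.sum_le_card_nsmul _ _ _ hmax
  have hb := bb_pos' hG o (ρ / 2)
  calc bb hG o (ρ / 2) = 1 * bb hG o (ρ / 2) := (one_mul _).symm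
    _ ≤ (N.card * Pr (fun ω => c ω = n)) * bb hG o (ρ / 2) := mul_le_mul_of_nonneg_right h2 hb.le
    _ = Pr (fun ω => c ω = n) * (N.card * bb hG o (ρ / 2)) := by ring
    _ ≤ Pr (fun ω => c ω = n) * bb hG o (D + ρ / 2) :=
        mul_le_mul_of_nonneg_left hcard (Pr_nonneg _)

end Pool.H98.C
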