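import Pool.Agent.H98.C.Raise
import Pool.Agent.H98.C.Net

set_option autoImplicit false

/-! Antiparallel doubling. -/

namespace Pool.H98.C

open Finset Pool.Agent.H61.SW

variable {V : Type} {G : SimpleGraph V} {o : V} {R : ℕ} (hG : TG G) (H : Homog G o R)

/-- the reversed block -/
lemma Blk_rev {S A L : ℕ} {δ : ℝ} {z : V} {a c b : List V} (B : Blk hG H S δ A L z a c b) :
    Blk hG H S δ A L (en z (a ++ (c ++ b))) (rv (en z (a ++ c)) b) (rv (en z a) c) (rv z a) := by
  have e1 : rv (en z (a ++ c)) b ++ (rv (en z a) c ++ rv z a) = rv z (a ++ (c ++ b)) := by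
    rw [← rv_append, ← rv_append, List.append_assoc]
  have e2 : en (en z (a ++ (c ++ b))) (rv (en z (a ++ c)) b) = en z (a ++ c) := by
    rw [← List.append_assoc, en_append z (a ++ c) b, en_rv]
  refine ⟨?_, ?_, ?_, ?_, ?_, ?_, ?_⟩
  · rw [e1]; exact sa_rv _ _ B.sa
  · rw [e2]
    refine (hit_mono hG H ?_).trans B.he
    intro v hv
    rw [← rv_append] at hv
    exact mem_rv.1 hv
  · rw [e1, en_rv]
    refine (hit_mono hG H ?_).trans B.hs
    intro v hv
    have h1 : rv (en z (a ++ c)) b ++ rv (en z a) c = rv (en z a) (c ++ b) := by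
      rw [rv_append, en_append]
    rw [h1, en_append] at hv
    exact mem_rv.1 hv
  · rw [e1, en_rv, QQ_comm]
    exact B.qq
  · rw [length_rv]; exact B.lb
  · rw [length_rv]; exact B.la
  · rw [e1, length_rv]; exact B.ll

/-- Module AP: antiparallel doubling. All blocks of the family run from `z` to the SAME far end `z'`
inside the ball of radius `D` about `z`; merging with the reversed family gives blocks with a common
far end `z''` close to `z`. -/
theorem ap_step {S A L D E ρ : ℕ} {δ δ' t p M : ℝ} (ht : 0 < t) (ht1 : t ≤ 1) (hδ : 0 < δ)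
    (hM : 0 < M) (hR : 3 * S + L ≤ R) (z z' : V) (F : Finset (V × List V))
    (hF : Fam hG H S δ A L z (fun s => en z s = z' ∧ ∀ x ∈ s, G.dist z x ≤ D) F)
    (hE : G.dist z z' ≤ E) (hD : E + S ≤ D)
    (hp : p ≤ bb hG o (ρ / 2 / 2) / bb hG o (E + S + ρ / 2 / 2))
    (hnum : 2 * δ + ((L + 1) * (L + 1 + S) + S * (L + 1)) * (1 / bb hG o S) + 3 / M ≤ p / 2)
    (hδ' : δ + M * (δ + S * (L + 1 + S) * (1 / bb hG o S)) ≤ δ') :
    ∃ (z'' : V) (F' : Finset (V × List V)), G.dist z z'' ≤ ρ ∧
      Fam hG H S δ' A (2 * L + 2 * S) z (fun s => en z s = z'' ∧ ∀ x ∈ s, G.dist z x ≤ D + ρ) F' ∧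
      (p / 2) * (wt t F * wt t F) * t ^ (2 * A + 2 * S) ≤ (2 * L + 2 * S + 1) ^ 2 * wt t F' := by
  classical
  -- the reversed family
  let rev : V × List V → V × List V := fun q => (en q.1 q.2, rv q.1 q.2)
  have hrev : Function.Injective rev := by
    rintro ⟨y, c⟩ ⟨y', c'⟩ h
    simp only [rev, Prod.mk.injEq] at h
    have h1 := en_rv y c
    have h2 := rv_rv y c
    rw [h.1, h.2] at h1 h2
    rw [en_rv] at h1
    rw [rv_rv] at h2
    rw [h1, h2]
  set Fr : Finset (V × List V) := F.image rev with hFr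
  have hwt : wt t Fr = wt t F := by
    rw [wt, wt, hFr, Finset.sum_image (fun a _ b _ h => hrev h)]
    refine Finset.sum_congr rfl fun q _ => ?_
    simp only [rev, length_rv]
  have hFam : Fam hG H S δ A L z'
      (fun s => en z' s = z ∧ ∀ x ∈ z' :: s, G.dist z x ≤ D) Fr := by
    intro q hq
    obtain ⟨q0, hq0, rfl⟩ := Finset.mem_image.1 hq
    obtain ⟨a, b, h1, B, h2, h3⟩ := hF q0 hq0
    refine ⟨rv (en z (a ++ q0.2)) b, rv z a, ?_, ?_, ?_, ?_⟩
    · simp only [rev]
      rw [← h2, ← List.append_assoc, en_append z (a ++ q0.2) b, en_rv, en_append, h1]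
    · have := Blk_rev hG H B
      rw [h2] at this
      simp only [rev]
      rw [← h1]
      exact this
    · simp only [rev]
      rw [← h1, ← rv_append, ← rv_append, List.append_assoc, ← h2, en_rv]
    · intro x hx
      simp only [rev] at hx
      rw [← h1, ← rv_append, ← rv_append, List.append_assoc, ← h2] at hx
      have hx' := mem_rv.1 hx
      rcases List.mem_cons.1 hx' with rfl | hx'
      · simp
      · exact h3 x hx'
  -- confinement
  let Conf : V → OO hG H S × OO hG H S → Prop := fun u ω =>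
    G.dist z (gg hG H (RelIso.refl _) u z' ω z) ≤ ρ
  have hConf : ∀ s, (en z s = z' ∧ ∀ x ∈ s, G.dist z x ≤ D) → p ≤ Pr (Conf (en z s)) := by
    rintro s ⟨hs, -⟩
    rw [hs]
    refine hp.trans ?_
    have hcol := collision hG o o (E + S) ρ (fun ω1 : OO hG H S => (XX hG H z' ω1).symm z)
      (fun ω1 => by
        have := dist_XX_symm hG H z' z ω1
        have h2 : G.dist z' z = G.dist z z' := SimpleGraph.dist_comm
        omega)
    refine hcol.trans (le_of_eq (Pr_congr fun ω => ?_))
    simp only [Conf, gg_apply]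
    have h1 : G.dist z (XX hG H z' ω.1 ((RelIso.refl G.Adj : G ≃g G) ((XX hG H z' ω.2).symm z))) =
        G.dist ((XX hG H z' ω.1).symm z) ((XX hG H z' ω.2).symm z) := by
      have h3 := dist_iso hG.conn (XX hG H z' ω.1) ((XX hG H z' ω.1).symm z)
        ((XX hG H z' ω.2).symm z)
      rw [← h3, (XX hG H z' ω.1).apply_symm_apply]
      rfl
    rw [h1]
  obtain ⟨ω, F', hF', hw⟩ := merge hG H ht ht1 hδ hM hR z z' _ _ F Fr hF hFam Conf hConf hnum hδ'
  rw [hwt] at hw
  rcases F'.eq_empty_or_nonempty with rfl | ⟨q1, hq1⟩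
  · exact ⟨z, ∅, by simp, fun p hp => absurd hp (by simp), hw⟩
  -- the common placement
  set g : G ≃g G := gg hG H (RelIso.refl _) z' z' ω with hg
  have hgz : G.dist z (g z) ≤ ρ := by
    obtain ⟨a, b, h1, B, s1, s2, h2, h3, h4, h5, h6⟩ := hF' q1 hq1
    have h4' : G.dist z (gg hG H (RelIso.refl _) (en z s1) z' ω z) ≤ ρ := h4
    rw [h2.1] at h4'
    exact h4'
  refine ⟨g z, F', hgz, ?_, hw⟩
  intro q hq
  obtain ⟨a, b, h1, B, s1, s2, h2, h3, h4, h5, h6⟩ := hF' q hq
  have hplc : plc hG H z z' s1 ω = g := by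
    unfold plc
    rw [h2.1]
  rw [hplc] at h5 h6
  rw [h2.1] at h6
  have hE' : G.dist z z' ≤ D := by omega
  refine ⟨a, b, h1, B, ?_, ?_⟩
  · rw [h5, h3.1]
  · intro x hx
    rcases h6 x hx with h | h | ⟨y, hy, rfl⟩
    · have := h2.2 x h
      omega
    · have h7 := dist_por hG H z' ω.1.1 x (List.mem_cons_of_mem _ h)
      have h8 := hG.tri z z' x
      omega
    · have h9 : G.dist z y ≤ D := by
        rcases hy with hy | hy
        · exact h3.2 y hy
        · have h7 := dist_por hG H z' ω.2.1 y (List.mem_cons_of_mem _ hy)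
          have h8 := hG.tri z z' y
          omega
      have h10 := hG.tri z (g z) (g y)
      rw [dist_iso hG.conn] at h10
      omega

end Pool.H98.C
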