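import Pool.Agent.H98.C.Prob
import Pool.Agent.H61.SWLocal

set_option autoImplicit false

/-! Transitive graphs: balls, geodesics, distances under automorphisms. -/

namespace Pool.H98.C

open Finset Pool.Agent.H61.SW

variable {V : Type*} {G : SimpleGraph V}

/-- connected, locally finite, vertex transitive -/
structure TG (G : SimpleGraph V) : Prop where
  conn : G.Connected
  lf : ∀ v, (G.neighborSet v).Finite
  tr : ∀ u v, ∃ φ : G ≃g G, φ u = v

lemma TG.tri (hG : TG G) (x y z : V) : G.dist x z ≤ G.dist x y + G.dist y z :=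
  hG.conn.dist_triangle

lemma dist_iso_le {W : Type*} {G' : SimpleGraph W} (hG : G.Connected) (g : G ≃g G') (x y : V) :
    G'.dist (g x) (g y) ≤ G.dist x y := by
  obtain ⟨p, hp⟩ := hG.exists_walk_length_eq_dist x y
  have := SimpleGraph.dist_le (p.map g.toHom)
  rw [SimpleGraph.Walk.length_map, hp] at this
  exact this

/-- distances are preserved by isomorphisms -/
lemma dist_iso {W : Type*} {G' : SimpleGraph W} (hG : G.Connected) (g : G ≃g G') (x y : V) :
    G'.dist (g x) (g y) = G.dist x y := by
  refine le_antisymm (dist_iso_le hG g x y) ?_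
  have hG' : G'.Connected := g.connected_iff.1 hG
  have := dist_iso_le hG' g.symm (g x) (g y)
  simpa using this

/-- ball as a finset -/
noncomputable def bl (hG : TG G) (x : V) (r : ℕ) : Finset V :=
  (ball_finite hG.lf hG.conn x r).toFinset

@[simp] lemma mem_bl (hG : TG G) (x y : V) (r : ℕ) : y ∈ bl hG x r ↔ G.dist x y ≤ r := by
  simp [bl]

lemma self_mem_bl (hG : TG G) (x : V) (r : ℕ) : x ∈ bl hG x r := by simp

lemma bl_nonempty (hG : TG G) (x : V) (r : ℕ) : (bl hG x r).Nonempty := ⟨x, self_mem_bl hG x r⟩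

lemma bl_iso (hG : TG G) (g : G ≃g G) (x : V) (r : ℕ) :
    (bl hG x r).map g.toEquiv.toEmbedding = bl hG (g x) r := by
  ext y
  simp only [Finset.mem_map, mem_bl]
  constructor
  · rintro ⟨z, hz, rfl⟩
    show G.dist (g x) (g z) ≤ r
    rw [dist_iso hG.conn]; exact hz
  · intro hy
    refine ⟨g.symm y, ?_, g.apply_symm_apply y⟩
    rw [← dist_iso hG.conn g, g.apply_symm_apply]; exact hy

lemma card_bl (hG : TG G) (x y : V) (r : ℕ) : (bl hG x r).card = (bl hG y r).card := by
  obtain ⟨g, rfl⟩ := hG.tr x y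
  rw [← bl_iso hG g x r, Finset.card_map]

lemma card_bl_pos (hG : TG G) (x : V) (r : ℕ) : 0 < (bl hG x r).card :=
  Finset.card_pos.2 (bl_nonempty hG x r)

lemma card_bl_ncard (hG : TG G) (x : V) (r : ℕ) :
    (bl hG x r).card = Set.ncard {v | G.dist x v ≤ r} := by
  rw [Set.ncard_eq_toFinset_card _ (ball_finite hG.lf hG.conn x r)]; rfl

/-- a chosen geodesic (list of later vertices) -/
lemma exists_geo (hG : TG G) (x y : V) :
    ∃ s : List V, ch G x s ∧ en x s = y ∧ s.length = G.dist x y ∧ (x :: s).Nodup := by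
  obtain ⟨p, hp, hl⟩ := hG.conn.exists_path_of_dist x y
  obtain ⟨s, h1, h2, h3, h4⟩ := walk_ch p
  refine ⟨s, h2, h3, by omega, ?_⟩
  rw [← h1]
  exact (SimpleGraph.Walk.isPath_def p).1 hp

noncomputable def geo (hG : TG G) (x y : V) : List V := (exists_geo hG x y).choose

lemma ch_geo (hG : TG G) (x y : V) : ch G x (geo hG x y) := (exists_geo hG x y).choose_spec.1

lemma en_geo (hG : TG G) (x y : V) : en x (geo hG x y) = y := (exists_geo hG x y).choose_spec.2.1

lemma length_geo (hG : TG G) (x y : V) : (geo hG x y).length = G.dist x y :=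
  (exists_geo hG x y).choose_spec.2.2.1

lemma nodup_geo (hG : TG G) (x y : V) : (x :: geo hG x y).Nodup :=
  (exists_geo hG x y).choose_spec.2.2.2

lemma mem_geo_dist (hG : TG G) {x y v : V} (h : v ∈ geo hG x y) : G.dist x v ≤ G.dist x y := by
  rw [← length_geo hG x y]
  exact mem_ball x _ (ch_geo hG x y) _ le_rfl v (List.mem_cons_of_mem _ h)

/-- a chosen automorphism taking `x` to `y` -/
noncomputable def tau (hG : TG G) (x y : V) : G ≃g G := (hG.tr x y).choose

@[simp] lemma tau_apply (hG : TG G) (x y : V) : tau hG x y x = y := (hG.tr x y).choose_spec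

/-- vertices of walks are near the start -/
lemma dist_mem_ch {x v : V} {s : List V} (h : ch G x s) (hv : v ∈ x :: s) :
    G.dist x v ≤ s.length := mem_ball x s h _ le_rfl v hv

/-- loop erasure -/
lemma loop_erase (x : V) (s : List V) (h : ch G x s) :
    ∃ s' : List V, sa G x s' ∧ en x s' = en x s ∧ s'.length ≤ s.length ∧ ∀ v ∈ s', v ∈ s := by
  classical
  induction hn : s.length using Nat.strong_induction_on generalizing x s with
  | _ n ih =>
  subst hn
  by_cases hx : x ∈ s
  · obtain ⟨s1, s2, rfl⟩ := List.append_of_mem hx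
    have h1 : ch G x s2 := by
      have := ((ch_append x s1 (x :: s2)).1 h).2
      exact this.2
    obtain ⟨s', a1, a2, a3, a4⟩ := ih s2.length (by simp; omega) x s2 h1 rfl
    refine ⟨s', a1, ?_, by simp; omega, fun v hv => by simp [a4 v hv]⟩
    rw [a2, en_append]; rfl
  · cases s with
    | nil => exact ⟨[], sa_nil x, rfl, le_rfl, by simp⟩
    | cons a s =>
      obtain ⟨s', a1, a2, a3, a4⟩ := ih s.length (by simp) a s h.2 rfl
      refine ⟨a :: s', ⟨⟨h.1, a1.1⟩, ?_⟩, a2, by simpa using a3, ?_⟩
      · rw [List.nodup_cons]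
        refine ⟨fun hx' => hx ?_, a1.2⟩
        rcases List.mem_cons.1 hx' with rfl | hx'
        · simp
        · exact List.mem_cons_of_mem _ (a4 x hx')
      · intro v hv
        rcases List.mem_cons.1 hv with rfl | hv
        · simp
        · exact List.mem_cons_of_mem _ (a4 v hv)

end Pool.H98.C
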