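import Pool.Agent.H98.C.Merge
import Pool.Agent.H98.C.Net

set_option autoImplicit false

/-! Chaining confined blocks along a geodesic. -/

namespace Pool.H98.C

open Finset Pool.Agent.H61.SW

variable {V : Type} {G : SimpleGraph V} {o : V} {R : ℕ} (hG : TG G) (H : Homog G o R)

/-- state of the chain -/
def St (S : ℕ) (δ' : ℝ) (A Lr D e : ℕ) (z : V) (pt : ℕ → V) (i : ℕ) (C : List V) : Prop :=
  ∃ b O Rl : List V, z :: C = O ++ Rl ∧ sa G z (C ++ b) ∧ b.length ≤ A ∧ Rl.length ≤ Lr ∧
    hit hG H S (en z (C ++ b)) Rl ≤ δ' ∧ G.dist (en z (C ++ b)) (pt i) ≤ 3 * e ∧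
    (∀ x ∈ O, G.dist z x + 6 * e < i * D) ∧ (∀ x ∈ z :: (C ++ b), G.dist z x ≤ i * D + 8 * e)

lemma dist_XX {S : ℕ} (u : V) (ω : OO hG H S) (x y : V) :
    G.dist (XX hG H u ω x) y = G.dist x ((XX hG H u ω).symm y) := by
  rw [← dist_iso hG.conn (XX hG H u ω) x ((XX hG H u ω).symm y), (XX hG H u ω).apply_symm_apply]

lemma dist_XX_o {S : ℕ} (u : V) (ω : OO hG H S) : G.dist u (XX hG H u ω o) ≤ S := by
  rw [XX_o]; exact dist_en_por hG H u ω.1

/-- vertices of the geodesic `geo o v`: distances to both ends -/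
lemma geo_split {x y c : V} (hc : c ∈ geo hG x y) : G.dist x c ≤ G.dist x y ∧
    G.dist c y ≤ G.dist x y := by
  refine ⟨mem_geo_dist hG hc, ?_⟩
  have h1 : c ∈ en x (geo hG x y) :: rv x (geo hG x y) :=
    mem_rv.2 (List.mem_cons_of_mem _ hc)
  have h2 := dist_mem_ch (ch_rv x _ (ch_geo hG x y)) h1
  rw [length_rv, length_geo, en_geo] at h2
  rw [SimpleGraph.dist_comm]
  exact h2

theorem chain_one {S A L e D i : ℕ} {δ δ' M m : ℝ} (hSR : S ≤ R) (hS : S ≤ e) (he : 1 ≤ e)
    (hD : 15 * e ≤ D) (z : V) (pt : ℕ → V) (h1p : G.dist z (pt i) = i * D)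
    (h2p : G.dist z (pt (i + 1)) = (i + 1) * D)
    {C b O Rl a2 c2 b2 : List V}
    (hO : z :: C = O ++ Rl) (hsa : sa G z (C ++ b)) (hb : b.length ≤ A)
    (hu : G.dist (en z (C ++ b)) (pt i) ≤ 3 * e)
    (hOld : ∀ x ∈ O, G.dist z x + 6 * e < i * D)
    (hAll : ∀ x ∈ z :: (C ++ b), G.dist z x ≤ i * D + 8 * e)
    (B2 : Blk hG H S δ A L z a2 c2 b2) (hP : ∀ x ∈ a2 ++ (c2 ++ b2), G.dist z x ≤ e)
    (v : V) (hv : G.dist o v ≤ D + 4 * e)
    (ω : OO hG H S × OO hG H S) (g : G ≃g G)
    (hg : g = gg hG H (tau hG o v) (en z (C ++ b)) z ω)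
    (hc : G.dist ((XX hG H (en z (C ++ b)) ω.1).symm (pt (i + 1))) v ≤ e)
    (E1 : ∀ x ∈ por hG H (en z (C ++ b)) ω.1.1, x ∉ Rl)
    (E2 : ∀ x ∈ por hG H z ω.2.1, x ∉ en z a2 :: (c2 ++ b2))
    (E3 : ¬ ∃ x ∈ Rl ++ b, ∃ y ∈ (z :: (a2 ++ (c2 ++ b2))) ++ por hG H z ω.2.1, x = g y)
    (E4 : ¬ ∃ x ∈ por hG H (en z (C ++ b)) ω.1.1, ∃ y ∈ z :: (a2 ++ (c2 ++ b2)), x = g y)
    (E5 : ¬ ∃ x ∈ (geo hG o v).map (XX hG H (en z (C ++ b)) ω.1), x ∈ Rl)
    (E6 : ¬ ∃ x ∈ (geo hG o v).map (XX hG H (en z (C ++ b)) ω.1),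
      ∃ y ∈ z :: (a2 ++ (c2 ++ b2)), x = g y)
    (E7 : hit hG H S (g (en z (a2 ++ (c2 ++ b2)))) b +
      hit hG H S (g (en z (a2 ++ (c2 ++ b2)))) (por hG H (en z (C ++ b)) ω.1.1 ++
        (geo hG o v).map (XX hG H (en z (C ++ b)) ω.1)) +
      hit hG H S (en z (a2 ++ (c2 ++ b2))) (por hG H z ω.2.1) ≤ M * m)
    (hδ' : δ + M * m ≤ δ') :
    ∃ π : List V, π.length ≤ 2 * A + 2 * S + (D + 4 * e) ∧ en (en z C) π = g (en z a2) ∧
      St hG H S δ' A (2 * A + 2 * S + (D + 4 * e) + L + 1) D e z pt (i + 1)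
        (C ++ (π ++ c2.map g)) := by
  set u := en z (C ++ b) with hudef
  set X := XX hG H u ω.1 with hX
  obtain ⟨k1, k2, k3, k4⟩ := kap_spec hG H (S := S) (tau hG o v) (geo hG o v) (ch_geo hG o v)
    (by rw [en_geo, tau_apply]) u z ω
  rw [← hg] at k2 k4
  set κ := kap hG H (tau hG o v) (geo hG o v) u z ω with hκ
  rw [length_geo] at k3
  -- distances
  have du1 : i * D ≤ G.dist z u + 3 * e := by
    have := hG.tri z u (pt i)
    omega
  have du2 : G.dist z u ≤ i * D + 3 * e := by
    have := hG.tri z (pt i) u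
    rw [SimpleGraph.dist_comm (u := pt i)] at this
    omega
  have dXo1 : i * D ≤ G.dist z (X o) + 4 * e := by
    have h1 : G.dist u (X o) ≤ S := dist_XX_o hG H u ω.1
    have h2 := hG.tri z (X o) u
    rw [SimpleGraph.dist_comm (u := X o)] at h2
    omega
  have dXo2 : G.dist z (X o) ≤ i * D + 4 * e := by
    have h1 : G.dist u (X o) ≤ S := dist_XX_o hG H u ω.1
    have h2 := hG.tri z u (X o)
    omega
  have dXv : G.dist (X v) (pt (i + 1)) ≤ e := by
    rw [hX, dist_XX, SimpleGraph.dist_comm]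
    exact hc
  have hDi : (i + 1) * D = i * D + D := by ring
  have dXv1 : (i + 1) * D ≤ G.dist z (X v) + e := by
    have := hG.tri z (X v) (pt (i + 1))
    omega
  have dXv2 : G.dist z (X v) ≤ (i + 1) * D + e := by
    have := hG.tri z (pt (i + 1)) (X v)
    rw [SimpleGraph.dist_comm (u := pt (i + 1)) (v := X v)] at this
    omega
  have dgz : G.dist (g z) (X v) ≤ e := by
    have h1 : X v = g (XX hG H z ω.2 o) := by
      rw [hg, gg_apply]
      simp [hX]
    rw [h1, dist_iso hG.conn]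
    exact (dist_XX_o hG H z ω.2).trans hS
  have dgzp : G.dist (g z) (pt (i + 1)) ≤ 2 * e := by
    have := hG.tri (g z) (X v) (pt (i + 1))
    omega
  -- all the new vertices are near level i, i+1
  have newP : ∀ x ∈ por hG H u ω.1.1, i * D ≤ G.dist z x + 5 * e ∧
      G.dist z x ≤ (i + 1) * D + 8 * e := by
    intro x hx
    have h1 := dist_por hG H u ω.1.1 x (List.mem_cons_of_mem _ hx)
    have h2 := hG.tri z x u
    have h3 := hG.tri z u x
    rw [SimpleGraph.dist_comm (u := x)] at h2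
    omega
  have newπ : ∀ x ∈ (geo hG o v).map X, i * D ≤ G.dist z x + 5 * e ∧
      G.dist z x ≤ (i + 1) * D + 8 * e := by
    intro x hx
    obtain ⟨c, hc', rfl⟩ := List.mem_map.1 hx
    obtain ⟨h1, h2⟩ := geo_split hG hc'
    have h3 : G.dist (X o) (X c) = G.dist o c := dist_iso hG.conn X o c
    have h4 : G.dist (X c) (X v) = G.dist c v := dist_iso hG.conn X c v
    have h5 := hG.tri z (X o) (X c)
    have h6 := hG.tri z (X c) (X v)
    omega
  have newg : ∀ y, G.dist z y ≤ e → i * D ≤ G.dist z (g y) + 5 * e ∧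
      G.dist z (g y) ≤ (i + 1) * D + 8 * e := by
    intro y hy
    have h1 : G.dist (g z) (g y) = G.dist z y := dist_iso hG.conn g z y
    have h2 := hG.tri z (g y) (g z)
    rw [SimpleGraph.dist_comm (u := g y)] at h2
    have h3 := hG.tri z (g z) (g y)
    have h4 := hG.tri z (g z) (X v)
    have h5 := hG.tri z (X v) (g z)
    rw [SimpleGraph.dist_comm (u := X v)] at h5
    omega
  have dz : ∀ y ∈ z :: (a2 ++ (c2 ++ b2)), G.dist z y ≤ e := by
    intro y hy
    rcases List.mem_cons.1 hy with rfl | hy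
    · simp
    · exact hP y hy
  have dY : ∀ y ∈ z :: por hG H z ω.2.1, G.dist z y ≤ e := fun y hy =>
    (dist_por hG H z ω.2.1 y hy).trans hS
  have newκ : ∀ x ∈ κ, i * D ≤ G.dist z x + 5 * e ∧ G.dist z x ≤ (i + 1) * D + 8 * e := by
    intro x hx
    rcases k4 x hx with h | h | ⟨y, hy, rfl⟩
    · exact newP x h
    · exact newπ x h
    · exact newg y (dY y hy)
  have notO : ∀ x, i * D ≤ G.dist z x + 5 * e → x ∉ O := by
    intro x hx hxO
    have := hOld x hxO
    omega
  obtain ⟨π, p1, p2, p3, p4, p5⟩ := join_det (g := g) (κ := κ) (z1 := z) (z2 := z)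
    (a1 := []) (c1 := C) (b1 := b) (a2 := a2) (c2 := c2) (b2 := b2) (by simpa using hsa) B2.sa
    (by simpa using k1) (by simpa using k2) (by
      intro x hx
      simp only [List.nil_append]
      rw [hO, List.mem_append, not_or]
      refine ⟨notO x (newκ x hx).1, ?_⟩
      rcases k4 x hx with h | h | ⟨y, hy, rfl⟩
      · exact E1 x h
      · exact fun hR => E5 ⟨x, h, hR⟩
      · intro hR
        refine E3 ⟨g y, List.mem_append_left _ hR, y, ?_, rfl⟩
        rcases List.mem_cons.1 hy with h | h <;> simp [h]) (by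
      intro x hx
      rcases k4 x hx with h | h | ⟨y, hy, rfl⟩
      · right
        intro y hy hxy
        exact E4 ⟨x, h, y, mem_cons_of_split hy, hxy⟩
      · right
        intro y hy hxy
        exact E6 ⟨x, h, y, mem_cons_of_split hy, hxy⟩
      · rcases List.mem_cons.1 hy with rfl | hy
        · exact Or.inl rfl
        · right
          intro y' hy' hyy
          have : y = y' := g.injective hyy
          subst this
          exact E2 y hy hy') (by
      intro x hx y hy hxy
      simp only [List.nil_append] at hx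
      rw [← List.cons_append, hO, List.append_assoc] at hx
      rcases List.mem_append.1 hx with h | h
      · refine notO x ?_ h
        rw [hxy]
        exact (newg y (dz y hy)).1
      · exact E3 ⟨x, h, y, List.mem_append_left _ hy, hxy⟩)
  simp only [List.nil_append] at p3 p4 p5
  have l2 := B2.ll
  have la2 := B2.la
  have lb2 := B2.lb
  simp only [List.length_append] at l2
  have newπ' : ∀ x ∈ π, x ∈ b ∨ x ∈ por hG H u ω.1.1 ∨ x ∈ (geo hG o v).map X ∨
      (∃ y ∈ z :: por hG H z ω.2.1, x = g y) ∨ ∃ y ∈ a2, x = g y := by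
    intro x hx
    rcases p2 x hx with h | h | h
    · exact Or.inl h
    · rcases k4 x h with h | h | h
      · exact Or.inr (Or.inl h)
      · exact Or.inr (Or.inr (Or.inl h))
      · exact Or.inr (Or.inr (Or.inr (Or.inl h)))
    · exact Or.inr (Or.inr (Or.inr (Or.inr h)))
  refine ⟨π, by omega, p3, b2.map g, z :: C, π ++ c2.map g, by simp, p4, by simpa using lb2, ?_,
    ?_, ?_, ?_, ?_⟩
  · simp only [List.length_append, List.length_map]
    omega
  · rw [p5]
    have h1 : ∀ x ∈ π ++ c2.map g, x ∈ b ++ ((por hG H u ω.1.1 ++ (geo hG o v).map X) ++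
        ((por hG H z ω.2.1).map g ++ (z :: (a2 ++ c2)).map g)) := by
      intro x hx
      simp only [List.mem_append] at hx ⊢
      rcases hx with hx | hx
      · rcases newπ' x hx with h | h | h | ⟨y, hy, rfl⟩ | ⟨y, hy, rfl⟩
        · exact Or.inl h
        · exact Or.inr (Or.inl (Or.inl h))
        · exact Or.inr (Or.inl (Or.inr h))
        · rcases List.mem_cons.1 hy with rfl | hy
          · exact Or.inr (Or.inr (Or.inr (List.mem_map_of_mem (by simp))))
          · exact Or.inr (Or.inr (Or.inl (List.mem_map_of_mem hy)))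
        · exact Or.inr (Or.inr (Or.inr (List.mem_map_of_mem (by simp [hy]))))
      · obtain ⟨y, hy, rfl⟩ := List.mem_map.1 hx
        exact Or.inr (Or.inr (Or.inr (List.mem_map_of_mem (by simp [hy]))))
    refine (hit_mono hG H h1).trans ((hit_append hG H S _ _ _).trans ?_)
    have h2 := hit_append hG H S (g (en z (a2 ++ (c2 ++ b2))))
      (por hG H u ω.1.1 ++ (geo hG o v).map X)
      ((por hG H z ω.2.1).map g ++ (z :: (a2 ++ c2)).map g)
    have h3 := hit_append hG H S (g (en z (a2 ++ (c2 ++ b2)))) ((por hG H z ω.2.1).map g)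
      ((z :: (a2 ++ c2)).map g)
    rw [hit_iso hG H hSR, hit_iso hG H hSR] at h3
    have h4 := B2.he
    linarith
  · rw [p5]
    have h1 := hG.tri (g (en z (a2 ++ (c2 ++ b2)))) (g z) (pt (i + 1))
    rw [dist_iso hG.conn, SimpleGraph.dist_comm (u := en z (a2 ++ (c2 ++ b2)))] at h1
    have h2 := dz _ (en_mem_cons z (a2 ++ (c2 ++ b2)))
    omega
  · intro x hx
    have h1 := hAll x (by
      rcases List.mem_cons.1 hx with h | h <;> simp [h])
    omega
  · intro x hx
    have hx' : x ∈ z :: (C ++ b) ∨ x ∈ por hG H u ω.1.1 ∨ x ∈ (geo hG o v).map X ∨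
        ∃ y, G.dist z y ≤ e ∧ x = g y := by
      rcases List.mem_cons.1 hx with h | h
      · left; simp [h]
      · simp only [List.mem_append] at h
        rcases h with (h | h | h) | h
        · left; simp [h]
        · rcases newπ' x h with h | h | h | ⟨y, hy, rfl⟩ | ⟨y, hy, rfl⟩
          · left; simp [h]
          · exact Or.inr (Or.inl h)
          · exact Or.inr (Or.inr (Or.inl h))
          · exact Or.inr (Or.inr (Or.inr ⟨y, dY y hy, rfl⟩))
          · exact Or.inr (Or.inr (Or.inr ⟨y, dz y (by simp [hy]), rfl⟩))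
        · obtain ⟨y, hy, rfl⟩ := List.mem_map.1 h
          exact Or.inr (Or.inr (Or.inr ⟨y, dz y (by simp [hy]), rfl⟩))
        · obtain ⟨y, hy, rfl⟩ := List.mem_map.1 h
          exact Or.inr (Or.inr (Or.inr ⟨y, dz y (by simp [hy]), rfl⟩))
    rcases hx' with h | h | h | ⟨y, hy, rfl⟩
    · have := hAll x h
      omega
    · exact (newP x h).2
    · exact (newπ x h).2
    · exact (newg y hy).2

include hG in
/-- vertices of a long geodesic -/
lemma exists_pts [Infinite V] (z : V) (D n : ℕ) : ∃ pt : ℕ → V,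
    (∀ i, i ≤ n → G.dist z (pt i) = i * D) ∧
    ∀ i, i < n → G.dist (pt i) (pt (i + 1)) ≤ D := by
  obtain ⟨w, hw⟩ : ∃ w, n * D ≤ G.dist z w := by
    obtain ⟨w, hw⟩ := Infinite.exists_notMem_finset (bl hG z (n * D))
    exact ⟨w, by rw [mem_bl] at hw; omega⟩
  set s := geo hG z w with hs
  have hch : ch G z s := ch_geo hG z w
  have hlen : s.length = G.dist z w := length_geo hG z w
  have hen : en z s = w := en_geo hG z w
  refine ⟨fun i => en z (s.take (i * D)), ?_, ?_⟩
  · intro i hi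
    have hk : i * D ≤ s.length := by
      rw [hlen]
      exact (Nat.mul_le_mul_right D hi).trans hw
    have h0 : s = s.take (i * D) ++ s.drop (i * D) := (List.take_append_drop _ s).symm
    have hch' := hch
    rw [h0, ch_append] at hch'
    have h1 := dist_mem_ch hch'.1 (en_mem_cons z (s.take (i * D)))
    have h2 := dist_mem_ch hch'.2 (en_mem_cons _ (s.drop (i * D)))
    rw [← en_append, ← h0, hen] at h2
    rw [List.length_take] at h1
    rw [List.length_drop] at h2
    have h3 := hG.tri z (en z (s.take (i * D))) w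
    show G.dist z (en z (s.take (i * D))) = i * D
    omega
  · intro i _
    show G.dist (en z (s.take (i * D))) (en z (s.take ((i + 1) * D))) ≤ D
    have h0 : s = s.take (i * D) ++ s.drop (i * D) := (List.take_append_drop _ s).symm
    have hch' := hch
    rw [h0, ch_append] at hch'
    have h1 : s.drop (i * D) = (s.drop (i * D)).take D ++ (s.drop (i * D)).drop D :=
      (List.take_append_drop _ _).symm
    have hch2 := hch'.2
    rw [h1, ch_append] at hch2
    have h2 := dist_mem_ch hch2.1 (en_mem_cons _ ((s.drop (i * D)).take D))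
    rw [← en_append, ← List.take_add, List.length_take] at h2
    rw [add_mul, one_mul]
    omega

theorem chain_step {S A L e D i : ℕ} {δ δ' t p M : ℝ} (ht : 0 < t)
    (hδ : 0 < δ) (hM : 0 < M) (he : 1 ≤ e) (hS : S ≤ e) (hD : 15 * e ≤ D)
    (hR : 3 * D + 20 * e ≤ R) (z : V) (F : Finset (V × List V))
    (hF : Fam hG H S δ A L z (fun s => ∀ x ∈ s, G.dist z x ≤ e) F)
    (hp : p ≤ bb hG o (e / 2) / bb hG o (D + 4 * e + e / 2))
    (hnum : δ' + δ + ((2 * A + 2 * S + (D + 4 * e) + L + 1 + A) * (L + 1 + S) + S * (L + 1) +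
      (D + 4 * e) * (2 * A + 2 * S + (D + 4 * e) + L + 1) + (D + 4 * e) * (L + 1)) *
      (1 / bb hG o S) + 1 / M ≤ p / 2)
    (hδ' : δ + M * (δ + S * (A + S + (D + 4 * e)) * (1 / bb hG o S)) ≤ δ')
    (pt : ℕ → V) (h1p : G.dist z (pt i) = i * D) (h2p : G.dist z (pt (i + 1)) = (i + 1) * D)
    (h3p : G.dist (pt i) (pt (i + 1)) ≤ D)
    {C : List V} (hC : St hG H S δ' A (2 * A + 2 * S + (D + 4 * e) + L + 1) D e z pt i C) :
    ∃ (g : G ≃g G) (T : Finset (V × List V)) (π : V × List V → List V), T ⊆ F ∧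
      (p / 2) * wt t F ≤ wt t T ∧
      ∀ q ∈ T, (π q).length ≤ 2 * A + 2 * S + (D + 4 * e) ∧ en (en z C) (π q) = g q.1 ∧
        q.2.length ≤ L ∧
        St hG H S δ' A (2 * A + 2 * S + (D + 4 * e) + L + 1) D e z pt (i + 1)
          (C ++ (π q ++ q.2.map g)) := by
  classical
  obtain ⟨b, O, Rl, hO, hsa, hb, hRl, hhit, hu, hOld, hAll⟩ := hC
  set u := en z (C ++ b) with hudef
  have hSR : S ≤ R := by omega
  have hbb := bb_pos hG (o := o) S
  set β : ℝ := 1 / bb hG o S with hβ
  have hβ0 : 0 < β := by positivity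
  set m : ℝ := δ + S * (A + S + (D + 4 * e)) * β with hm
  have hm0 : 0 < m := by positivity
  -- the centre
  obtain ⟨v, hv, hvp⟩ := exists_center hG o o (D + 4 * e) e
    (fun ω : OO hG H S => (XX hG H u ω).symm (pt (i + 1))) (by
      intro ω
      have h1 := dist_XX_symm hG H u (pt (i + 1)) ω
      have h2 := hG.tri u (pt i) (pt (i + 1))
      omega)
  set τ := tau hG o v with hτ
  have hτo : τ o = v := tau_apply hG o v
  set γ := geo hG o v with hγ
  have hγl : γ.length ≤ D + 4 * e := by rw [hγ, length_geo]; exact hv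
  have hγR : ∀ c ∈ γ, G.dist o c ≤ R := by
    intro c hc
    have := (geo_split hG hc).1
    omega
  have hRR : G.dist o (τ o) + S + (D + 6 * e) ≤ R := by
    rw [hτo]
    omega
  choose! a2 b2 e2 B2 Q2 using hF
  let s2 : V × List V → List V := fun q => a2 q ++ (q.2 ++ b2 q)
  let g : OO hG H S × OO hG H S → (G ≃g G) := fun ω => gg hG H τ u z ω
  let Bad : V × List V → OO hG H S × OO hG H S → Prop := fun q ω =>
    (∃ x ∈ por hG H u ω.1.1, x ∈ Rl) ∨
    (∃ x ∈ por hG H z ω.2.1, x ∈ en z (a2 q) :: (q.2 ++ b2 q)) ∨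
    (∃ x ∈ Rl ++ b, ∃ y ∈ (z :: s2 q) ++ por hG H z ω.2.1, x = g ω y) ∨
    (∃ x ∈ por hG H u ω.1.1, ∃ y ∈ z :: s2 q, x = g ω y) ∨
    (∃ x ∈ γ.map (XX hG H u ω.1), x ∈ Rl) ∨
    (∃ x ∈ γ.map (XX hG H u ω.1), ∃ y ∈ z :: s2 q, x = g ω y) ∨
    (M * m < hit hG H S (g ω (en z (s2 q))) b +
      hit hG H S (g ω (en z (s2 q))) (por hG H u ω.1.1 ++ γ.map (XX hG H u ω.1)) +
      hit hG H S (en z (s2 q)) (por hG H z ω.2.1))
  have hBad : ∀ q ∈ F, Pr (Bad q) ≤ p / 2 := by
    intro q hq
    have C2 := B2 q hq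
    have hP := Q2 q hq
    have len2 : (s2 q).length ≤ L := C2.ll
    have len2' : ((z :: s2 q).length : ℝ) ≤ L + 1 := by
      rw [List.length_cons]
      exact_mod_cast Nat.succ_le_succ len2
    have dz : ∀ y ∈ z :: s2 q, G.dist z y ≤ e := by
      intro y hy
      rcases List.mem_cons.1 hy with rfl | hy
      · simp
      · exact hP y hy
    have dY : ∀ (ω2 : OO hG H S), ∀ y ∈ por hG H z ω2.1, G.dist z y ≤ e := fun ω2 y hy =>
      (dist_por hG H z ω2.1 y (List.mem_cons_of_mem _ hy)).trans hS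
    have dX : ∀ (ω1 : OO hG H S), ∀ x ∈ γ.map (XX hG H u ω1), G.dist u x ≤ D + 6 * e := by
      intro ω1 x hx
      obtain ⟨c, hc, rfl⟩ := List.mem_map.1 hx
      have h1 := dist_XX_o hG H u ω1
      have h2 := hG.tri u (XX hG H u ω1 o) (XX hG H u ω1 c)
      rw [dist_iso hG.conn] at h2
      have h3 := (geo_split hG hc).1
      omega
    have dXp : ∀ (ω1 : OO hG H S), ∀ x ∈ por hG H u ω1.1, G.dist u x ≤ D + 6 * e := by
      intro ω1 x hx
      have h1 := dist_por hG H u ω1.1 x (List.mem_cons_of_mem _ hx)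
      omega
    have hRlr : (Rl.length : ℝ) ≤ 2 * A + 2 * S + (D + 4 * e) + L + 1 := by exact_mod_cast hRl
    have hbr : (b.length : ℝ) ≤ A := by exact_mod_cast hb
    have hγr : (γ.length : ℝ) ≤ D + 4 * e := by exact_mod_cast hγl
    have b1 : Pr (fun ω : OO hG H S × OO hG H S => ∃ x ∈ por hG H u ω.1.1, x ∈ Rl) ≤ δ' := by
      rw [Pr_fst (Ω' := OO hG H S) (fun ω1 : OO hG H S => ∃ x ∈ por hG H u ω1.1, x ∈ Rl),
        Pr_fst (Ω' := H.Θ) (fun ω1 : PO hG H S => ∃ x ∈ por hG H u ω1, x ∈ Rl)]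
      exact hhit
    have b2' : Pr (fun ω : OO hG H S × OO hG H S =>
        ∃ x ∈ por hG H z ω.2.1, x ∈ en z (a2 q) :: (q.2 ++ b2 q)) ≤ δ := by
      rw [Pr_snd (Ω := OO hG H S) (fun ω1 : OO hG H S =>
          ∃ x ∈ por hG H z ω1.1, x ∈ en z (a2 q) :: (q.2 ++ b2 q)),
        Pr_fst (Ω' := H.Θ) (fun ω1 : PO hG H S =>
          ∃ x ∈ por hG H z ω1, x ∈ en z (a2 q) :: (q.2 ++ b2 q))]
      exact C2.hs
    have b3 : Pr (fun ω : OO hG H S × OO hG H S =>
        ∃ x ∈ Rl ++ b, ∃ y ∈ (z :: s2 q) ++ por hG H z ω.2.1, x = g ω y) ≤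
        (2 * A + 2 * S + (D + 4 * e) + L + 1 + A) * ((L + 1 + S) * β) := by
      refine (strX hG H (ρ := D + 6 * e) (l := L + 1 + S) τ u z hRR (Rl ++ b)
        (fun ω2 => (z :: s2 q) ++ por hG H z ω2.1) (by
          intro ω2
          have := length_por hG H z ω2.1
          simp only [List.length_append, List.length_cons]
          omega) (by
          intro ω2 y hy
          rcases List.mem_append.1 hy with hy | hy
          · have := dz y hy
            omega
          · have := dY ω2 y hy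
            omega)).trans ?_
      push_cast [List.length_append]
      refine mul_le_mul_of_nonneg_right ?_ (by positivity)
      linarith
    have b4 : Pr (fun ω : OO hG H S × OO hG H S =>
        ∃ x ∈ por hG H u ω.1.1, ∃ y ∈ z :: s2 q, x = g ω y) ≤ S * ((L + 1) * β) := by
      refine (strY hG H (ρ := D + 6 * e) (k := S) τ u z hRR
        (fun ω1 => por hG H u ω1.1) (z :: s2 q) (fun ω1 => length_por hG H u ω1.1) dXp).trans ?_
      exact mul_le_mul_of_nonneg_left (mul_le_mul_of_nonneg_right len2' hβ0.le) (Nat.cast_nonneg _)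
    have b5 : Pr (fun ω : OO hG H S × OO hG H S => ∃ x ∈ γ.map (XX hG H u ω.1), x ∈ Rl) ≤
        (D + 4 * e) * ((2 * A + 2 * S + (D + 4 * e) + L + 1) * β) := by
      refine (pathX hG H (S := S) u γ Rl hγR).trans ?_
      refine mul_le_mul hγr (mul_le_mul_of_nonneg_right hRlr hβ0.le) (by positivity)
        (by positivity)
    have b6 : Pr (fun ω : OO hG H S × OO hG H S =>
        ∃ x ∈ γ.map (XX hG H u ω.1), ∃ y ∈ z :: s2 q, x = g ω y) ≤
        (D + 4 * e) * ((L + 1) * β) := by
      refine (strY hG H (ρ := D + 6 * e) (k := D + 4 * e) τ u z hRR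
        (fun ω1 => γ.map (XX hG H u ω1)) (z :: s2 q) (by
          intro ω1
          simpa using hγl) dX).trans ?_
      push_cast
      exact mul_le_mul_of_nonneg_left (mul_le_mul_of_nonneg_right len2' hβ0.le) (by positivity)
    have b7 : Pr (fun ω : OO hG H S × OO hG H S =>
        M * m < hit hG H S (g ω (en z (s2 q))) b +
          hit hG H S (g ω (en z (s2 q))) (por hG H u ω.1.1 ++ γ.map (XX hG H u ω.1)) +
          hit hG H S (en z (s2 q)) (por hG H z ω.2.1)) ≤ 1 / M := by
      refine Pr_markov (fun ω => add_nonneg (add_nonneg (hit_nonneg hG H _ _ _)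
        (hit_nonneg hG H _ _ _)) (hit_nonneg hG H _ _ _)) hm0 hM ?_
      rw [Ex_add, Ex_add]
      have i1 : Ex (fun ω : OO hG H S × OO hG H S =>
          hit hG H S (g ω (en z (s2 q))) b) ≤ A * (S * β) := by
        refine (farX hG H (ρ := D + 6 * e) τ u z (en z (s2 q)) hRR (by
          have := dz _ (en_mem_cons z (s2 q))
          omega) b).trans ?_
        exact mul_le_mul_of_nonneg_right hbr (by positivity)
      have i2 : Ex (fun ω : OO hG H S × OO hG H S =>
          hit hG H S (g ω (en z (s2 q))) (por hG H u ω.1.1 ++ γ.map (XX hG H u ω.1))) ≤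
            (S + (D + 4 * e)) * (S * β) := by
        refine (farY hG H (ρ := D + 6 * e) (k := S + (D + 4 * e)) τ u z (en z (s2 q)) hRR
          (fun ω1 => por hG H u ω1.1 ++ γ.map (XX hG H u ω1)) (by
            intro ω1
            have := length_por hG H u ω1.1
            simp only [List.length_append, List.length_map]
            omega) (by
            intro ω1 x hx
            rcases List.mem_append.1 hx with hx | hx
            · exact dXp ω1 x hx
            · exact dX ω1 x hx)).trans ?_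
        push_cast
        exact le_rfl
      have i3 : Ex (fun ω : OO hG H S × OO hG H S =>
          hit hG H S (en z (s2 q)) (por hG H z ω.2.1)) ≤ δ := by
        have h := Ex_snd (Ω := OO hG H S) (fun ω1 : OO hG H S =>
          hit hG H S (en z (s2 q)) (por hG H z ω1.1))
        rw [h]
        have h' := Ex_fst (Ω' := H.Θ) (fun ω1 : PO hG H S =>
          hit hG H S (en z (s2 q)) (por hG H z ω1))
        rw [h', ← QQ_eq]
        exact C2.qq
      rw [hm]
      nlinarith
    have tot : Pr (Bad q) ≤ δ' + (δ + ((2 * A + 2 * S + (D + 4 * e) + L + 1 + A) *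
        ((L + 1 + S) * β) + (S * ((L + 1) * β) + ((D + 4 * e) *
        ((2 * A + 2 * S + (D + 4 * e) + L + 1) * β) + ((D + 4 * e) * ((L + 1) * β) +
        1 / M))))) := by
      refine (Pr_or _ _).trans (add_le_add b1 ?_)
      refine (Pr_or _ _).trans (add_le_add b2' ?_)
      refine (Pr_or _ _).trans (add_le_add b3 ?_)
      refine (Pr_or _ _).trans (add_le_add b4 ?_)
      refine (Pr_or _ _).trans (add_le_add b5 ?_)
      exact (Pr_or _ _).trans (add_le_add b6 b7)
    refine tot.trans (le_trans (le_of_eq ?_) hnum)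
    ring
  -- choose the outcome
  let Conf : OO hG H S × OO hG H S → Prop := fun ω =>
    G.dist ((XX hG H u ω.1).symm (pt (i + 1))) v ≤ e
  have hConf : p ≤ Pr Conf := by
    have h1 : Pr Conf = Pr (fun ω : OO hG H S =>
        G.dist ((XX hG H u ω).symm (pt (i + 1))) v ≤ e) :=
      Pr_fst (Ω' := OO hG H S) (fun ω : OO hG H S =>
        G.dist ((XX hG H u ω).symm (pt (i + 1))) v ≤ e)
    rw [h1]
    exact hp.trans hvp
  let Suc : V × List V → OO hG H S × OO hG H S → Prop := fun q ω => Conf ω ∧ ¬ Bad q ω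
  have hSuc : ∀ q ∈ F, p / 2 ≤ Pr (Suc q) := by
    intro q hq
    have h4 := hBad q hq
    have h5 : Pr Conf ≤ Pr (Suc q) + Pr (Bad q) := by
      refine le_trans (Pr_mono fun ω hω => ?_) (Pr_or _ _)
      by_cases hb : Bad q ω
      · exact Or.inr hb
      · exact Or.inl ⟨hω, hb⟩
    linarith
  obtain ⟨ω, hω⟩ := exists_good F (fun q => t ^ q.2.length)
    (fun q _ => by positivity) Suc (p / 2) hSuc
  have key : ∀ q ∈ F.filter (fun q => Suc q ω), ∃ π : List V,
      π.length ≤ 2 * A + 2 * S + (D + 4 * e) ∧ en (en z C) π = g ω q.1 ∧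
        q.2.length ≤ L ∧
        St hG H S δ' A (2 * A + 2 * S + (D + 4 * e) + L + 1) D e z pt (i + 1)
          (C ++ (π ++ q.2.map (g ω))) := by
    intro q hq
    obtain ⟨hq0, hc, hb'⟩ := Finset.mem_filter.1 hq
    simp only [Bad, not_or] at hb'
    obtain ⟨E1, E2, E3, E4, E5, E6, E7⟩ := hb'
    push Not at E1 E2 E7
    obtain ⟨π, p1, p2, p3⟩ := chain_one hG H hSR hS he hD z pt h1p h2p hO hsa hb hu hOld hAll
      (B2 q hq0) (Q2 q hq0) v hv ω (g ω) rfl hc E1 E2 E3 E4 E5 E6 E7 hδ'
    have l2 := (B2 q hq0).ll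
    simp only [List.length_append] at l2
    exact ⟨π, p1, by rw [p2, e2 q hq0], by omega, p3⟩
  choose! π hπ using key
  exact ⟨g ω, F.filter (fun q => Suc q ω), π, Finset.filter_subset _ _, hω, hπ⟩

include hG in
lemma wt_le_tsum {t : ℝ} (ht : 0 < t) (z : V) (T : Finset (V × List V))
    (h : ∀ c ∈ T, c.1 = z ∧ sa G z c.2)
    (hs : Summable (fun k : ℕ => (cnt (sa G) o k : ℝ) * t ^ k)) :
    wt t T ≤ ∑' k : ℕ, (cnt (sa G) o k : ℝ) * t ^ k := by
  classical
  have h1 : wt t T = ∑ k ∈ T.image (fun c => c.2.length),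
      ∑ c ∈ T.filter (fun c => c.2.length = k), t ^ c.2.length := by
    rw [wt, Finset.sum_fiberwise_of_maps_to]
    exact fun c hc => Finset.mem_image_of_mem _ hc
  rw [h1]
  refine le_trans (Finset.sum_le_sum fun k _ => ?_)
    (hs.sum_le_tsum (T.image fun c => c.2.length) (fun k _ => by positivity))
  have h2 : ∑ c ∈ T.filter (fun c => c.2.length = k), t ^ c.2.length =
      ((T.filter (fun c => c.2.length = k)).card : ℝ) * t ^ k := by
    rw [← nsmul_eq_mul, ← Finset.sum_const]
    refine Finset.sum_congr rfl fun c hc => ?_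
    rw [(Finset.mem_filter.1 hc).2]
  rw [h2]
  refine mul_le_mul_of_nonneg_right ?_ (by positivity)
  have hc : cnt (sa G) o k = cnt (sa G) z k := by
    obtain ⟨φ, hφ⟩ := hG.tr o z
    rw [← hφ, cnt_map _ φ o (fun s => sa_map φ o s)]
  have hfin := fin_of_imp (P := sa G) hG.lf (fun _ _ h => h.1) k z
  rw [hc, cnt, Set.ncard_eq_toFinset_card _ hfin]
  have h3 : (T.filter (fun c => c.2.length = k)).card ≤ hfin.toFinset.card := by
    refine Finset.card_le_card_of_injOn (fun c => c.2) ?_ ?_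
    · intro c hc
      have hc' := Finset.mem_filter.1 hc
      simp only [Finset.mem_coe, Set.Finite.mem_toFinset, Set.mem_ofPred_eq]
      exact ⟨hc'.2, (h c hc'.1).2⟩
    · intro c hc c' hc' hcc
      have e1 := (h c (Finset.mem_filter.1 hc).1).1
      have e2 := (h c' (Finset.mem_filter.1 hc').1).1
      exact Prod.ext (e1.trans e2.symm) hcc
  exact_mod_cast h3

theorem chain [Infinite V] {S A L e D : ℕ} {δ δ' t p M : ℝ} (ht : 0 < t) (ht1 : t ≤ 1)
    (hδ : 0 < δ) (hM : 0 < M) (he : 1 ≤ e) (hS : S ≤ e) (hD : 15 * e ≤ D)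
    (hR : 3 * D + 20 * e ≤ R) (z : V) (F : Finset (V × List V)) (hne : F.Nonempty)
    (hF : Fam hG H S δ A L z (fun s => ∀ x ∈ s, G.dist z x ≤ e) F)
    (hp : p ≤ bb hG o (e / 2) / bb hG o (D + 4 * e + e / 2))
    (hnum : δ' + δ + ((2 * A + 2 * S + (D + 4 * e) + L + 1 + A) * (L + 1 + S) + S * (L + 1) +
      (D + 4 * e) * (2 * A + 2 * S + (D + 4 * e) + L + 1) + (D + 4 * e) * (L + 1)) *
      (1 / bb hG o S) + 1 / M ≤ p / 2)
    (hδ' : δ + M * (δ + S * (A + S + (D + 4 * e)) * (1 / bb hG o S)) ≤ δ')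
    (hγ : (2 * A + 2 * S + (D + 4 * e) + L + 2 : ℝ) ^ 2 <
      (p / 2) * wt t F * t ^ (2 * A + 2 * S + (D + 4 * e))) :
    ¬ Summable (fun k : ℕ => (cnt (sa G) o k : ℝ) * t ^ k) := by
  classical
  intro hsum
  have hbb := bb_pos hG (o := o) S
  have hδδ : δ ≤ δ' := by
    refine le_trans ?_ hδ'
    have : (0 : ℝ) ≤ M * (δ + S * (A + S + (D + 4 * e)) * (1 / bb hG o S)) := by positivity
    linarith
  set N : ℝ := (2 * A + 2 * S + (D + 4 * e) + L + 2 : ℝ) with hN
  set K : ℝ := (p / 2) * wt t F * t ^ (2 * A + 2 * S + (D + 4 * e)) with hK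
  have hN0 : 0 < N := by positivity
  have hN2 : 0 < N ^ 2 := by positivity
  have hK0 : 0 < K := hN2.trans hγ
  obtain ⟨q0, hq0⟩ := hne
  obtain ⟨a0, b0, ea0, B0, Q0⟩ := hF q0 hq0
  have main : ∀ n : ℕ, ∀ pt : ℕ → V, (∀ i, i ≤ n → G.dist z (pt i) = i * D) →
      (∀ i, i < n → G.dist (pt i) (pt (i + 1)) ≤ D) → ∀ i, i ≤ n →
      ∃ T : Finset (V × List V), (∀ c ∈ T, c.1 = z ∧
        St hG H S δ' A (2 * A + 2 * S + (D + 4 * e) + L + 1) D e z pt i c.2) ∧
        t ^ (a0 ++ q0.2).length * K ^ i ≤ (N ^ 2) ^ i * wt t T := by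
    intro n pt hpt1 hpt2 i
    induction i with
    | zero =>
      intro _
      refine ⟨{(z, a0 ++ q0.2)}, ?_, ?_⟩
      · intro c hc
        rw [Finset.mem_singleton] at hc
        subst hc
        have hs0 : a0 ++ (q0.2 ++ b0) = (a0 ++ q0.2) ++ b0 := by simp
        have hsa := B0.sa
        have hll := B0.ll
        have hhe := B0.he
        rw [hs0] at hsa hll hhe Q0
        have dz : ∀ y ∈ z :: ((a0 ++ q0.2) ++ b0), G.dist z y ≤ e := by
          intro y hy
          rcases List.mem_cons.1 hy with rfl | hy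
          · simp
          · exact Q0 y hy
        refine ⟨rfl, b0, [], z :: (a0 ++ q0.2), by simp, hsa, B0.lb, ?_, hhe.trans hδδ, ?_,
          by simp, ?_⟩
        · simp only [List.length_cons, List.length_append] at hll ⊢
          omega
        · have h0 := hpt1 0 (Nat.zero_le _)
          have h1 := dz _ (en_mem_cons z ((a0 ++ q0.2) ++ b0))
          have h2 := hG.tri (en z ((a0 ++ q0.2) ++ b0)) z (pt 0)
          rw [SimpleGraph.dist_comm (v := z)] at h2
          rw [zero_mul] at h0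
          show G.dist (en z ((a0 ++ q0.2) ++ b0)) (pt 0) ≤ 3 * e
          omega
        · intro x hx
          have := dz x hx
          omega
      · simp [wt]
    | succ i ih =>
      intro hi
      obtain ⟨T, hT1, hT2⟩ := ih (by omega)
      have h2p : G.dist z (pt (i + 1)) = (i + 1) * D := hpt1 (i + 1) hi
      have step : ∀ c ∈ T, ∃ (g : G ≃g G) (T' : Finset (V × List V)) (π : V × List V → List V),
          T' ⊆ F ∧ (p / 2) * wt t F ≤ wt t T' ∧
          ∀ q ∈ T', (π q).length ≤ 2 * A + 2 * S + (D + 4 * e) ∧ en (en z c.2) (π q) = g q.1 ∧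
            q.2.length ≤ L ∧
            St hG H S δ' A (2 * A + 2 * S + (D + 4 * e) + L + 1) D e z pt (i + 1)
              (c.2 ++ (π q ++ q.2.map g)) := fun c hc =>
        chain_step hG H ht hδ hM he hS hD hR z F hF hp hnum hδ' pt (hpt1 i (by omega)) h2p
          (hpt2 i (by omega)) (hT1 c hc).2
      have step' : ∀ c : V × List V, ∃ (g : G ≃g G) (T' : Finset (V × List V))
          (π : V × List V → List V), c ∈ T → T' ⊆ F ∧ (p / 2) * wt t F ≤ wt t T' ∧
          ∀ q ∈ T', (π q).length ≤ 2 * A + 2 * S + (D + 4 * e) ∧ en (en z c.2) (π q) = g q.1 ∧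
            q.2.length ≤ L ∧
            St hG H S δ' A (2 * A + 2 * S + (D + 4 * e) + L + 1) D e z pt (i + 1)
              (c.2 ++ (π q ++ q.2.map g)) := by
        intro c
        by_cases hc : c ∈ T
        · obtain ⟨g, T', π, h⟩ := step c hc
          exact ⟨g, T', π, fun _ => h⟩
        · exact ⟨RelIso.refl _, ∅, fun _ => [], fun h => absurd h hc⟩
      choose g T' π hstep using step'
      let U : Finset (Σ _ : V × List V, V × List V) := T.sigma T'
      let Φ : (Σ _ : V × List V, V × List V) → V × List V := fun x =>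
        (z, x.1.2 ++ (π x.1 x.2 ++ x.2.2.map (g x.1)))
      have hU : ∀ x ∈ U, x.1 ∈ T ∧ x.2 ∈ T' x.1 := fun x hx => by
        simpa [U, Finset.mem_sigma] using hx
      refine ⟨U.image Φ, ?_, ?_⟩
      · intro c hc
        obtain ⟨x, hx, rfl⟩ := Finset.mem_image.1 hc
        obtain ⟨hx1, hx2⟩ := hU x hx
        exact ⟨rfl, ((hstep x.1 hx1).2.2 x.2 hx2).2.2.2⟩
      · have hfib := sum_image_fiber t ht.le U Φ (U.image Φ)
          (fun x hx => Finset.mem_image_of_mem _ hx) (2 * A + 2 * S + (D + 4 * e) + L + 2)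
          (fun x => ((π x.1 x.2).length + x.2.2.length, x.2.2.length)) (by
            intro x hx
            obtain ⟨hx1, hx2⟩ := hU x hx
            obtain ⟨l1, -, l2, -⟩ := (hstep x.1 hx1).2.2 x.2 hx2
            simp only
            omega) (by
            rintro ⟨⟨y1, c1⟩, ⟨y2, c2⟩⟩ hx ⟨⟨y1', c1'⟩, ⟨y2', c2'⟩⟩ hx' hΦ hκ
            obtain ⟨hx1, hx2⟩ := hU _ hx
            obtain ⟨hx1', hx2'⟩ := hU _ hx'
            have f1 := ((hstep _ hx1).2.2 _ hx2).2.1
            have f2 := ((hstep _ hx1').2.2 _ hx2').2.1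
            have g1 : y1 = z := (hT1 _ hx1).1
            have g2 : y1' = z := (hT1 _ hx1').1
            simp only [Φ, Prod.mk.injEq, true_and] at hΦ
            simp only [Prod.mk.injEq] at hκ
            simp only at f1 f2
            rw [g1] at f1
            rw [g2] at f2
            rw [g1, g2] at hΦ hκ
            obtain ⟨hl1, hl2⟩ := hκ
            have hlen : c1.length = c1'.length := by
              have := congrArg List.length hΦ
              simp only [List.length_append, List.length_map] at this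
              omega
            obtain ⟨hc1, hrest⟩ := List.append_inj hΦ hlen
            subst hc1
            obtain ⟨hπ, hc2⟩ := List.append_inj' hrest (by simpa using hl2)
            have hc2' : c2 = c2' := (List.map_injective_iff.2 (g (z, c1)).injective) hc2
            subst hc2'
            rw [← hπ, f1] at f2
            have f3 : y2 = y2' := (g (z, c1)).injective f2
            rw [f3, g1, g2])
        have hlow : wt t T * K ≤ ∑ x ∈ U, t ^ (Φ x).2.length := by
          rw [Finset.sum_sigma, wt, Finset.sum_mul]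
          refine Finset.sum_le_sum fun c hc => ?_
          obtain ⟨-, s1, s2⟩ := hstep c hc
          have e1 : ∑ q ∈ T' c, t ^ (c.2.length) * (t ^ q.2.length *
              t ^ (2 * A + 2 * S + (D + 4 * e))) ≤ ∑ q ∈ T' c, t ^ (Φ ⟨c, q⟩).2.length := by
            refine Finset.sum_le_sum fun q hq => ?_
            rw [← pow_add, ← pow_add]
            refine pow_le_pow_of_le_one ht.le ht1 ?_
            simp only [Φ, List.length_append, List.length_map]
            have := (s2 q hq).1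
            omega
          refine le_trans ?_ e1
          rw [← Finset.mul_sum, ← Finset.sum_mul, hK]
          refine mul_le_mul_of_nonneg_left ?_ (by positivity)
          exact mul_le_mul_of_nonneg_right s1 (by positivity)
        have hfib' : ∑ x ∈ U, t ^ (Φ x).2.length ≤ N ^ 2 * wt t (U.image Φ) := by
          refine hfib.trans (le_of_eq ?_)
          rw [hN]
          push_cast
          ring
        calc t ^ (a0 ++ q0.2).length * K ^ (i + 1)
            = (t ^ (a0 ++ q0.2).length * K ^ i) * K := by ring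
          _ ≤ ((N ^ 2) ^ i * wt t T) * K := mul_le_mul_of_nonneg_right hT2 hK0.le
          _ = (N ^ 2) ^ i * (wt t T * K) := by ring
          _ ≤ (N ^ 2) ^ i * (N ^ 2 * wt t (U.image Φ)) :=
              mul_le_mul_of_nonneg_left (hlow.trans hfib') (by positivity)
          _ = (N ^ 2) ^ (i + 1) * wt t (U.image Φ) := by ring
  have w0 : 0 < t ^ (a0 ++ q0.2).length := by positivity
  set W : ℝ := ∑' k : ℕ, (cnt (sa G) o k : ℝ) * t ^ k with hW
  obtain ⟨n, hn⟩ := pow_unbounded_of_one_lt (W / t ^ (a0 ++ q0.2).length)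
    (show 1 < K / N ^ 2 by rwa [one_lt_div hN2])
  obtain ⟨pt, hpt1, hpt2⟩ := exists_pts hG z D n
  obtain ⟨T, hT1, hT2⟩ := main n pt hpt1 hpt2 n le_rfl
  have h1 : wt t T ≤ W := wt_le_tsum hG ht z T (fun c hc => ⟨(hT1 c hc).1, by
    obtain ⟨b, O, Rl, -, hsa, -⟩ := (hT1 c hc).2
    exact sa_append_left hsa⟩) hsum
  rw [div_pow, div_lt_div_iff₀ w0 (by positivity)] at hn
  have h2 : (N ^ 2) ^ n * wt t T ≤ (N ^ 2) ^ n * W :=
    mul_le_mul_of_nonneg_left h1 (by positivity)
  linarith

end Pool.H98.C
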