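import Pool.Agent.H98.C.Port

set_option autoImplicit false

/-! Collision probabilities for the random placement `gg`. -/

namespace Pool.H98.C

open Finset Pool.Agent.H61.SW

variable {V : Type} {G : SimpleGraph V} {o : V} {R : ℕ} (hG : TG G) (H : Homog G o R)

lemma XX_o {S : ℕ} (u : V) (ω : OO hG H S) : XX hG H u ω o = en u (por hG H u ω.1) :=
  H.T_o _ _

lemma gg_apply {S : ℕ} (τ : G ≃g G) (u w : V) (ω : OO hG H S × OO hG H S) (y : V) :
    gg hG H τ u w ω y = XX hG H u ω.1 (τ ((XX hG H w ω.2).symm y)) := rfl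

/-- the transplant at the end of a portion is spread -/
lemma XX_spr {S : ℕ} (u : V) {c : V} (hc : G.dist o c ≤ R) (x : V) :
    Pr (fun ω : OO hG H S => XX hG H u ω c = x) ≤ 1 / bb hG o S :=
  spr_trans H (by have := bb_pos hG (o := o) S; positivity)
    (fun ω : PO hG H S => en u (por hG H u ω)) (spr_por hG H u) hc x

lemma dist_XX_symm {S : ℕ} (u y : V) (ω : OO hG H S) :
    G.dist o ((XX hG H u ω).symm y) ≤ S + G.dist u y := by
  have h1 : G.dist o ((XX hG H u ω).symm y) = G.dist (XX hG H u ω o) y := by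
    have := dist_iso hG.conn (XX hG H u ω) o ((XX hG H u ω).symm y)
    rw [← this]
    congr 1
    exact (XX hG H u ω).apply_symm_apply y
  rw [h1, XX_o]
  have h2 := hG.tri (en u (por hG H u ω.1)) u y
  have h3 := dist_en_por hG H u ω.1
  rw [SimpleGraph.dist_comm] at h3
  omega

lemma pairX {S ρ : ℕ} (τ : G ≃g G) (u w : V) (hR : G.dist o (τ o) + S + ρ ≤ R)
    (ω2 : OO hG H S) (x y : V) (hy : G.dist w y ≤ ρ) :
    Pr (fun ω1 : OO hG H S => x = gg hG H τ u w (ω1, ω2) y) ≤ 1 / bb hG o S := by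
  have h1 : G.dist o (τ ((XX hG H w ω2).symm y)) ≤ R := by
    have h2 := hG.tri o (τ o) (τ ((XX hG H w ω2).symm y))
    rw [dist_iso hG.conn] at h2
    have h3 := dist_XX_symm hG H w y ω2
    omega
  refine le_trans (le_of_eq (Pr_congr fun ω1 => ?_)) (XX_spr hG H u h1 x)
  rw [gg_apply]
  exact eq_comm

lemma pairY {S ρ : ℕ} (τ : G ≃g G) (u w : V) (hR : G.dist o (τ o) + S + ρ ≤ R)
    (ω1 : OO hG H S) (x y : V) (hx : G.dist u x ≤ ρ) :
    Pr (fun ω2 : OO hG H S => x = gg hG H τ u w (ω1, ω2) y) ≤ 1 / bb hG o S := by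
  set c := τ.symm ((XX hG H u ω1).symm x) with hc
  have h1 : G.dist o c ≤ R := by
    have h0 : G.dist o c = G.dist (τ o) ((XX hG H u ω1).symm x) := by
      rw [← dist_iso hG.conn τ, hc, τ.apply_symm_apply]
    have h2 := hG.tri (τ o) o ((XX hG H u ω1).symm x)
    rw [SimpleGraph.dist_comm] at h2
    have h4 : G.dist (τ o) o = G.dist o (τ o) := SimpleGraph.dist_comm
    have h3 := dist_XX_symm hG H u x ω1
    rw [h0, SimpleGraph.dist_comm]
    omega
  refine le_trans (le_of_eq (Pr_congr fun ω2 => ?_)) (XX_spr hG H w h1 y)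
  rw [gg_apply]
  constructor
  · intro h
    rw [hc, h]
    simp
  · intro h
    rw [← h, hc]
    simp

section
variable {Ω3 : Type} [Fintype Ω3]

lemma collX {S ρ : ℕ} (τ : G ≃g G) (u w : V) (hR : G.dist o (τ o) + S + ρ ≤ R)
    (A B : Ω3 → OO hG H S → List V) (k l : ℕ)
    (hA : ∀ ω3 ω2, (A ω3 ω2).length ≤ k) (hB : ∀ ω3 ω2, (B ω3 ω2).length ≤ l)
    (hd : ∀ ω3 ω2, ∀ y ∈ B ω3 ω2, G.dist w y ≤ ρ) :
    Pr (fun p : Ω3 × (OO hG H S × OO hG H S) => ∃ x ∈ A p.1 p.2.2, ∃ y ∈ B p.1 p.2.2,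
      x = gg hG H τ u w p.2 y) ≤ k * (l * (1 / bb hG o S)) := by
  have hβ : 0 ≤ 1 / bb hG o S := by have := bb_pos hG (o := o) S; positivity
  rw [Pr_prod]
  refine Ex_le_of_le (by positivity) fun ω3 => ?_
  rw [Pr_prod']
  refine Ex_le_of_le (by positivity) fun ω2 => ?_
  refine (Pr_exists_list_le (A ω3 ω2) (fun x (ω1 : OO hG H S) => ∃ y ∈ B ω3 ω2,
    x = gg hG H τ u w (ω1, ω2) y) (l * (1 / bb hG o S)) fun x hx => ?_).trans ?_
  · refine (Pr_exists_list_le (B ω3 ω2) (fun y (ω1 : OO hG H S) =>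
      x = gg hG H τ u w (ω1, ω2) y) (1 / bb hG o S) fun y hy => ?_).trans ?_
    · exact pairX hG H τ u w hR ω2 x y (hd _ _ y hy)
    · exact mul_le_mul_of_nonneg_right (by exact_mod_cast hB ω3 ω2) hβ
  · exact mul_le_mul_of_nonneg_right (by exact_mod_cast hA ω3 ω2) (by positivity)

lemma collY {S ρ : ℕ} (τ : G ≃g G) (u w : V) (hR : G.dist o (τ o) + S + ρ ≤ R)
    (A B : Ω3 → OO hG H S → List V) (k l : ℕ)
    (hA : ∀ ω3 ω1, (A ω3 ω1).length ≤ k) (hB : ∀ ω3 ω1, (B ω3 ω1).length ≤ l)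
    (hd : ∀ ω3 ω1, ∀ x ∈ A ω3 ω1, G.dist u x ≤ ρ) :
    Pr (fun p : Ω3 × (OO hG H S × OO hG H S) => ∃ x ∈ A p.1 p.2.1, ∃ y ∈ B p.1 p.2.1,
      x = gg hG H τ u w p.2 y) ≤ k * (l * (1 / bb hG o S)) := by
  have hβ : 0 ≤ 1 / bb hG o S := by have := bb_pos hG (o := o) S; positivity
  rw [Pr_prod]
  refine Ex_le_of_le (by positivity) fun ω3 => ?_
  rw [Pr_prod]
  refine Ex_le_of_le (by positivity) fun ω1 => ?_
  refine (Pr_exists_list_le (A ω3 ω1) (fun x (ω2 : OO hG H S) => ∃ y ∈ B ω3 ω1,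
    x = gg hG H τ u w (ω1, ω2) y) (l * (1 / bb hG o S)) fun x hx => ?_).trans ?_
  · refine (Pr_exists_list_le (B ω3 ω1) (fun y (ω2 : OO hG H S) =>
      x = gg hG H τ u w (ω1, ω2) y) (1 / bb hG o S) fun y hy => ?_).trans ?_
    · exact pairY hG H τ u w hR ω1 x y (hd _ _ x hx)
    · exact mul_le_mul_of_nonneg_right (by exact_mod_cast hB ω3 ω1) hβ
  · exact mul_le_mul_of_nonneg_right (by exact_mod_cast hA ω3 ω1) (by positivity)

end

/-- structural collision, first piece fixed -/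
lemma strX {S ρ l : ℕ} (τ : G ≃g G) (u w : V) (hR : G.dist o (τ o) + S + ρ ≤ R)
    (K : List V) (B : OO hG H S → List V) (hB : ∀ ω2, (B ω2).length ≤ l)
    (hd : ∀ ω2, ∀ y ∈ B ω2, G.dist w y ≤ ρ) :
    Pr (fun p : OO hG H S × OO hG H S => ∃ x ∈ K, ∃ y ∈ B p.2, x = gg hG H τ u w p y) ≤
      K.length * (l * (1 / bb hG o S)) := by
  have h := collX hG H (Ω3 := Unit) τ u w hR (fun _ _ => K) (fun _ ω2 => B ω2) K.length l
    (fun _ _ => le_rfl) (fun _ ω2 => hB ω2) (fun _ ω2 => hd ω2)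
  rw [Pr_prod] at h
  exact (Ex_const (Ω := Unit) _).symm.le.trans h

/-- structural collision, second piece fixed -/
lemma strY {S ρ k : ℕ} (τ : G ≃g G) (u w : V) (hR : G.dist o (τ o) + S + ρ ≤ R)
    (A : OO hG H S → List V) (K : List V) (hA : ∀ ω1, (A ω1).length ≤ k)
    (hd : ∀ ω1, ∀ x ∈ A ω1, G.dist u x ≤ ρ) :
    Pr (fun p : OO hG H S × OO hG H S => ∃ x ∈ A p.1, ∃ y ∈ K, x = gg hG H τ u w p y) ≤
      k * (K.length * (1 / bb hG o S)) := by
  have h := collY hG H (Ω3 := Unit) τ u w hR (fun _ ω1 => A ω1) (fun _ _ => K) k K.length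
    (fun _ ω1 => hA ω1) (fun _ _ => le_rfl) (fun _ ω1 => hd ω1)
  rw [Pr_prod] at h
  exact (Ex_const (Ω := Unit) _).symm.le.trans h

/-- exposure of `z` to the placed second piece -/
lemma expX {S ρ l : ℕ} (τ : G ≃g G) (u w z : V) (hR : G.dist o (τ o) + S + ρ ≤ R)
    (B : OO hG H S → List V) (hB : ∀ ω2, (B ω2).length ≤ l)
    (hd : ∀ ω2, ∀ y ∈ B ω2, G.dist w y ≤ ρ) :
    Ex (fun p : OO hG H S × OO hG H S => hit hG H S z ((B p.2).map (gg hG H τ u w p))) ≤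
      S * (l * (1 / bb hG o S)) := by
  have h := collX hG H (Ω3 := PO hG H S) τ u w hR (fun ω3 _ => por hG H z ω3)
    (fun _ ω2 => B ω2) S l
    (fun ω3 _ => length_por hG H z ω3) (fun _ ω2 => hB ω2) (fun _ ω2 => hd ω2)
  rw [Pr_prod'] at h
  refine le_trans (le_of_eq ?_) h
  congr 1
  ext p
  refine Pr_congr fun ω3 => ?_
  constructor
  · rintro ⟨v, h1, h2⟩
    obtain ⟨y, h3, rfl⟩ := List.mem_map.1 h2
    exact ⟨_, h1, y, h3, rfl⟩
  · rintro ⟨v, h1, y, h3, rfl⟩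
    exact ⟨_, h1, List.mem_map_of_mem h3⟩

/-- exposure of the placed vertex `g z'` to a fixed list -/
lemma farX {S ρ : ℕ} (τ : G ≃g G) (u w z' : V) (hR : G.dist o (τ o) + S + ρ ≤ R)
    (hz : G.dist w z' + S ≤ ρ) (K : List V) :
    Ex (fun p : OO hG H S × OO hG H S => hit hG H S (gg hG H τ u w p z') K) ≤
      K.length * (S * (1 / bb hG o S)) := by
  have hSR : S ≤ R := by omega
  have h := collX hG H (Ω3 := PO hG H S) τ u w hR (fun _ _ => K)
    (fun ω3 _ => por hG H z' ω3) K.length S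
    (fun _ _ => le_rfl) (fun ω3 _ => length_por hG H z' ω3) (fun ω3 _ y hy => by
      have h1 := hG.tri w z' y
      have h2 := dist_por hG H z' ω3 y (List.mem_cons_of_mem _ hy)
      omega)
  rw [Pr_prod'] at h
  refine le_trans (le_of_eq ?_) h
  congr 1
  ext p
  rw [hit_iso' hG H hSR]
  refine Pr_congr fun ω3 => ?_
  constructor
  · rintro ⟨v, h1, h2⟩
    exact ⟨_, h2, v, h1, rfl⟩
  · rintro ⟨x, h1, v, h3, h4⟩
    exact ⟨v, h3, h4 ▸ h1⟩

/-- exposure of the placed vertex `g z'` to lists depending on the first outcome -/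
lemma farY {S ρ k : ℕ} (τ : G ≃g G) (u w z' : V) (hR : G.dist o (τ o) + S + ρ ≤ R)
    (A : OO hG H S → List V) (hA : ∀ ω1, (A ω1).length ≤ k)
    (hd : ∀ ω1, ∀ x ∈ A ω1, G.dist u x ≤ ρ) :
    Ex (fun p : OO hG H S × OO hG H S => hit hG H S (gg hG H τ u w p z') (A p.1)) ≤
      k * (S * (1 / bb hG o S)) := by
  have hSR : S ≤ R := by omega
  have h := collY hG H (Ω3 := PO hG H S) τ u w hR (fun _ ω1 => A ω1)
    (fun ω3 _ => por hG H z' ω3) k S
    (fun _ ω1 => hA ω1) (fun ω3 _ => length_por hG H z' ω3) (fun _ ω1 => hd ω1)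
  rw [Pr_prod'] at h
  refine le_trans (le_of_eq ?_) h
  congr 1
  ext p
  rw [hit_iso' hG H hSR]
  refine Pr_congr fun ω3 => ?_
  constructor
  · rintro ⟨v, h1, h2⟩
    exact ⟨_, h2, v, h1, rfl⟩
  · rintro ⟨x, h1, v, h3, h4⟩
    exact ⟨v, h3, h4 ▸ h1⟩

/-- meeting of portions from `z` and from the placed vertex `g z'` -/
lemma QQX {S ρ : ℕ} (τ : G ≃g G) (u w z z' : V) (hR : G.dist o (τ o) + S + ρ ≤ R)
    (hz : G.dist w z' + S ≤ ρ) :
    Ex (fun p : OO hG H S × OO hG H S => QQ hG H S z (gg hG H τ u w p z')) ≤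
      S * (S * (1 / bb hG o S)) := by
  have hSR : S ≤ R := by omega
  have h := collX hG H (Ω3 := PO hG H S × PO hG H S) τ u w hR
    (fun ω3 _ => por hG H z ω3.1) (fun ω3 _ => por hG H z' ω3.2) S S
    (fun ω3 _ => length_por hG H z ω3.1) (fun ω3 _ => length_por hG H z' ω3.2)
    (fun ω3 _ y hy => by
      have h1 := hG.tri w z' y
      have h2 := dist_por hG H z' ω3.2 y (List.mem_cons_of_mem _ hy)
      omega)
  rw [Pr_prod'] at h
  refine le_trans (le_of_eq ?_) h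
  congr 1
  ext p
  rw [QQ_iso' hG H hSR]

/-- the connecting path meets a fixed list -/
lemma pathX {S : ℕ} (u : V) (π K : List V) (hπ : ∀ c ∈ π, G.dist o c ≤ R) :
    Pr (fun p : OO hG H S × OO hG H S => ∃ v ∈ π.map (XX hG H u p.1), v ∈ K) ≤
      π.length * (K.length * (1 / bb hG o S)) := by
  have hβ : 0 ≤ 1 / bb hG o S := by have := bb_pos hG (o := o) S; positivity
  rw [Pr_prod']
  refine Ex_le_of_le (by positivity) fun ω2 => ?_
  exact Pr_two_lists π K (fun c (ω1 : OO hG H S) => XX hG H u ω1 c) _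
    fun c hc k _ => XX_spr hG H u (hπ c hc) k

end Pool.H98.C
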