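import Pool.Agent.H98.C.ExpoDefs

set_option autoImplicit false

/-! Counting walks through decompositions into cores. -/

namespace Pool.H98.C

open Finset Pool.Agent.H61.SW Classical

variable {V : Type} {G : SimpleGraph V}

/-- weight of a finite set of step lists -/
noncomputable def lw (t : ℝ) (S : Finset (List V)) : ℝ := ∑ s ∈ S, t ^ s.length

lemma lw_mono {t : ℝ} (ht : 0 ≤ t) {S S' : Finset (List V)} (h : S ⊆ S') : lw t S ≤ lw t S' :=
  Finset.sum_le_sum_of_subset_of_nonneg h fun _ _ _ => pow_nonneg ht _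

lemma lw_biUnion {ι : Type*} {t : ℝ} (ht : 0 ≤ t) (I : Finset ι) (S : ι → Finset (List V)) :
    lw t (I.biUnion S) ≤ ∑ i ∈ I, lw t (S i) := by
  classical
  induction I using Finset.induction_on with
  | empty => simp [lw]
  | insert a I ha ih =>
    rw [Finset.biUnion_insert, Finset.sum_insert ha]
    have h1 : lw t (S a ∪ I.biUnion S) ≤ lw t (S a) + lw t (I.biUnion S) := by
      unfold lw
      rw [← Finset.sum_union_inter]
      have : 0 ≤ ∑ s ∈ S a ∩ I.biUnion S, t ^ s.length :=
        Finset.sum_nonneg fun _ _ => pow_nonneg ht _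
      linarith
    linarith

lemma lw_image_append (t : ℝ) (c : List V) (S : Finset (List V)) :
    lw t (S.image fun s => c ++ s) = t ^ c.length * lw t S := by
  unfold lw
  rw [Finset.sum_image (fun x _ y _ h => List.append_cancel_left h), Finset.mul_sum]
  refine Finset.sum_congr rfl fun s _ => ?_
  rw [List.length_append, pow_add]

lemma lw_union_append {t : ℝ} (ht : 0 ≤ t) (F : Finset (List V)) (S : List V → Finset (List V))
    (W : ℝ) (hW : ∀ c ∈ F, lw t (S c) ≤ W) :
    lw t (F.biUnion fun c => (S c).image fun s => c ++ s) ≤ lw t F * W := by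
  refine (lw_biUnion ht F _).trans ?_
  rw [lw, Finset.sum_mul]
  refine Finset.sum_le_sum fun c hc => ?_
  rw [lw_image_append]
  exact mul_le_mul_of_nonneg_left (hW c hc) (pow_nonneg ht _)

lemma fin_le (hG : TG G) (P : V → List V → Prop) (v : V) (K : ℕ) :
    {s : List V | s.length ≤ K ∧ ch G v s ∧ P v s}.Finite := by
  refine (Set.Finite.biUnion (Finset.finite_toSet (Finset.range (K + 1)))
    fun n _ => fin_ch hG.lf n v).subset ?_
  rintro s ⟨h1, h2, -⟩
  simp only [Finset.coe_range, Set.mem_iUnion]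
  exact ⟨s.length, by simpa [Nat.lt_succ_iff] using h1, rfl, h2⟩

/-- step lists of length at most `K` from `v` with property `P` -/
noncomputable def fm (hG : TG G) (P : V → List V → Prop) (v : V) (K : ℕ) : Finset (List V) :=
  (fin_le hG P v K).toFinset

lemma mem_fm (hG : TG G) (P : V → List V → Prop) (v : V) (K : ℕ) (s : List V) :
    s ∈ fm hG P v K ↔ s.length ≤ K ∧ ch G v s ∧ P v s := by
  simp [fm]

lemma lw_fm (hG : TG G) (t : ℝ) (P : V → List V → Prop) (hP : ∀ v s, P v s → ch G v s)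
    (v : V) (K : ℕ) : lw t (fm hG P v K) = ∑ k ∈ Finset.range (K + 1), (cnt P v k : ℝ) * t ^ k := by
  classical
  unfold lw
  have h1 : ∀ s ∈ fm hG P v K, s.length ∈ Finset.range (K + 1) := by
    intro s hs
    rw [mem_fm] at hs
    rw [Finset.mem_range]; omega
  rw [← Finset.sum_fiberwise_of_maps_to h1]
  refine Finset.sum_congr rfl fun k hk => ?_
  have h2 : ∀ s ∈ (fm hG P v K).filter (fun s => s.length = k), t ^ s.length = t ^ k := by
    intro s hs
    rw [(Finset.mem_filter.1 hs).2]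
  rw [Finset.sum_congr rfl h2, Finset.sum_const, nsmul_eq_mul]
  congr 2
  rw [cnt, ← Set.ncard_coe_finset]
  congr 1
  ext s
  simp only [Finset.coe_filter, mem_fm, Set.mem_ofPred_eq]
  rw [Finset.mem_range] at hk
  constructor
  · rintro ⟨⟨-, -, h⟩, h'⟩; exact ⟨h', h⟩
  · rintro ⟨h, h'⟩; exact ⟨⟨by omega, hP _ _ h', h'⟩, h⟩

lemma CP_ch {P : V → List V → Prop} (hP : ∀ v s, P v s → ch G v s) (n : ℕ) (v : V) (s : List V)
    (h : CP P n v s) : ch G v s := by
  induction n generalizing v s with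
  | zero =>
    have : s = [] := h
    rw [this]; trivial
  | succ n ih =>
    obtain ⟨c, t, rfl, h1, h2⟩ := h
    rw [ch_append]
    exact ⟨hP _ _ h1, ih _ _ h2⟩

lemma lw_CP (hG : TG G) {t : ℝ} (ht : 0 < t) (P : V → List V → Prop) (L : ℕ)
    (hP : ∀ v c, P v c → ch G v c ∧ c.length ≤ L) (W : ℝ) (hW : 1 ≤ W)
    (hPW : ∀ v, lw t (fm hG P v L) ≤ W) (n K : ℕ) (v : V) :
    lw t (fm hG (CP P n) v K) ≤ W ^ n := by
  induction n generalizing v K with
  | zero =>
    have h1 : fm hG (CP P 0) v K ⊆ {[]} := by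
      intro s hs
      rw [mem_fm] at hs
      have : s = [] := hs.2.2
      rw [this]; simp
    refine (lw_mono ht.le h1).trans ?_
    simp [lw]
  | succ n ih =>
    have h1 : fm hG (CP P (n + 1)) v K ⊆ (fm hG P v L).biUnion
        fun c => (fm hG (CP P n) (en v c) K).image fun s => c ++ s := by
      intro s hs
      rw [mem_fm] at hs
      obtain ⟨h2, h3, c, u, rfl, h4, h5⟩ := hs
      rw [Finset.mem_biUnion]
      refine ⟨c, (mem_fm hG P v L c).2 ⟨(hP _ _ h4).2, (hP _ _ h4).1, h4⟩, ?_⟩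
      rw [Finset.mem_image]
      refine ⟨u, (mem_fm hG _ _ K u).2 ⟨?_, ((ch_append v c u).1 h3).2, h5⟩, rfl⟩
      rw [List.length_append] at h2
      omega
    refine (lw_mono ht.le h1).trans ?_
    refine (lw_union_append ht.le _ _ (W ^ n) fun c _ => ih K (en v c)).trans ?_
    rw [pow_succ, mul_comm]
    exact mul_le_mul_of_nonneg_left (hPW v) (by positivity)

/-- weight generating bound for concatenations of cores -/
theorem count_peel (hG : TG G) (o : V) (t : ℝ) (ht : 0 < t) (P : V → List V → Prop) (L : ℕ)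
    (hP : ∀ v c, P v c → sa G v c ∧ c.length ≤ L) (W : ℝ) (hW : 1 ≤ W)
    (hPW : ∀ v, ∑ k ∈ Finset.range (L + 1), (cnt P v k : ℝ) * t ^ k ≤ W)
    (m mlow N : ℕ)
    (hdec : ∀ s, sa G o s → s.length = m → ∃ n ≤ N, ∃ p mid q : List V, s = p ++ (mid ++ q) ∧
      p.length + q.length ≤ mlow ∧ CP P n (en o p) mid) :
    (cnt (sa G) o m : ℝ) * t ^ m ≤
      (N + 1) * (∑ k ∈ Finset.range (mlow + 1), (cnt (sa G) o k : ℝ) * t ^ k) ^ 2 * W ^ N := by
  classical
  have hPc : ∀ v c, P v c → ch G v c := fun v c h => (hP v c h).1.1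
  have hPW' : ∀ v, lw t (fm hG P v L) ≤ W := fun v => by
    rw [lw_fm hG t P hPc]; exact hPW v
  set A := ∑ k ∈ Finset.range (mlow + 1), (cnt (sa G) o k : ℝ) * t ^ k with hA
  have hA' : ∀ v, lw t (fm hG (sa G) v mlow) = A := by
    intro v
    rw [lw_fm hG t (sa G) (fun _ _ h => h.1), hA]
    refine Finset.sum_congr rfl fun k _ => ?_
    obtain ⟨φ, hφ⟩ := hG.tr o v
    rw [← hφ, cnt_map (sa G) φ o (fun s => sa_map φ o s)]
  have hA0 : 0 ≤ A := by rw [hA]; positivity
  -- the set of walks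
  have hfin : {s : List V | s.length = m ∧ sa G o s}.Finite :=
    fin_of_imp hG.lf (fun _ _ h => h.1) m o
  have hlhs : (cnt (sa G) o m : ℝ) * t ^ m = lw t hfin.toFinset := by
    unfold lw
    have h2 : ∀ s ∈ hfin.toFinset, t ^ s.length = t ^ m := by
      intro s hs
      rw [Set.Finite.mem_toFinset] at hs
      rw [hs.1]
    rw [Finset.sum_congr rfl h2, Finset.sum_const, nsmul_eq_mul, cnt,
      Set.ncard_eq_toFinset_card _ hfin]
  have hsub : hfin.toFinset ⊆ (Finset.range (N + 1)).biUnion fun n =>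
      (fm hG (sa G) o mlow).biUnion fun p => (((fm hG (CP P n) (en o p) m).biUnion fun mid =>
        (fm hG (sa G) (en (en o p) mid) mlow).image fun q => mid ++ q)).image
          fun u => p ++ u := by
    intro s hs
    rw [Set.Finite.mem_toFinset] at hs
    obtain ⟨h1, h2⟩ := hs
    obtain ⟨n, hn, p, mid, q, rfl, h3, h4⟩ := hdec s h2 h1
    rw [Finset.mem_biUnion]
    refine ⟨n, by rw [Finset.mem_range]; omega, ?_⟩
    rw [Finset.mem_biUnion]
    have h5 := sa_append_left h2
    have h6 := sa_append_right h2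
    refine ⟨p, (mem_fm hG _ _ _ _).2 ⟨by omega, h5.1, h5⟩, ?_⟩
    rw [Finset.mem_image]
    refine ⟨mid ++ q, ?_, rfl⟩
    rw [Finset.mem_biUnion]
    simp only [List.length_append] at h1
    refine ⟨mid, (mem_fm hG _ _ _ _).2 ⟨by omega, (sa_append_left h6).1, h4⟩, ?_⟩
    rw [Finset.mem_image]
    exact ⟨q, (mem_fm hG _ _ _ _).2 ⟨by omega, (sa_append_right h6).1, sa_append_right h6⟩, rfl⟩
  rw [hlhs]
  refine (lw_mono ht.le hsub).trans ?_
  refine (lw_biUnion ht.le _ _).trans ?_
  have hn : ∀ n ∈ Finset.range (N + 1), lw t ((fm hG (sa G) o mlow).biUnion fun p =>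
      (((fm hG (CP P n) (en o p) m).biUnion fun mid =>
        (fm hG (sa G) (en (en o p) mid) mlow).image fun q => mid ++ q)).image
          fun u => p ++ u) ≤ A ^ 2 * W ^ N := by
    intro n hn
    rw [Finset.mem_range] at hn
    refine (lw_union_append ht.le _ _ (W ^ n * A) fun p _ => ?_).trans ?_
    · refine (lw_union_append ht.le _ _ A fun mid _ => (hA' _).le).trans ?_
      exact mul_le_mul_of_nonneg_right (lw_CP hG ht P L (fun v c h => ⟨(hP v c h).1.1,
        (hP v c h).2⟩) W hW hPW' n m _) hA0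
    · rw [hA']
      have h7 : W ^ n ≤ W ^ N := pow_le_pow_right₀ hW (by omega)
      calc A * (W ^ n * A) = A ^ 2 * W ^ n := by ring
        _ ≤ A ^ 2 * W ^ N := mul_le_mul_of_nonneg_left h7 (sq_nonneg _)
  refine (Finset.sum_le_sum hn).trans (le_of_eq ?_)
  rw [Finset.sum_const, Finset.card_range, nsmul_eq_mul]
  push_cast
  ring

end Pool.H98.C
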