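import Pool.Agent.H98.C.Basic

set_option autoImplicit false

/-! Random transplants, portions (random geodesics), hitting probabilities, blocks, families. -/

namespace Pool.H98.C

open Finset Pool.Agent.H61.SW

/-- A finite family of automorphisms `T x θ` with `T x θ o = x`; for uniform `θ` it behaves, on the
ball of radius `R`, like a uniformly random automorphism taking `o` to `x`. -/
structure Homog {V : Type} (G : SimpleGraph V) (o : V) (R : ℕ) where
  Θ : Type
  fin : Fintype Θ
  ne : Nonempty Θ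
  T : V → Θ → (G ≃g G)
  T_o : ∀ x θ, T x θ o = x
  sp : ∀ c y : V, G.dist o c ≤ R → ∀ X : Finset V, ∑ x ∈ X, Pr (fun θ => T x θ c = y) ≤ 1
  eq : ∀ (g : G ≃g G) (x : V), ∃ σ : Θ → Θ, Function.Bijective σ ∧
    ∀ θ c, G.dist o c ≤ R → g (T x θ c) = T (g x) (σ θ) c

attribute [instance] Homog.fin Homog.ne

variable {V : Type} {G : SimpleGraph V} {o : V} {R : ℕ} (hG : TG G) (H : Homog G o R)

/-- outcomes of a portion of radius `S` -/
abbrev PO (S : ℕ) : Type := H.Θ × ↥(bl hG o S)

instance (S : ℕ) : Nonempty ↥(bl hG o S) := ⟨⟨o, self_mem_bl hG o S⟩⟩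

/-- portion from `x`: transplanted geodesic -/
noncomputable def por {S : ℕ} (x : V) (ω : PO hG H S) : List V :=
  (geo hG o ω.2).map (H.T x ω.1)

/-- size of balls -/
noncomputable def bb (o : V) (S : ℕ) : ℝ := (bl hG o S).card

/-- probability that the portion of radius `S` from `x` (without `x`) meets `K` -/
noncomputable def hit (S : ℕ) (x : V) (K : List V) : ℝ :=
  Pr fun ω : PO hG H S => ∃ v ∈ por hG H x ω, v ∈ K

/-- probability that independent portions from `x` and `y` meet -/
noncomputable def QQ (S : ℕ) (x y : V) : ℝ :=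
  Pr fun ω : PO hG H S × PO hG H S => ∃ v ∈ por hG H x ω.1, v ∈ por hG H y ω.2

/-- a block: self-avoiding walk from `z` with start arm `a`, core `c`, end arm `b`; both ends are
exposed at scale `S` -/
structure Blk (S : ℕ) (δ : ℝ) (A L : ℕ) (z : V) (a c b : List V) : Prop where
  sa : sa G z (a ++ (c ++ b))
  hs : hit hG H S z (en z a :: (c ++ b)) ≤ δ
  he : hit hG H S (en z (a ++ (c ++ b))) (z :: (a ++ c)) ≤ δ
  qq : QQ hG H S z (en z (a ++ (c ++ b))) ≤ δ
  la : a.length ≤ A
  lb : b.length ≤ A
  ll : (a ++ (c ++ b)).length ≤ L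

/-- family of cores `(y, c)` of blocks with root `z` whose full lists satisfy `P` -/
def Fam (S : ℕ) (δ : ℝ) (A L : ℕ) (z : V) (P : List V → Prop) (F : Finset (V × List V)) : Prop :=
  ∀ p ∈ F, ∃ a b, en z a = p.1 ∧ Blk hG H S δ A L z a p.2 b ∧ P (a ++ (p.2 ++ b))

/-- weight of a family -/
noncomputable def wt (t : ℝ) (F : Finset (V × List V)) : ℝ := ∑ p ∈ F, t ^ p.2.length

/-- outcomes for one side of a connection -/
abbrev OO (S : ℕ) : Type := PO hG H S × H.Θ

/-- the automorphism attached to the end of the portion from `u` -/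
noncomputable def XX {S : ℕ} (u : V) (ω : OO hG H S) : G ≃g G :=
  H.T (en u (por hG H u ω.1)) ω.2

/-- placement `g = X τ Y⁻¹` of the second piece (attached at `w`) behind the first (exit at `u`) -/
noncomputable def gg {S : ℕ} (τ : G ≃g G) (u w : V) (ω : OO hG H S × OO hG H S) : G ≃g G :=
  (XX hG H w ω.2).symm.trans (τ.trans (XX hG H u ω.1))

end Pool.H98.C
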