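import Pool.Agent.H98.C.Port
import Pool.Agent.H98.C.ExpoDefs

set_option autoImplicit false

/-! Module EXPO: exposed vertices of a finite set. -/

namespace Pool.H98.C

open Finset Pool.Agent.H61.SW

section EXPO
variable {V : Type} {G : SimpleGraph V} {o : V} {R : ℕ} (hG : TG G) (H : Homog G o R)

/-- the last vertex of the walk in `M` -/
lemma exists_last (M : Finset V) (x : V) (L : List V) (hx : x ∈ M) :
    ∃ p α : List V, L = p ++ α ∧ en x p ∈ M ∧ ∀ v ∈ α, v ∉ M := by
  induction L using List.reverseRecOn with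
  | nil => exact ⟨[], [], rfl, hx, by simp⟩
  | append_singleton L a ih =>
    by_cases ha : a ∈ M
    · exact ⟨L ++ [a], [], by simp, by rw [en_append]; exact ha, by simp⟩
    · obtain ⟨p, α, h1, h2, h3⟩ := ih
      refine ⟨p, α ++ [a], by rw [h1, List.append_assoc], h2, ?_⟩
      intro v hv
      rcases List.mem_append.1 hv with hv | hv
      · exact h3 v hv
      · rw [List.mem_singleton] at hv; subst hv; exact ha

lemma sum_Pr_fiber {Ω : Type} [Fintype Ω] (f : Ω → V) (q : Ω → Prop) (X : Finset V) :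
    ∑ y ∈ X, Pr (fun ω => f ω = y ∧ q ω) = Pr (fun ω => f ω ∈ X ∧ q ω) := by
  classical
  unfold Pr
  rw [← Ex_sum]
  congr 1
  ext ω
  by_cases hq : q ω
  · by_cases hX : f ω ∈ X
    · rw [Finset.sum_eq_single (f ω)]
      · simp [hq, hX]
      · intro b _ hb
        rw [if_neg]
        rintro ⟨h, -⟩
        exact hb h.symm
      · intro h; exact absurd hX h
    · rw [if_neg (fun h => hX h.1)]
      refine Finset.sum_eq_zero fun y hy => ?_
      rw [if_neg]
      rintro ⟨h, -⟩
      exact hX (h ▸ hy)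
  · rw [if_neg (fun h => hq h.2)]
    refine Finset.sum_eq_zero fun y _ => ?_
    rw [if_neg (fun h => hq h.2)]

/-- split of the portion from `x` at its last vertex in `M` -/
noncomputable def lastP {S : ℕ} (M : Finset V) (x : V) (ω : PO hG H S) : List V :=
  open Classical in
  if hx : x ∈ M then (exists_last M x (por hG H x ω) hx).choose else []

lemma lastP_spec {S : ℕ} {M : Finset V} {x : V} (hx : x ∈ M) (ω : PO hG H S) :
    ∃ α : List V, por hG H x ω = lastP hG H M x ω ++ α ∧ en x (lastP hG H M x ω) ∈ M ∧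
      ∀ v ∈ α, v ∉ M := by
  unfold lastP
  rw [dif_pos hx]
  exact (exists_last M x (por hG H x ω) hx).choose_spec

lemma sum_meet_le {r : ℕ} (hr : r ≤ R) (X : Finset V) (K : List V) :
    ∑ x ∈ X, Pr (fun ω : PO hG H r => ∃ v ∈ K, v ∈ por hG H x ω) ≤ K.length * r := by
  have h2 : ∀ x ∈ X, Pr (fun ω : PO hG H r => ∃ v ∈ K, v ∈ por hG H x ω) ≤
      (K.map fun v => Pr fun ω : PO hG H r => v ∈ por hG H x ω).sum := fun x _ =>
    Pr_exists_list _ _
  refine (Finset.sum_le_sum h2).trans ?_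
  clear h2
  induction K with
  | nil => simp
  | cons v l ih =>
    simp only [List.map_cons, List.sum_cons, List.length_cons]
    rw [Finset.sum_add_distrib]
    have := sum_por_le hG H hr X v
    push_cast
    linarith

theorem expo (S r : ℕ) (hS : S ≤ R) (hr : r ≤ R) (δ : ℝ) (hδ : 0 < δ) (M : Finset V)
    (hM : 4 * (M.card : ℝ) * S ≤ δ * bb hG o r) :
    ∃ E ⊆ M, (M.card : ℝ) ≤ 2 * (r + 1) * E.card ∧
      ∀ (y1 : V) (α1 : List V), α1.length ≤ r → ∃ B ⊆ E,
        (B.card : ℝ) ≤ 4 * (r * (r + 1) + (r * S + S * (r + 1) + S * S) / δ) ∧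
        ∀ y ∈ E, y ∉ B → ∃ α, Expd hG H S r δ M y α ∧ Cpt hG H S δ y1 α1 y α := by
  classical
  -- last vertex and good event
  set f : V → PO hG H r → V := fun x ω => en x (lastP hG H M x ω) with hf
  set q : V → PO hG H r → Prop := fun x ω =>
    hit hG H S (en x (por hG H x ω)) M.toList ≤ δ with hq
  set mu : V → ℝ := fun y => ∑ x ∈ M, Pr (fun ω : PO hG H r => f x ω = y ∧ q x ω) with hmu
  have hfM : ∀ x ∈ M, ∀ ω, f x ω ∈ M := by
    intro x hx ω
    obtain ⟨α, -, h, -⟩ := lastP_spec hG H hx ω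
    exact h
  have hbpos := bb_pos (o := o) hG r
  -- total mass
  have hq1 : ∀ x ∈ M, (3 / 4 : ℝ) ≤ Pr (fun ω : PO hG H r => q x ω) := by
    intro x hx
    have h1 : Pr (fun ω : PO hG H r => ¬ q x ω) = 1 - Pr (fun ω : PO hG H r => q x ω) := Pr_not _
    have h2 : Pr (fun ω : PO hG H r => ¬ q x ω) ≤ 1 / 4 := by
      have h3 : Pr (fun ω : PO hG H r => ¬ q x ω) ≤
          Ex (fun ω : PO hG H r => hit hG H S (en x (por hG H x ω)) M.toList) / δ := by
        refine le_trans (Pr_mono fun ω h => ?_) (Pr_gt_le (fun ω => hit_nonneg hG H S _ _) hδ)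
        exact not_le.1 h
      have h4 : Ex (fun ω : PO hG H r => hit hG H S (en x (por hG H x ω)) M.toList) ≤
          S * M.toList.length * (1 / bb hG o r) :=
        hit_spread hG H (by positivity) (fun ω : PO hG H r => en x (por hG H x ω))
          (fun y => spr_por hG H x y) hS M.toList
      rw [Finset.length_toList] at h4
      refine h3.trans ?_
      rw [div_le_iff₀ hδ]
      refine h4.trans ?_
      rw [mul_one_div, div_le_iff₀ hbpos]
      linarith
    linarith
  have hsum1 : (3 / 4 : ℝ) * M.card ≤ ∑ y ∈ M, mu y := by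
    rw [hmu, Finset.sum_comm]
    have h1 : ∀ x ∈ M, (3 / 4 : ℝ) ≤ ∑ y ∈ M, Pr (fun ω : PO hG H r => f x ω = y ∧ q x ω) := by
      intro x hx
      rw [sum_Pr_fiber]
      refine (hq1 x hx).trans (Pr_mono fun ω h => ⟨hfM x hx ω, h⟩)
    have := Finset.card_nsmul_le_sum M _ _ h1
    rw [nsmul_eq_mul] at this
    linarith
  have hmu_le : ∀ y, mu y ≤ r + 1 := by
    intro y
    rw [hmu]
    refine le_trans (Finset.sum_le_sum fun x hx => Pr_mono fun ω h => ?_)
      (sum_por_cons_le hG H hr M y)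
    obtain ⟨α, h1, -, -⟩ := lastP_spec hG H hx ω
    have h2 : f x ω ∈ x :: por hG H x ω := by
      rw [h1]
      have h3 := en_mem_cons x (lastP hG H M x ω)
      rw [← List.cons_append]
      exact List.mem_append_left _ h3
    rw [h.1] at h2
    exact h2
  have hmu_nn : ∀ y, 0 ≤ mu y := fun y => Finset.sum_nonneg fun x _ => Pr_nonneg _
  refine ⟨M.filter fun y => 1 / 4 ≤ mu y, Finset.filter_subset _ _, ?_, ?_⟩
  · have h1 : ∑ y ∈ M, mu y = ∑ y ∈ M.filter (fun y => 1 / 4 ≤ mu y), mu y +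
        ∑ y ∈ M.filter (fun y => ¬ 1 / 4 ≤ mu y), mu y :=
      (Finset.sum_filter_add_sum_filter_not M _ _).symm
    have h2 : ∑ y ∈ M.filter (fun y => 1 / 4 ≤ mu y), mu y ≤
        (M.filter (fun y => 1 / 4 ≤ mu y)).card * ((r : ℝ) + 1) := by
      have := Finset.sum_le_card_nsmul (M.filter (fun y => 1 / 4 ≤ mu y)) mu ((r : ℝ) + 1)
        (fun y _ => hmu_le y)
      rwa [nsmul_eq_mul] at this
    have h3 : ∑ y ∈ M.filter (fun y => ¬ 1 / 4 ≤ mu y), mu y ≤ M.card * (1 / 4 : ℝ) := by
      have h4 := Finset.sum_le_card_nsmul (M.filter (fun y => ¬ 1 / 4 ≤ mu y)) mu (1 / 4 : ℝ)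
        (fun y hy => (not_le.1 (Finset.mem_filter.1 hy).2).le)
      rw [nsmul_eq_mul] at h4
      refine h4.trans (mul_le_mul_of_nonneg_right ?_ (by norm_num))
      exact_mod_cast Finset.card_le_card (Finset.filter_subset _ _)
    linarith
  · intro y1 α1 hα1
    set z1 := en y1 α1 with hz1
    set E := M.filter fun y => 1 / 4 ≤ mu y with hE
    set B := E.filter fun y => ¬ ∃ α, Expd hG H S r δ M y α ∧ Cpt hG H S δ y1 α1 y α with hB
    refine ⟨B, Finset.filter_subset _ _, ?_, ?_⟩
    swap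
    · intro y hy hyB
      by_contra hcon
      exact hyB (Finset.mem_filter.2 ⟨hy, hcon⟩)
    -- bad events
    set b1 : V → PO hG H r → Prop := fun x ω => ∃ v ∈ α1, v ∈ por hG H x ω with hb1
    set b2 : V → PO hG H r → Prop := fun x ω =>
      δ < hit hG H S (en x (por hG H x ω)) α1 with hb2
    set b3 : V → PO hG H r → Prop := fun x ω => δ < hit hG H S z1 (por hG H x ω) with hb3
    set b4 : V → PO hG H r → Prop := fun x ω =>
      δ < QQ hG H S z1 (en x (por hG H x ω)) with hb4
    have hbad : ∀ x ∈ M, ∀ ω, f x ω ∈ B → q x ω → (b1 x ω ∨ b2 x ω) ∨ (b3 x ω ∨ b4 x ω) := by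
      intro x hx ω hyB hqx
      obtain ⟨α, h1, h2, h3⟩ := lastP_spec hG H hx ω
      by_contra hcon
      push Not at hcon
      obtain ⟨⟨g1, g2⟩, g3, g4⟩ := hcon
      refine (Finset.mem_filter.1 hyB).2 ⟨α, ?_, ?_⟩
      · have hee : en (f x ω) α = en x (por hG H x ω) := by
          rw [h1, en_append]
        refine ⟨?_, ?_, ?_, h3, ?_⟩
        · have := ch_por hG H x ω
          rw [h1, ch_append] at this
          exact this.2
        · have := nodup_por hG H x ω
          rw [h1] at this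
          exact nodup_en_cons this
        · have h5 := length_por hG H x ω
          rw [h1, List.length_append] at h5
          omega
        · rw [hee]; exact hqx
      · have hee : en (f x ω) α = en x (por hG H x ω) := by
          rw [h1, en_append]
        refine ⟨?_, ?_, ?_, ?_⟩
        · intro v hv hv1
          exact g1 ⟨v, hv1, by rw [h1]; exact List.mem_append_right _ hv⟩
        · rw [hee]; exact not_lt.1 g2
        · refine le_trans (hit_mono hG H fun v hv => ?_) (not_lt.1 g3)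
          rw [h1]; exact List.mem_append_right _ hv
        · rw [hee]; exact not_lt.1 g4
    have hBcard : (B.card : ℝ) * (1 / 4) ≤ ∑ y ∈ B, mu y := by
      have := Finset.card_nsmul_le_sum B mu (1 / 4 : ℝ) (fun y hy =>
        (Finset.mem_filter.1 (Finset.mem_filter.1 hy).1).2)
      rwa [nsmul_eq_mul] at this
    have hBsum : ∑ y ∈ B, mu y ≤ ∑ x ∈ M, ((Pr (b1 x) + Pr (b2 x)) + (Pr (b3 x) + Pr (b4 x))) := by
      rw [hmu, Finset.sum_comm]
      refine Finset.sum_le_sum fun x hx => ?_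
      rw [sum_Pr_fiber]
      refine (Pr_mono (q := fun ω => (b1 x ω ∨ b2 x ω) ∨ (b3 x ω ∨ b4 x ω))
        fun ω h => hbad x hx ω h.1 h.2).trans ?_
      refine (Pr_or _ _).trans (add_le_add (Pr_or _ _) (Pr_or _ _))
    have s1 : ∑ x ∈ M, Pr (b1 x) ≤ r * r := by
      refine (sum_meet_le hG H hr M α1).trans ?_
      refine mul_le_mul_of_nonneg_right ?_ (Nat.cast_nonneg _)
      exact_mod_cast hα1
    have s2 : ∑ x ∈ M, Pr (b2 x) ≤ S * r / δ := by
      have h1 : ∀ x ∈ M, Pr (b2 x) ≤
          Ex (fun ω : PO hG H r => hit hG H S (en x (por hG H x ω)) α1) / δ := fun x _ =>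
        Pr_gt_le (fun ω => hit_nonneg hG H S _ _) hδ
      refine (Finset.sum_le_sum h1).trans ?_
      rw [← Finset.sum_div]
      refine div_le_div_of_nonneg_right ?_ hδ.le
      refine (sum_hit_end_le hG H hr hS M α1).trans ?_
      refine mul_le_mul_of_nonneg_left ?_ (Nat.cast_nonneg _)
      exact_mod_cast hα1
    have s3 : ∑ x ∈ M, Pr (b3 x) ≤ S * r / δ := by
      have h1 : ∀ x ∈ M, Pr (b3 x) ≤
          Ex (fun ω : PO hG H r => hit hG H S z1 (por hG H x ω)) / δ := fun x _ =>
        Pr_gt_le (fun ω => hit_nonneg hG H S _ _) hδ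
      refine (Finset.sum_le_sum h1).trans ?_
      rw [← Finset.sum_div]
      exact div_le_div_of_nonneg_right (sum_hit_por_le hG H hr M z1) hδ.le
    have s4 : ∑ x ∈ M, Pr (b4 x) ≤ S * S / δ := by
      have h1 : ∀ x ∈ M, Pr (b4 x) ≤
          Ex (fun ω : PO hG H r => QQ hG H S z1 (en x (por hG H x ω))) / δ := fun x _ =>
        Pr_gt_le (fun ω => QQ_nonneg hG H S _ _) hδ
      refine (Finset.sum_le_sum h1).trans ?_
      rw [← Finset.sum_div]
      exact div_le_div_of_nonneg_right (sum_QQ_end_le hG H hr hS M z1) hδ.le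
    rw [Finset.sum_add_distrib, Finset.sum_add_distrib, Finset.sum_add_distrib] at hBsum
    have e1 : ((r : ℝ) * S + S * (r + 1) + S * S) / δ =
        S * r / δ + S * r / δ + S * S / δ + S / δ := by ring
    have e2 : (0 : ℝ) ≤ S / δ := by positivity
    have e3 : (0 : ℝ) ≤ r := Nat.cast_nonneg _
    rw [e1]
    nlinarith

end EXPO

end Pool.H98.C
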