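import Pool.Agent.H98.C.Inf
import Pool.Agent.H98.C.AP

set_option autoImplicit false

/-! Common far end, iterated antiparallel doubling. -/

namespace Pool.H98.C

open Finset Pool.Agent.H61.SW

variable {V : Type} {G : SimpleGraph V} {o : V} {R : ℕ} (hG : TG G) (H : Homog G o R)

lemma wt_nonneg {t : ℝ} (ht : 0 ≤ t) (F : Finset (V × List V)) : 0 ≤ wt t F :=
  Finset.sum_nonneg fun _ _ => pow_nonneg ht _

/-- a subfamily with a common far end -/
theorem pigeon {S A L : ℕ} {δ t : ℝ} {z : V} {P : List V → Prop}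
    {F : Finset (V × List V)} (hF : Fam hG H S δ A L z P F) :
    ∃ (z' : V) (F' : Finset (V × List V)), G.dist z z' ≤ L ∧
      Fam hG H S δ A L z (fun s => P s ∧ en z s = z' ∧ ∀ x ∈ s, G.dist z x ≤ L) F' ∧
      wt t F ≤ bb hG o L * wt t F' := by
  classical
  choose! a b e B Q using hF
  let fe : V × List V → V := fun q => en z (a q ++ (q.2 ++ b q))
  have hfe : ∀ q ∈ F, fe q ∈ bl hG z L := by
    intro q hq
    rw [mem_bl]
    exact (dist_en_le z _ (B q hq).sa.1).trans (B q hq).ll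
  obtain ⟨z', hz', hmax⟩ := Finset.exists_max_image (bl hG z L)
    (fun y => wt t (F.filter fun q => fe q = y)) (bl_nonempty hG z L)
  refine ⟨z', F.filter fun q => fe q = z', (mem_bl hG _ _ _).1 hz', ?_, ?_⟩
  · intro q hq
    obtain ⟨hq1, hq2⟩ := Finset.mem_filter.1 hq
    refine ⟨a q, b q, e q hq1, B q hq1, Q q hq1, hq2, fun x hx => ?_⟩
    exact (dist_mem_ch (B q hq1).sa.1 (List.mem_cons_of_mem _ hx)).trans (B q hq1).ll
  · have h1 : wt t F = ∑ y ∈ bl hG z L, wt t (F.filter fun q => fe q = y) := by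
      unfold wt
      rw [Finset.sum_fiberwise_of_maps_to hfe]
    rw [h1]
    refine (Finset.sum_le_sum fun y hy => hmax y hy).trans (le_of_eq ?_)
    rw [Finset.sum_const, nsmul_eq_mul, card_bl hG z o]
    rfl

/-- iterated antiparallel doubling -/
theorem ap_iter {u v A k : ℕ} {t lam p M δf x0 C : ℝ}
    (hlam : 0 < lam) (ht : t = Real.exp (-lam)) (hv1 : 1 ≤ v) (hvu : v ≤ u) (hA : A ≤ v)
    (hp0 : 0 < p) (hp : p ≤ bb hG o u / bb hG o (6 * u)) (hM : M = 12 / p)
    (hδ : 0 < δf) (hδ2 : 3 * ((1 + 2 * M) ^ k * δf) ≤ p / 4)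
    (hq : 2 * ((2 : ℝ) ^ k * (6 * u)) ^ 2 * (1 / bb hG o v) ≤ δf)
    (hC : - Real.log (p / 2) + 4 * v * lam + 2 * Real.log (2 * (2 ^ k * (6 * u))) ≤ C)
    (hR : 3 * v + 2 ^ k * (6 * u) ≤ R) (z : V)
    (hbase : ∃ (z' : V) (F : Finset (V × List V)) (L : ℕ), L + 2 * v ≤ 6 * u ∧
      G.dist z z' ≤ 4 * u ∧
      Fam hG H v δf A L z (fun s => en z s = z' ∧ ∀ x ∈ s, G.dist z x ≤ 5 * u) F ∧
      Real.exp x0 ≤ wt t F) (i : ℕ) (hi : i ≤ k) :
    ∃ (z' : V) (F : Finset (V × List V)) (L : ℕ), L + 2 * v ≤ 2 ^ i * (6 * u) ∧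
      G.dist z z' ≤ 4 * u ∧
      Fam hG H v ((1 + 2 * M) ^ i * δf) A L z
        (fun s => en z s = z' ∧ ∀ x ∈ s, G.dist z x ≤ 5 * u + 4 * u * i) F ∧
      Real.exp (2 ^ i * (x0 - C) + C) ≤ wt t F := by
  have ht0 : 0 < t := by rw [ht]; exact Real.exp_pos _
  have ht1 : t ≤ 1 := by rw [ht]; exact Real.exp_le_one_iff.2 (by linarith)
  have hM0 : 0 < M := by rw [hM]; positivity
  have hbbv := bb_pos hG (o := o) v
  set β := 1 / bb hG o v with hβ
  have hβ0 : 0 < β := by positivity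
  have hv1r : (1 : ℝ) ≤ v := by exact_mod_cast hv1
  have hM1 : (1 : ℝ) ≤ 1 + 2 * M := by linarith
  have hpow : ∀ i, i ≤ k → (1 + 2 * M) ^ i * δf ≤ (1 + 2 * M) ^ k * δf := fun i h =>
    mul_le_mul_of_nonneg_right (pow_le_pow_right₀ hM1 h) hδ.le
  induction i with
  | zero =>
    obtain ⟨z', F, L, h1, h2, h3, h4⟩ := hbase
    refine ⟨z', F, L, by simpa using h1, h2, ?_, ?_⟩
    · simpa using h3
    · simpa using h4
  | succ i ih =>
    obtain ⟨z', F, L, h1, h2, h3, h4⟩ := ih (by omega)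
    have h2i : 2 ^ i ≤ 2 ^ k := Nat.pow_le_pow_right (by norm_num) (by omega)
    have h1' : L + 2 * v ≤ 2 ^ k * (6 * u) := h1.trans (Nat.mul_le_mul_right _ h2i)
    have h1r : (L : ℝ) + 2 * v ≤ 2 ^ k * (6 * u) := by exact_mod_cast h1'
    set Y : ℝ := 2 ^ k * (6 * u) with hY
    have hL0 : (0 : ℝ) ≤ L := Nat.cast_nonneg L
    have hY0 : 0 < Y := by linarith
    have hδi : δf ≤ (1 + 2 * M) ^ i * δf := by
      have : (1 : ℝ) ≤ (1 + 2 * M) ^ i := one_le_pow₀ hM1
      exact le_mul_of_one_le_left hδ.le this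
    have q1 : (((L : ℝ) + 1) * (L + 1 + v) + v * (L + 1)) * β ≤ δf := by
      refine le_trans (mul_le_mul_of_nonneg_right ?_ hβ0.le) hq
      have a1 : (L : ℝ) + 1 ≤ Y := by linarith
      have a2 : (L : ℝ) + 1 + v ≤ Y := by linarith
      have a3 : (v : ℝ) ≤ Y := by linarith
      have a4 : ((L : ℝ) + 1) * (L + 1 + v) ≤ Y * Y := mul_le_mul a1 a2 (by positivity) hY0.le
      have a5 : (v : ℝ) * (L + 1) ≤ Y * Y := mul_le_mul a3 a1 (by positivity) hY0.le
      linarith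
    have q2 : (v : ℝ) * (L + 1 + v) * β ≤ δf := by
      refine le_trans (mul_le_mul_of_nonneg_right ?_ hβ0.le) hq
      have a2 : (L : ℝ) + 1 + v ≤ Y := by linarith
      have a3 : (v : ℝ) ≤ Y := by linarith
      have a4 : (v : ℝ) * (L + 1 + v) ≤ Y * Y := mul_le_mul a3 a2 (by positivity) hY0.le
      nlinarith
    have hMp : 3 / M = p / 4 := by
      rw [hM]; field_simp; norm_num
    have hpp : p ≤ bb hG o (4 * u / 2 / 2) / bb hG o (4 * u + v + 4 * u / 2 / 2) := by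
      have e1 : 4 * u / 2 / 2 = u := by omega
      rw [e1]
      refine hp.trans (div_le_div_of_nonneg_left (bb_pos hG u).le (bb_pos hG _) ?_)
      exact bb_mono hG (by omega)
    obtain ⟨z'', F', g1, g2, g3⟩ := ap_step (ρ := 4 * u) (E := 4 * u) (p := p) (M := M)
      (D := 5 * u + 4 * u * i) (δ' := (1 + 2 * M) ^ (i + 1) * δf) hG H ht0 ht1 (by positivity) hM0
      (by omega) z z' F h3 h2 (by have : 0 ≤ 4 * u * i := Nat.zero_le _; omega) hpp
      (by
        have := hpow i (by omega)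
        rw [hMp]
        linarith) (by
        have e1 : (1 + 2 * M) ^ (i + 1) * δf = (1 + 2 * M) ^ i * δf +
            M * ((1 + 2 * M) ^ i * δf + (1 + 2 * M) ^ i * δf) := by ring
        rw [e1]
        have : M * ((1 + 2 * M) ^ i * δf + (v : ℝ) * (L + 1 + v) * β) ≤
            M * ((1 + 2 * M) ^ i * δf + (1 + 2 * M) ^ i * δf) :=
          mul_le_mul_of_nonneg_left (by linarith) hM0.le
        linarith)
    refine ⟨z'', F', 2 * L + 2 * v, ?_, g1, ?_, ?_⟩
    · have e3 : 2 ^ (i + 1) * (6 * u) = 2 * (2 ^ i * (6 * u)) := by ring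
      omega
    · refine g2.mono hG H le_rfl le_rfl le_rfl fun s hs => ⟨hs.1, fun x hx => ?_⟩
      have := hs.2 x hx
      have e1 : 4 * u * (i + 1) = 4 * u * i + 4 * u := by ring
      omega
    · have hm := merge_log hp0 (l := 2 * (L : ℝ) + 2 * v + 1) (by positivity) ht h4 h4 g3
      refine le_trans (Real.exp_le_exp.2 ?_) hm
      have l1 : Real.log (2 * (L : ℝ) + 2 * v + 1) ≤ Real.log (2 * Y) :=
        Real.log_le_log (by positivity) (by linarith)
      have hAr : (A : ℝ) ≤ v := by exact_mod_cast hA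
      have l2 : ((2 * A + 2 * v : ℕ) : ℝ) * lam ≤ 4 * v * lam := by
        push_cast
        exact mul_le_mul_of_nonneg_right (by linarith) hlam.le
      have e2 : (2 : ℝ) ^ (i + 1) = 2 * 2 ^ i := by ring
      rw [e2]
      linarith

end Pool.H98.C
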