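import Pool.Agent.H98.C.Levels

set_option autoImplicit false

/-! The case of graphs with large balls at all scales. -/

namespace Pool.H98.C

open Finset Pool.Agent.H61.SW

variable {V : Type} {G : SimpleGraph V} {o : V} {R : ℕ} (hG : TG G) (H : Homog G o R)

include hG in
lemma cnt_eq (v : V) (n : ℕ) : cnt (sa G) v n = cnt (sa G) o n := by
  obtain ⟨φ, hφ⟩ := hG.tr o v
  rw [← hφ]
  exact cnt_map (sa G) φ o (fun s => sa_map φ o s) n

/-- the weight of a family is at most the number of possible starting points times the generating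
function of self-avoiding walks -/
lemma wt_le {S A L : ℕ} {δ t : ℝ} (ht : 0 ≤ t) {z : V} {P : List V → Prop}
    {F : Finset (V × List V)} (hF : Fam hG H S δ A L z P F) :
    wt t F ≤ bb hG o A * ∑ k ∈ Finset.range (L + 1), (cnt (sa G) o k : ℝ) * t ^ k := by
  classical
  have h1 : F ⊆ (bl hG z A).biUnion fun y => (fm hG (sa G) y L).image fun c => (y, c) := by
    intro q hq
    obtain ⟨a, b, h1, B, -⟩ := hF q hq
    have hsa : sa G q.1 q.2 := by
      rw [← h1]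
      exact sa_append_left (sa_append_right B.sa)
    rw [Finset.mem_biUnion]
    refine ⟨q.1, ?_, Finset.mem_image.2 ⟨q.2, ?_, rfl⟩⟩
    · rw [mem_bl, ← h1]
      exact (dist_en_le z a ((ch_append _ _ _).1 B.sa.1).1).trans B.la
    · rw [mem_fm]
      have := B.ll
      simp only [List.length_append] at this
      exact ⟨by omega, hsa.1, hsa⟩
  have h2 : ∑ q ∈ (bl hG z A).biUnion (fun y => (fm hG (sa G) y L).image fun c => (y, c)),
      t ^ q.2.length = ∑ y ∈ bl hG z A, lw t (fm hG (sa G) y L) := by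
    rw [Finset.sum_biUnion]
    · refine Finset.sum_congr rfl fun y _ => ?_
      rw [Finset.sum_image]
      · rfl
      · intro c _ c' _ h
        exact (Prod.mk.inj h).2
    · intro y _ y' _ hne
      rw [Function.onFun, Finset.disjoint_left]
      rintro q hq hq'
      obtain ⟨c, -, rfl⟩ := Finset.mem_image.1 hq
      obtain ⟨c', -, h⟩ := Finset.mem_image.1 hq'
      exact hne (Prod.mk.inj h).1.symm
  have h3 : wt t F ≤ ∑ q ∈ (bl hG z A).biUnion
      (fun y => (fm hG (sa G) y L).image fun c => (y, c)), t ^ q.2.length :=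
    Finset.sum_le_sum_of_subset_of_nonneg h1 fun _ _ _ => pow_nonneg ht _
  rw [h2] at h3
  refine h3.trans (le_of_eq ?_)
  have h4 : ∀ y ∈ bl hG z A, lw t (fm hG (sa G) y L) =
      ∑ k ∈ Finset.range (L + 1), (cnt (sa G) o k : ℝ) * t ^ k := by
    intro y _
    rw [lw_fm hG t (sa G) (fun _ _ h => h.1)]
    refine Finset.sum_congr rfl fun k _ => ?_
    rw [cnt_eq hG (o := o) y k]
  rw [Finset.sum_congr rfl h4, Finset.sum_const, nsmul_eq_mul, card_bl hG z o]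
  rfl

theorem case_inf {N : ℕ} {c t lam Δ : ℝ} (hc : 0 < c) (hlam : 0 < lam)
    (ht : t = Real.exp (-lam)) (hN : 40000 ≤ N) (hcN : 1000 ≤ c * N) (hΔ : 1 ≤ Δ)
    (hcnt : ∀ k, (cnt (sa G) o k : ℝ) ≤ Δ ^ k)
    (hH : ∀ R, Nonempty (Homog G o R))
    (hbase : ∀ (R : ℕ) (H : Homog G o R), 8 * (4 ^ 1 * N ^ 25) ≤ R →
      ∃ (z : V) (F : Finset (V × List V)) (L : ℕ),
      L + 4 * (2 ^ 1 * N ^ 13) ≤ 4 ^ 1 * N ^ 25 ∧
      Fam hG H (2 ^ 1 * N ^ 13) (1 / N) (2 ^ 1 * N ^ 13) L z (fun _ => True) F ∧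
      Real.exp (4 * (N : ℝ) ^ 15 + (12 * lam + 1) * N ^ 13) ≤ wt t F)
    (hgr : ∀ r : ℕ, 1 ≤ r → c * (r : ℝ) ^ 5 ≤ bb hG o r) :
    ¬ Summable (fun k : ℕ => (cnt (sa G) o k : ℝ) * t ^ k) := by
  intro hsum
  have ht0 : 0 < t := by rw [ht]; exact Real.exp_pos _
  set χ := ∑' k : ℕ, (cnt (sa G) o k : ℝ) * t ^ k with hχ
  have hN1 : 1 ≤ N := by omega
  have hN1r : (1 : ℝ) ≤ N := by exact_mod_cast hN1
  obtain ⟨K, hK⟩ := exists_nat_gt (1 + Real.log Δ + |Real.log χ|)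
  have hlogΔ : 0 ≤ Real.log Δ := Real.log_nonneg hΔ
  set j := K + 1 with hj
  obtain ⟨H⟩ := hH (8 * (4 ^ j * N ^ 25))
  have h41 : 4 ^ 1 ≤ 4 ^ j := Nat.pow_le_pow_right (by norm_num) (by omega)
  have hb := hbase _ H (Nat.mul_le_mul_left _ (Nat.mul_le_mul_right _ h41))
  obtain ⟨z, F, L, -, h2, h3⟩ := levels hG H (X := (N : ℝ) ^ 15) hc hlam ht hN hcN hb j (by omega)
    (fun i hi _ => by
      have h1 : 1 ≤ 2 ^ i * N ^ 13 := Nat.one_le_iff_ne_zero.2 (by positivity)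
      exact hgr _ h1) le_rfl
  have h4 := h3.trans (wt_le hG H ht0.le h2)
  have h5 : ∑ k ∈ Finset.range (L + 1), (cnt (sa G) o k : ℝ) * t ^ k ≤ χ :=
    hsum.sum_le_tsum _ (fun _ _ => by positivity)
  have hχ0 : 0 < χ := by
    refine lt_of_lt_of_le ?_ h5
    refine Finset.sum_pos' (fun _ _ => by positivity) ⟨0, by simp, ?_⟩
    rw [sigma_zero]; simp
  have hbb := bb_pos hG (o := o) (2 ^ j * N ^ 13)
  have h6 := h4.trans (mul_le_mul_of_nonneg_left h5 hbb.le)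
  have h7 := Real.log_le_log (Real.exp_pos _) h6
  rw [Real.log_exp, Real.log_mul hbb.ne' hχ0.ne'] at h7
  have h8 := Real.log_le_log hbb (bb_le hG hΔ hcnt (2 ^ j * N ^ 13))
  rw [Real.log_mul (by positivity) (by positivity), Real.log_pow] at h8
  push_cast at h8
  have h9 := Real.log_le_sub_one_of_pos (show (0 : ℝ) < 2 ^ j * (N : ℝ) ^ 13 + 1 by positivity)
  have h10 : Real.log χ ≤ |Real.log χ| := le_abs_self _
  -- compare
  have h2j : (K : ℝ) + 1 ≤ 2 ^ j := by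
    have : K + 1 < 2 ^ j := by
      rw [hj]; exact Nat.lt_two_pow_self
    exact_mod_cast this.le
  have e4 : (4 : ℝ) ^ j = 2 ^ j * 2 ^ j := by rw [← mul_pow]; norm_num
  have hp13 : (1 : ℝ) ≤ (N : ℝ) ^ 13 := one_le_pow₀ hN1r
  have hp15 : (N : ℝ) ^ 13 ≤ (N : ℝ) ^ 15 := pow_le_pow_right₀ hN1r (by norm_num)
  have h2j1 : (1 : ℝ) ≤ 2 ^ j := one_le_pow₀ (by norm_num)
  have h11 : (1 + Real.log Δ + |Real.log χ|) * (2 ^ j * (N : ℝ) ^ 13) ≤ 4 ^ j * (N : ℝ) ^ 15 := by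
    rw [e4]
    calc (1 + Real.log Δ + |Real.log χ|) * (2 ^ j * (N : ℝ) ^ 13)
        ≤ 2 ^ j * (2 ^ j * (N : ℝ) ^ 15) := by
          refine mul_le_mul (by linarith) ?_ (by positivity) (by positivity)
          exact mul_le_mul_of_nonneg_left hp15 (by positivity)
      _ = 2 ^ j * 2 ^ j * (N : ℝ) ^ 15 := by ring
  have h12 : 0 < 2 ^ j / 2 * ((12 * lam + 1) * (N : ℝ) ^ 13) := by positivity
  have h13 : |Real.log χ| ≤ |Real.log χ| * (2 ^ j * (N : ℝ) ^ 13) := by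
    have : 1 ≤ 2 ^ j * (N : ℝ) ^ 13 := one_le_mul_of_one_le_of_one_le h2j1 hp13
    exact le_mul_of_one_le_right (abs_nonneg _) this
  linarith

end Pool.H98.C
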