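import Pool.Agent.H98.C.Port
import Pool.Agent.H98.C.ExpoDefs

set_option autoImplicit false

/-! Module PEEL: decomposition of self-avoiding walks into good cores. -/

namespace Pool.H98.C

open Finset Pool.Agent.H61.SW

section PEEL
variable {V : Type} {G : SimpleGraph V} {o : V} {R : ℕ} (hG : TG G) (H : Homog G o R)

/-- a finite set of vertices of `v :: p`: the first element of the set leaves a long tail -/
lemma split_first [DecidableEq V] (v : V) (p : List V) (F : Finset V)
    (hF : ∀ x ∈ F, x ∈ v :: p) (hne : F.Nonempty) :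
    ∃ p' c : List V, p = p' ++ c ∧ en v p' ∈ F ∧ F.card ≤ c.length + 1 := by
  induction p generalizing v with
  | nil =>
    obtain ⟨x, hx⟩ := hne
    have h1 : x = v := by simpa using hF x hx
    subst h1
    refine ⟨[], [], rfl, hx, ?_⟩
    have h2 : F ⊆ {x} := fun y hy => by simpa using hF y hy
    simpa using Finset.card_le_card h2
  | cons a p ih =>
    by_cases hv : v ∈ F
    · refine ⟨[], a :: p, rfl, hv, ?_⟩
      have h2 : F ⊆ (v :: a :: p).toFinset := fun y hy => List.mem_toFinset.2 (hF y hy)
      exact (Finset.card_le_card h2).trans (List.toFinset_card_le _)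
    · obtain ⟨p', c, h1, h2, h3⟩ := ih a (fun x hx => by
        rcases List.mem_cons.1 (hF x hx) with rfl | h
        · exact absurd hx hv
        · exact h)
      exact ⟨a :: p', c, by rw [h1]; rfl, h2, h3⟩

/-- the last element of the set leaves a long initial part -/
lemma split_last [DecidableEq V] (v : V) (q : List V) (F : Finset V)
    (hF : ∀ x ∈ F, x ∈ v :: q) (hne : F.Nonempty) :
    ∃ c q' : List V, q = c ++ q' ∧ en v c ∈ F ∧ F.card ≤ c.length + 1 := by
  induction q using List.reverseRecOn with
  | nil =>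
    obtain ⟨x, hx⟩ := hne
    have h1 : x = v := by simpa using hF x hx
    subst h1
    refine ⟨[], [], rfl, hx, ?_⟩
    have h2 : F ⊆ {x} := fun y hy => by simpa using hF y hy
    simpa using Finset.card_le_card h2
  | append_singleton q a ih =>
    by_cases ha : a ∈ F
    · refine ⟨q ++ [a], [], by simp, by rw [en_append]; exact ha, ?_⟩
      have h2 : F ⊆ (v :: (q ++ [a])).toFinset := fun y hy => List.mem_toFinset.2 (hF y hy)
      exact (Finset.card_le_card h2).trans (List.toFinset_card_le _)
    · obtain ⟨c, q', h1, h2, h3⟩ := ih (fun x hx => by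
        have := hF x hx
        rw [← List.cons_append, List.mem_append, List.mem_singleton] at this
        rcases this with h | rfl
        · exact h
        · exact absurd hx ha)
      exact ⟨c, q' ++ [a], by rw [h1, List.append_assoc], h2, h3⟩

lemma Expd.anti {S r : ℕ} {δ : ℝ} {M M' : Finset V} {y : V} {α : List V}
    (h : Expd hG H S r δ M y α) (hM : M' ⊆ M) : Expd hG H S r δ M' y α :=
  ⟨h.ch, h.nd, h.len, fun v hv hv' => h.av v hv (hM hv'),
    (hit_mono hG H fun _ hv => Finset.mem_toList.2 (hM (Finset.mem_toList.1 hv))).trans h.hit⟩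

/-- two compatible exposed arms at the ends of a walk inside `M` make a good core -/
lemma gc_of {S r : ℕ} {δ : ℝ} (hδ : 0 ≤ δ) {m : ℕ} {M : Finset V} {y : V} {c α β : List V}
    (hc : ch G y c) (hnd : (y :: c).Nodup) (hM : ∀ x ∈ y :: c, x ∈ M)
    (ha : Expd hG H S r δ M y α) (hb : Expd hG H S r δ M (en y c) β)
    (hd : ∀ x ∈ α, x ∉ β) (h1 : hit hG H S (en y α) β ≤ δ)
    (h2 : hit hG H S (en (en y c) β) α ≤ δ) (h3 : QQ hG H S (en y α) (en (en y c) β) ≤ δ)
    (hl : c.length ≤ m) : GC hG H S (2 * δ) r (m + 2 * r) y c := by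
  have hy : y ∈ M := hM y (by simp)
  have hcM : ∀ x ∈ c, x ∈ M := fun x hx => hM x (List.mem_cons_of_mem _ hx)
  have e1 : en (en y α) (rv y α ++ (c ++ β)) = en (en y c) β := by
    rw [en_append, en_rv, en_append]
  have hrv : ∀ x, x ∈ en y α :: rv y α ↔ x ∈ y :: α := fun x => mem_rv
  refine ⟨en y α, rv y α, β, en_rv y α, ?_, ?_, ?_, ?_, ?_, hb.len, ?_⟩
  · -- self-avoiding
    refine ⟨?_, ?_⟩
    · rw [ch_append, ch_append, en_rv]
      exact ⟨ch_rv y α ha.ch, hc, hb.ch⟩
    · rw [← List.cons_append, cons_rv, List.nodup_append]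
      refine ⟨List.nodup_reverse.2 ha.nd, ?_, ?_⟩
      · rw [List.nodup_append]
        refine ⟨(List.nodup_cons.1 hnd).2, (List.nodup_cons.1 hb.nd).2, ?_⟩
        intro x hx z hz hxz
        subst hxz
        exact hb.av x hz (hcM x hx)
      · intro x hx z hz hxz
        subst hxz
        rw [List.mem_reverse] at hx
        rcases List.mem_cons.1 hx with rfl | hx
        · rcases List.mem_append.1 hz with hz | hz
          · exact (List.nodup_cons.1 hnd).1 hz
          · exact hb.av _ hz hy
        · rcases List.mem_append.1 hz with hz | hz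
          · exact ha.av x hx (hcM x hz)
          · exact hd x hx hz
  · -- start
    rw [en_rv]
    have h4 : hit hG H S (en y α) (y :: (c ++ β)) ≤ hit hG H S (en y α) (M.toList ++ β) := by
      refine hit_mono hG H fun x hx => ?_
      rcases List.mem_cons.1 hx with rfl | hx
      · exact List.mem_append_left _ (Finset.mem_toList.2 hy)
      · rcases List.mem_append.1 hx with hx | hx
        · exact List.mem_append_left _ (Finset.mem_toList.2 (hcM x hx))
        · exact List.mem_append_right _ hx
    have h5 := hit_append hG H S (en y α) M.toList β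
    have h6 := ha.hit
    linarith
  · rw [e1]
    have h4 : hit hG H S (en (en y c) β) (en y α :: (rv y α ++ c)) ≤
        hit hG H S (en (en y c) β) (M.toList ++ α) := by
      refine hit_mono hG H fun x hx => ?_
      rw [← List.cons_append, List.mem_append, hrv] at hx
      rcases hx with hx | hx
      · rcases List.mem_cons.1 hx with rfl | hx
        · exact List.mem_append_left _ (Finset.mem_toList.2 hy)
        · exact List.mem_append_right _ hx
      · exact List.mem_append_left _ (Finset.mem_toList.2 (hcM x hx))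
    have h5 := hit_append hG H S (en (en y c) β) M.toList α
    have h6 := hb.hit
    linarith
  · rw [e1]; linarith
  · rw [length_rv]; exact ha.len
  · simp only [List.length_append, length_rv]
    have := ha.len
    have := hb.len
    omega

lemma CP_snoc (P : V → List V → Prop) (n : ℕ) (v : V) (s c : List V) (h : CP P n v s)
    (hc : P (en v s) c) : CP P (n + 1) v (s ++ c) := by
  induction n generalizing v s with
  | zero =>
    have h1 : s = [] := h
    subst h1
    exact ⟨c, [], by simp, hc, rfl⟩
  | succ n ih =>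
    obtain ⟨d, t, h1, h2, h3⟩ := h
    subst h1
    rw [en_append] at hc
    exact ⟨d, t ++ c, by rw [List.append_assoc], h2, ih (en v d) t h3 hc⟩

/-- the induction -/
lemma peel_aux [DecidableEq V] (S r : ℕ) (δ : ℝ) (hδ : 0 ≤ δ) (m mlow κ : ℕ)
    (hexpo : ∀ M : Finset V, mlow ≤ M.card → M.card ≤ m + 1 →
      ∃ E ⊆ M, ∃ Bl : ℕ, 0 < E.card ∧ 2 * (κ + 1 + Bl) ≤ E.card ∧
        ∀ (y1 : V) (α1 : List V), α1.length ≤ r → ∃ B ⊆ E, B.card ≤ Bl ∧
          ∀ y ∈ E, y ∉ B → ∃ α, Expd hG H S r δ M y α ∧ Cpt hG H S δ y1 α1 y α)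
    (v : V) (s : List V) (hs : sa G v s) (hlen : s.length ≤ m) (hκ : 0 < κ) (N : ℕ) :
    ∀ (n : ℕ) (p mid q αP αQ : List V), p.length + q.length ≤ N → s = p ++ (mid ++ q) →
      n * κ ≤ mid.length → CP (GC hG H S (2 * δ) r (m + 2 * r)) n (en v p) mid →
      Expd hG H S r δ ((v :: p).toFinset ∪ (en v (p ++ mid) :: q).toFinset) (en v p) αP →
      Expd hG H S r δ ((v :: p).toFinset ∪ (en v (p ++ mid) :: q).toFinset)
        (en v (p ++ mid)) αQ →
      ∃ n, n * κ ≤ m ∧ ∃ p mid q : List V, s = p ++ (mid ++ q) ∧ p.length + q.length ≤ mlow ∧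
        CP (GC hG H S (2 * δ) r (m + 2 * r)) n (en v p) mid := by
  induction N using Nat.strong_induction_on with
  | _ N ih =>
  intro n p mid q αP αQ hN hsp hn hCP hP hQ
  by_cases hstop : p.length + q.length ≤ mlow
  · refine ⟨n, ?_, p, mid, q, hsp, hstop, hCP⟩
    refine hn.trans ?_
    have : s.length = p.length + (mid.length + q.length) := by rw [hsp]; simp
    omega
  push Not at hstop
  set yP := en v p with hyP
  set yQ := en v (p ++ mid) with hyQ
  set M : Finset V := (v :: p).toFinset ∪ (yQ :: q).toFinset with hMdef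
  -- nodup facts
  have hnd : (v :: (p ++ (mid ++ q))).Nodup := hsp ▸ hs.2
  have hchs : ch G v (p ++ (mid ++ q)) := hsp ▸ hs.1
  have hndP : (v :: p).Nodup := by
    rw [← List.cons_append] at hnd
    exact (List.nodup_append.1 hnd).1
  have hndQ : (yQ :: q).Nodup := by
    rw [← List.append_assoc] at hnd
    exact nodup_en_cons hnd
  have hchP : ch G v p := ((ch_append v p _).1 hchs).1
  have hchQ : ch G yQ q := by
    rw [← List.append_assoc] at hchs
    exact ((ch_append v (p ++ mid) q).1 hchs).2
  -- cardinalities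
  have hc1 : (v :: p).toFinset.card = p.length + 1 := by
    rw [List.toFinset_card_of_nodup hndP]; rfl
  have hc2 : (yQ :: q).toFinset.card = q.length + 1 := by
    rw [List.toFinset_card_of_nodup hndQ]; rfl
  have hMs : M ⊆ (v :: s).toFinset := by
    intro x hx
    rw [hMdef, Finset.mem_union, List.mem_toFinset, List.mem_toFinset] at hx
    rw [List.mem_toFinset, hsp]
    rcases hx with hx | hx
    · rcases List.mem_cons.1 hx with rfl | hx
      · simp
      · simp [hx]
    · rw [← List.append_assoc]
      exact mem_cons_of_split hx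
  have hMle : M.card ≤ m + 1 := by
    refine (Finset.card_le_card hMs).trans ((List.toFinset_card_le _).trans ?_)
    simpa using hlen
  have hMge : mlow ≤ M.card := by
    have hqd : Disjoint (v :: p).toFinset q.toFinset := by
      rw [Finset.disjoint_left]
      intro x hx hx'
      rw [List.mem_toFinset] at hx hx'
      rw [← List.cons_append, List.nodup_append] at hnd
      exact hnd.2.2 x hx x (List.mem_append_right _ hx') rfl
    have h1 : (v :: p).toFinset ∪ q.toFinset ⊆ M := by
      intro x hx
      rw [Finset.mem_union] at hx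
      rw [hMdef, Finset.mem_union]
      rcases hx with hx | hx
      · exact Or.inl hx
      · right
        rw [List.mem_toFinset] at hx ⊢
        exact List.mem_cons_of_mem _ hx
    have h2 := Finset.card_le_card h1
    rw [Finset.card_union_of_disjoint hqd, hc1,
      List.toFinset_card_of_nodup (List.nodup_cons.1 hndQ).2] at h2
    omega
  obtain ⟨E, hEM, Bl, hE0, hE2, hE⟩ := hexpo M hMge hMle
  -- one of the two sides has many
  have hEsplit : E.card ≤ (E ∩ (v :: p).toFinset).card + (E ∩ (yQ :: q).toFinset).card := by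
    have h1 : E ⊆ (E ∩ (v :: p).toFinset) ∪ (E ∩ (yQ :: q).toFinset) := by
      intro x hx
      have := hEM hx
      rw [hMdef, Finset.mem_union] at this
      rw [Finset.mem_union, Finset.mem_inter, Finset.mem_inter]
      rcases this with h | h
      · exact Or.inl ⟨hx, h⟩
      · exact Or.inr ⟨hx, h⟩
    exact (Finset.card_le_card h1).trans (Finset.card_union_le _ _)
  by_cases hside : κ + 1 + Bl ≤ (E ∩ (v :: p).toFinset).card
  · -- side p
    obtain ⟨B, hBE, hBl, hB⟩ := hE yP αP hP.len
    set F : Finset V := (E ∩ (v :: p).toFinset) \ B with hF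
    have hFc : κ + 1 ≤ F.card := by
      have h1 := Finset.le_card_sdiff B (E ∩ (v :: p).toFinset)
      rw [← hF] at h1
      omega
    have hFp : ∀ x ∈ F, x ∈ v :: p := by
      intro x hx
      rw [hF, Finset.mem_sdiff, Finset.mem_inter, List.mem_toFinset] at hx
      exact hx.1.2
    obtain ⟨p', c, hpc, hyF, hcl⟩ := split_first v p F hFp
      (Finset.card_pos.1 (by omega))
    set y := en v p' with hy
    have hyE : y ∈ E := by
      rw [hF, Finset.mem_sdiff, Finset.mem_inter] at hyF; exact hyF.1.1
    have hyB : y ∉ B := by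
      rw [hF, Finset.mem_sdiff] at hyF; exact hyF.2
    obtain ⟨α, hα, hcpt⟩ := hB y hyE hyB
    have hec : en y c = yP := by rw [hy, ← en_append, ← hpc]
    have hycM : ∀ x ∈ y :: c, x ∈ M := by
      intro x hx
      rw [hMdef, Finset.mem_union, List.mem_toFinset]
      left
      rw [hpc]
      exact mem_cons_of_split hx
    have hgc : GC hG H S (2 * δ) r (m + 2 * r) y c := by
      refine gc_of hG H hδ (M := M) (α := α) (β := αP) ?_ ?_ hycM hα (hec ▸ hP) hcpt.dj
        hcpt.h1 ?_ ?_ ?_
      · rw [hpc] at hchP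
        exact ((ch_append v p' c).1 hchP).2
      · rw [hpc] at hndP
        exact nodup_en_cons hndP
      · rw [hec]; exact hcpt.h2
      · rw [hec, QQ_comm]; exact hcpt.qq
      · have : s.length = p'.length + c.length + (mid.length + q.length) := by
          rw [hsp, hpc]; simp; omega
        omega
    have hpl : p.length = p'.length + c.length := by rw [hpc]; simp
    have hyQ' : en v (p' ++ (c ++ mid)) = yQ := by rw [hyQ, hpc, List.append_assoc]
    have hM' : (v :: p').toFinset ∪ (en v (p' ++ (c ++ mid)) :: q).toFinset ⊆ M := by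
      rw [hyQ', hMdef]
      refine Finset.union_subset_union_left ?_
      intro x hx
      rw [List.mem_toFinset] at hx ⊢
      rw [hpc, ← List.cons_append]
      exact List.mem_append_left _ hx
    refine ih (p'.length + q.length) (by omega) (n + 1) p' (c ++ mid) q α αQ le_rfl ?_ ?_ ?_ ?_ ?_
    · rw [hsp, hpc]; simp
    · rw [add_mul, one_mul, List.length_append]; omega
    · exact ⟨c, mid, rfl, hgc, by rw [hec]; exact hCP⟩
    · exact hα.anti hG H hM'
    · have := hQ.anti hG H hM'
      rw [hyQ']; rw [hyQ'] at this; exact this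
  · -- side q
    have hside2 : κ + 1 + Bl ≤ (E ∩ (yQ :: q).toFinset).card := by omega
    obtain ⟨B, hBE, hBl, hB⟩ := hE yQ αQ hQ.len
    set F : Finset V := (E ∩ (yQ :: q).toFinset) \ B with hF
    have hFc : κ + 1 ≤ F.card := by
      have h1 := Finset.le_card_sdiff B (E ∩ (yQ :: q).toFinset)
      rw [← hF] at h1
      omega
    have hFq : ∀ x ∈ F, x ∈ yQ :: q := by
      intro x hx
      rw [hF, Finset.mem_sdiff, Finset.mem_inter, List.mem_toFinset] at hx
      exact hx.1.2
    obtain ⟨c, q', hqc, hyF, hcl⟩ := split_last yQ q F hFq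
      (Finset.card_pos.1 (by omega))
    set y := en yQ c with hy
    have hyE : y ∈ E := by
      rw [hF, Finset.mem_sdiff, Finset.mem_inter] at hyF; exact hyF.1.1
    have hyB : y ∉ B := by
      rw [hF, Finset.mem_sdiff] at hyF; exact hyF.2
    obtain ⟨α, hα, hcpt⟩ := hB y hyE hyB
    have hycM : ∀ x ∈ yQ :: c, x ∈ M := by
      intro x hx
      rw [hMdef, Finset.mem_union, List.mem_toFinset, List.mem_toFinset]
      right
      rw [hqc, ← List.cons_append]
      exact List.mem_append_left _ hx
    have hgc : GC hG H S (2 * δ) r (m + 2 * r) yQ c := by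
      refine gc_of hG H hδ (M := M) (α := αQ) (β := α) ?_ ?_ hycM hQ hα ?_
        hcpt.h2 hcpt.h1 hcpt.qq ?_
      · rw [hqc] at hchQ
        exact ((ch_append yQ c q').1 hchQ).1
      · rw [hqc, ← List.cons_append] at hndQ
        exact (List.nodup_append.1 hndQ).1
      · intro x hx hx'
        exact hcpt.dj x hx' hx
      · have : s.length = p.length + (mid.length + (c.length + q'.length)) := by
          rw [hsp, hqc]; simp
        omega
    have hql : q.length = c.length + q'.length := by rw [hqc]; simp
    have hyQ' : en v (p ++ (mid ++ c)) = y := by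
      rw [hy, hyQ, ← en_append, List.append_assoc]
    have hM' : (v :: p).toFinset ∪ (en v (p ++ (mid ++ c)) :: q').toFinset ⊆ M := by
      rw [hyQ', hMdef]
      refine Finset.union_subset_union_right ?_
      intro x hx
      rw [List.mem_toFinset] at hx ⊢
      rw [hqc]
      exact mem_cons_of_split hx
    refine ih (p.length + q'.length) (by omega) (n + 1) p (mid ++ c) q' αP α le_rfl ?_ ?_ ?_ ?_ ?_
    · rw [hsp, hqc]; simp
    · rw [add_mul, one_mul, List.length_append]; omega
    · refine CP_snoc _ n _ mid c hCP ?_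
      have : en yP mid = yQ := by rw [hyP, hyQ, en_append]
      rw [this]; exact hgc
    · exact hP.anti hG H hM'
    · have := hα.anti hG H hM'
      rw [hyQ']; rw [hyQ'] at this; exact this

theorem peel (S r : ℕ) (δ : ℝ) (hδ : 0 ≤ δ) (m mlow κ : ℕ) (hκ : 0 < κ)
    (hexpo : ∀ M : Finset V, mlow ≤ M.card → M.card ≤ m + 1 →
      ∃ E ⊆ M, ∃ Bl : ℕ, 0 < E.card ∧ 2 * (κ + 1 + Bl) ≤ E.card ∧
        ∀ (y1 : V) (α1 : List V), α1.length ≤ r → ∃ B ⊆ E, B.card ≤ Bl ∧
          ∀ y ∈ E, y ∉ B → ∃ α, Expd hG H S r δ M y α ∧ Cpt hG H S δ y1 α1 y α)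
    (v : V) (s : List V) (hs : sa G v s) (hlen : s.length ≤ m) (hmlow : mlow ≤ s.length + 1) :
    ∃ n ≤ m / κ, ∃ p mid q : List V, s = p ++ (mid ++ q) ∧ p.length + q.length ≤ mlow ∧
      CP (GC hG H S (2 * δ) r (m + 2 * r)) n (en v p) mid := by
  classical
  set M : Finset V := (v :: s).toFinset with hM
  have hMc : M.card = s.length + 1 := by
    rw [hM, List.toFinset_card_of_nodup hs.2]; rfl
  obtain ⟨E, hEM, Bl, hE0, hE2, hE⟩ := hexpo M (by omega) (by omega)
  obtain ⟨B, hBE, hBl, hB⟩ := hE v [] (by simp)
  have hne : (E \ B).Nonempty := by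
    have h1 := Finset.le_card_sdiff B E
    exact Finset.card_pos.1 (by omega)
  obtain ⟨y0, hy0⟩ := hne
  rw [Finset.mem_sdiff] at hy0
  obtain ⟨α, hα, -⟩ := hB y0 hy0.1 hy0.2
  have hy0s : y0 ∈ v :: s := List.mem_toFinset.1 (hEM hy0.1)
  obtain ⟨p, q, hpq, hyp⟩ : ∃ p q : List V, s = p ++ q ∧ en v p = y0 := by
    obtain ⟨p, q, h1, h2, -⟩ := split_first v s {y0} (by simpa using hy0s) (by simp)
    exact ⟨p, q, h1, by simpa using h2⟩
  have hMM : (v :: p).toFinset ∪ (en v (p ++ []) :: q).toFinset ⊆ M := by
    intro x hx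
    rw [Finset.mem_union, List.mem_toFinset, List.mem_toFinset, List.append_nil] at hx
    rw [hM, List.mem_toFinset, hpq]
    rcases hx with hx | hx
    · rw [← List.cons_append]
      exact List.mem_append_left _ hx
    · exact mem_cons_of_split hx
  obtain ⟨n, hn, h⟩ := peel_aux hG H S r δ hδ m mlow κ hexpo v s hs hlen hκ _ 0 p [] q α α le_rfl
    (by simpa using hpq) (by simp) rfl
    (by rw [hyp]; exact hα.anti hG H hMM)
    (by
      have := hα.anti hG H hMM
      rw [List.append_nil, hyp]
      rw [List.append_nil, hyp] at this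
      exact this)
  exact ⟨n, (Nat.le_div_iff_mul_le hκ).2 hn, h⟩

end PEEL

end Pool.H98.C
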