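import Pool.Agent.H98.C.Merge

set_option autoImplicit false

/-! Raising the scale at which the ends of the blocks are exposed. -/

namespace Pool.H98.C

open Finset Pool.Agent.H61.SW

variable {V : Type} {G : SimpleGraph V} {o : V} {R : ℕ} (hG : TG G) (H : Homog G o R)

/-- property of the lists of the raised family -/
def RP {S : ℕ} (z : V) (P : List V → Prop) (ω : PO hG H S × PO hG H S) (s' : List V) : Prop :=
  ∃ s, P s ∧ en (en z (por hG H z ω.1)) s' = en (en z s) (por hG H (en z s) ω.2) ∧
    ∀ x ∈ s', x ∈ z :: s ∨ x ∈ por hG H z ω.1 ∨ x ∈ por hG H (en z s) ω.2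

theorem raise {S S' A L : ℕ} {δ δ' t M : ℝ} (ht : 0 < t) (hM : 0 < M)
    (hS' : 1 ≤ S') (hR' : S' ≤ R)
    (z : V) (P : List V → Prop) (F : Finset (V × List V))
    (hF : Fam hG H S δ A L z P F)
    (hnum : 3 * δ + 3 / M ≤ 1 / 2)
    (hδ' : M * (S' * (L + 1 + S + S') * (1 / bb hG o S)) ≤ δ') :
    ∃ (ω : PO hG H S × PO hG H S) (F' : Finset (V × List V)),
      Fam hG H S' δ' (A + S) (L + 2 * S) (en z (por hG H z ω.1)) (RP hG H z P ω) F' ∧
      wt t F ≤ 2 * wt t F' := by
  classical
  have hbb := bb_pos hG (o := o) S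
  set β : ℝ := 1 / bb hG o S with hβ
  have hβ0 : 0 < β := by positivity
  have hS'0 : (1 : ℝ) ≤ S' := by exact_mod_cast hS'
  set m : ℝ := S' * (L + 1 + S + S') * β with hm
  have hm0 : 0 < m := by positivity
  choose! a b e B Q using hF
  let s : V × List V → List V := fun q => a q ++ (q.2 ++ b q)
  let Bad : V × List V → PO hG H S × PO hG H S → Prop := fun q ω =>
    (∃ v ∈ por hG H z ω.1, v ∈ en z (a q) :: (q.2 ++ b q)) ∨
    (∃ v ∈ por hG H (en z (s q)) ω.2, v ∈ z :: (a q ++ q.2)) ∨
    (∃ v ∈ por hG H z ω.1, v ∈ por hG H (en z (s q)) ω.2) ∨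
    (M * m < hit hG H S' (en z (por hG H z ω.1))
      ((en z (a q) :: (q.2 ++ b q)) ++ por hG H (en z (s q)) ω.2)) ∨
    (M * m < hit hG H S' (en (en z (s q)) (por hG H (en z (s q)) ω.2))
      ((z :: (a q ++ q.2)) ++ por hG H z ω.1)) ∨
    (M * m < QQ hG H S' (en z (por hG H z ω.1)) (en (en z (s q)) (por hG H (en z (s q)) ω.2)))
  have hBad : ∀ q ∈ F, Pr (Bad q) ≤ 1 / 2 := by
    intro q hq
    have C := B q hq
    have len : (s q).length ≤ L := C.ll
    have hlen' : (a q).length + (q.2.length + (b q).length) ≤ L := by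
      have := C.ll
      simpa using this
    have b1 : Pr (fun ω : PO hG H S × PO hG H S =>
        ∃ v ∈ por hG H z ω.1, v ∈ en z (a q) :: (q.2 ++ b q)) ≤ δ := by
      rw [Pr_fst (Ω' := PO hG H S) (fun ω1 : PO hG H S =>
        ∃ v ∈ por hG H z ω1, v ∈ en z (a q) :: (q.2 ++ b q))]
      exact C.hs
    have b2 : Pr (fun ω : PO hG H S × PO hG H S =>
        ∃ v ∈ por hG H (en z (s q)) ω.2, v ∈ z :: (a q ++ q.2)) ≤ δ := by
      rw [Pr_snd (Ω := PO hG H S) (fun ω1 : PO hG H S =>
        ∃ v ∈ por hG H (en z (s q)) ω1, v ∈ z :: (a q ++ q.2))]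
      exact C.he
    have b3 : Pr (fun ω : PO hG H S × PO hG H S =>
        ∃ v ∈ por hG H z ω.1, v ∈ por hG H (en z (s q)) ω.2) ≤ δ := C.qq
    have b4 : Pr (fun ω : PO hG H S × PO hG H S =>
        M * m < hit hG H S' (en z (por hG H z ω.1))
          ((en z (a q) :: (q.2 ++ b q)) ++ por hG H (en z (s q)) ω.2)) ≤ 1 / M := by
      refine Pr_markov (fun ω => hit_nonneg hG H _ _ _) hm0 hM ?_
      rw [Ex_prod']
      refine Ex_le_of_le hm0.le fun ω2 => ?_
      have h0 : Ex (fun ω1 : PO hG H S => hit hG H S' (en z (por hG H z ω1))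
          ((en z (a q) :: (q.2 ++ b q)) ++ por hG H (en z (s q)) ω2)) ≤ _ :=
        hit_spread hG H hβ0.le (fun ω1 : PO hG H S => en z (por hG H z ω1))
          (spr_por hG H z) hR' ((en z (a q) :: (q.2 ++ b q)) ++ por hG H (en z (s q)) ω2)
      refine h0.trans ?_
      rw [hm]
      refine mul_le_mul_of_nonneg_right ?_ hβ0.le
      refine mul_le_mul_of_nonneg_left ?_ (by linarith)
      have h1 := length_por hG H (en z (s q)) ω2
      have h2 : ((en z (a q) :: (q.2 ++ b q)) ++ por hG H (en z (s q)) ω2).length ≤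
          L + 1 + S + S' := by
        simp only [List.length_append, List.length_cons]
        omega
      exact_mod_cast h2
    have b5 : Pr (fun ω : PO hG H S × PO hG H S =>
        M * m < hit hG H S' (en (en z (s q)) (por hG H (en z (s q)) ω.2))
          ((z :: (a q ++ q.2)) ++ por hG H z ω.1)) ≤ 1 / M := by
      refine Pr_markov (fun ω => hit_nonneg hG H _ _ _) hm0 hM ?_
      rw [Ex_prod]
      refine Ex_le_of_le hm0.le fun ω1 => ?_
      have h0 : Ex (fun ω2 : PO hG H S => hit hG H S' (en (en z (s q)) (por hG H (en z (s q)) ω2))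
          ((z :: (a q ++ q.2)) ++ por hG H z ω1)) ≤ _ :=
        hit_spread hG H hβ0.le (fun ω2 : PO hG H S => en (en z (s q)) (por hG H (en z (s q)) ω2))
          (spr_por hG H _) hR' ((z :: (a q ++ q.2)) ++ por hG H z ω1)
      refine h0.trans ?_
      rw [hm]
      refine mul_le_mul_of_nonneg_right ?_ hβ0.le
      refine mul_le_mul_of_nonneg_left ?_ (by linarith)
      have h1 := length_por hG H z ω1
      have h2 : ((z :: (a q ++ q.2)) ++ por hG H z ω1).length ≤ L + 1 + S + S' := by
        simp only [List.length_append, List.length_cons]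
        omega
      exact_mod_cast h2
    have b6 : Pr (fun ω : PO hG H S × PO hG H S =>
        M * m < QQ hG H S' (en z (por hG H z ω.1))
          (en (en z (s q)) (por hG H (en z (s q)) ω.2))) ≤ 1 / M := by
      refine Pr_markov (fun ω => QQ_nonneg hG H _ _ _) hm0 hM ?_
      rw [Ex_prod']
      refine Ex_le_of_le hm0.le fun ω2 => ?_
      set q' : V := en (en z (s q)) (por hG H (en z (s q)) ω2) with hq'
      have h1 : (fun ω1 : PO hG H S => QQ hG H S' (en z (por hG H z ω1)) q') =
          fun ω1 : PO hG H S =>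
          Ex fun ω3 : PO hG H S' => hit hG H S' (en z (por hG H z ω1)) (por hG H q' ω3) := by
        ext ω1
        rw [QQ_comm, QQ_eq]
      show Ex (fun ω1 : PO hG H S => QQ hG H S' (en z (por hG H z ω1)) q') ≤ m
      rw [h1, Ex_comm]
      refine Ex_le_of_le hm0.le fun ω3 => ?_
      have h0 : Ex (fun ω1 : PO hG H S => hit hG H S' (en z (por hG H z ω1)) (por hG H q' ω3)) ≤ _ :=
        hit_spread hG H hβ0.le (fun ω1 : PO hG H S => en z (por hG H z ω1))
          (spr_por hG H z) hR' (por hG H q' ω3)
      refine h0.trans ?_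
      rw [hm]
      refine mul_le_mul_of_nonneg_right ?_ hβ0.le
      refine mul_le_mul_of_nonneg_left ?_ (by linarith)
      have h3 : ((por hG H q' ω3).length : ℝ) ≤ S' := by
        exact_mod_cast length_por hG H q' ω3
      have h4 : (0 : ℝ) ≤ L + 1 + S := by positivity
      linarith
    have tot : Pr (Bad q) ≤ δ + (δ + (δ + (1 / M + (1 / M + 1 / M)))) := by
      refine (Pr_or _ _).trans (add_le_add b1 ?_)
      refine (Pr_or _ _).trans (add_le_add b2 ?_)
      refine (Pr_or _ _).trans (add_le_add b3 ?_)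
      refine (Pr_or _ _).trans (add_le_add b4 ?_)
      exact (Pr_or _ _).trans (add_le_add b5 b6)
    refine tot.trans (le_trans (le_of_eq ?_) hnum)
    ring
  have hSuc : ∀ q ∈ F, (1 : ℝ) / 2 ≤ Pr (fun ω => ¬ Bad q ω) := by
    intro q hq
    rw [Pr_not]
    have := hBad q hq
    linarith
  obtain ⟨ω, hω⟩ := exists_good F (fun q => t ^ q.2.length) (fun q _ => by positivity)
    (fun q ω => ¬ Bad q ω) (1 / 2) hSuc
  refine ⟨ω, F.filter (fun q => ¬ Bad q ω), ?_, ?_⟩
  · intro q hq
    obtain ⟨hq1, hq2⟩ := Finset.mem_filter.1 hq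
    have C := B q hq1
    simp only [Bad, not_or] at hq2
    obtain ⟨E1, E2, E3, E4, E5, E6⟩ := hq2
    push Not at E1 E2 E3 E4 E5 E6
    obtain ⟨a', b', r1, r2, r3, r4, r5, r6, r7⟩ := raise_det C.sa (ch_por hG H z ω.1)
      (ch_por hG H (en z (s q)) ω.2) E1 E2 E3
    have la := C.la
    have lb := C.lb
    have ll := C.ll
    have l1 := length_por hG H z ω.1
    have l2 := length_por hG H (en z (s q)) ω.2
    simp only [List.length_append] at ll
    refine ⟨a', b', r1.trans (e q hq1), ⟨r4, ?_, ?_, ?_, by omega, by omega, ?_⟩, s q, Q q hq1, r5, ?_⟩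
    · refine (hit_mono hG H ?_).trans (E4.trans hδ')
      intro x hx
      rw [List.mem_append]
      rcases List.mem_cons.1 hx with h | h
      · left; rw [h, r1]; simp
      · rcases List.mem_append.1 h with h | h
        · left; simp [h]
        · rcases r7 x h with h | h
          · left; simp [h]
          · exact Or.inr h
    · rw [r5]
      refine (hit_mono hG H ?_).trans (E5.trans hδ')
      intro x hx
      rw [List.mem_append]
      have hx' : x ∈ en z (por hG H z ω.1) :: a' ∨ x ∈ q.2 := by
        rcases List.mem_cons.1 hx with h | h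
        · left; simp [h]
        · rcases List.mem_append.1 h with h | h
          · left; simp [h]
          · exact Or.inr h
      rcases hx' with h | h
      · rcases r6 x h with h | h
        · left
          rcases List.mem_cons.1 h with h | h <;> simp [h]
        · exact Or.inr h
      · left; simp [h]
    · rw [r5]
      exact E6.trans hδ'
    · simp only [List.length_append]
      omega
    · intro x hx
      rcases List.mem_append.1 hx with h | h
      · rcases r6 x (List.mem_cons_of_mem _ h) with h | h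
        · left
          rcases List.mem_cons.1 h with h | h
          · simp [h]
          · simp [s, h]
        · exact Or.inr (Or.inl h)
      · rcases List.mem_append.1 h with h | h
        · left; simp [s, h]
        · rcases r7 x h with h | h
          · left; simp [s, h]
          · exact Or.inr (Or.inr h)
  · have h1 : wt t F = ∑ q ∈ F, t ^ q.2.length := rfl
    rw [h1]
    have h2 : wt t (F.filter (fun q => ¬ Bad q ω)) =
        ∑ i ∈ F.filter (fun q => ¬ Bad q ω), t ^ i.2.length := rfl
    rw [h2]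
    linarith

end Pool.H98.C
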