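import Pool.Agent.H98.C.Expo
import Pool.Agent.H98.C.Peel
import Pool.Agent.H98.C.Count
import Pool.Agent.H98.C.Raise

set_option autoImplicit false

/-! The initial family of blocks. -/

namespace Pool.H98.C

open Finset Pool.Agent.H61.SW

variable {V : Type} {G : SimpleGraph V} {o : V} {R : ℕ} (hG : TG G) (H : Homog G o R)

lemma Blk.map {S A L : ℕ} {δ : ℝ} {z : V} {a c b : List V} (hSR : S ≤ R)
    (B : Blk hG H S δ A L z a c b) (g : G ≃g G) :
    Blk hG H S δ A L (g z) (a.map g) (c.map g) (b.map g) := by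
  have e1 : a.map g ++ (c.map g ++ b.map g) = (a ++ (c ++ b)).map g := by simp
  refine ⟨?_, ?_, ?_, ?_, by simpa using B.la, by simpa using B.lb, ?_⟩
  · rw [e1]; exact (sa_map g _ _).2 B.sa
  · have : en (g z) (a.map g) :: (c.map g ++ b.map g) = (en z a :: (c ++ b)).map g := by
      rw [en_map]; simp
    rw [this, hit_iso hG H hSR]; exact B.hs
  · have : g z :: (a.map g ++ c.map g) = (z :: (a ++ c)).map g := by simp
    rw [e1, en_map, this, hit_iso hG H hSR]; exact B.he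
  · rw [e1, en_map, QQ_iso hG H hSR]; exact B.qq
  · rw [e1, List.length_map]; exact B.ll

/-- cores of blocks with root `z` starting at `y` -/
def GR (S : ℕ) (δ : ℝ) (A L : ℕ) (z y : V) (c : List V) : Prop :=
  ∃ a b, en z a = y ∧ Blk hG H S δ A L z a c b

lemma GR_ch {S A L : ℕ} {δ : ℝ} {z y : V} {c : List V} (h : GR hG H S δ A L z y c) :
    sa G y c ∧ c.length ≤ L := by
  obtain ⟨a, b, rfl, B⟩ := h
  refine ⟨sa_append_left (sa_append_right B.sa), ?_⟩
  have := B.ll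
  simp only [List.length_append] at this
  omega

/-- all cores with root `o` -/
noncomputable def F0 (S : ℕ) (δ : ℝ) (A L : ℕ) : Finset (V × List V) := by
  classical
  exact (bl hG o A).biUnion fun y => (fm hG (GR hG H S δ A L o) y L).image fun c => (y, c)

lemma mem_F0 {S A L : ℕ} {δ : ℝ} {q : V × List V} :
    q ∈ F0 hG H S δ A L ↔ GR hG H S δ A L o q.1 q.2 := by
  classical
  unfold F0
  simp only [Finset.mem_biUnion, Finset.mem_image, mem_fm]
  constructor
  · rintro ⟨y, -, c, ⟨-, -, h⟩, rfl⟩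
    exact h
  · intro h
    refine ⟨q.1, ?_, q.2, ⟨(GR_ch hG H h).2, (GR_ch hG H h).1.1, h⟩, rfl⟩
    obtain ⟨a, b, h1, B⟩ := h
    rw [mem_bl, ← h1]
    exact (dist_en_le o a ((ch_append _ _ _).1 B.sa.1).1).trans B.la

lemma wt_F0 (S : ℕ) (δ : ℝ) (A L : ℕ) (t : ℝ) :
    wt t (F0 hG H S δ A L) = ∑ y ∈ bl hG o A, lw t (fm hG (GR hG H S δ A L o) y L) := by
  classical
  unfold wt F0
  rw [Finset.sum_biUnion]
  · refine Finset.sum_congr rfl fun y _ => ?_
    rw [Finset.sum_image]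
    · rfl
    · intro c _ c' _ h
      exact (Prod.mk.inj h).2
  · intro y _ y' _ hne
    rw [Function.onFun, Finset.disjoint_left]
    rintro q hq hq'
    obtain ⟨c, -, rfl⟩ := Finset.mem_image.1 hq
    obtain ⟨c', -, h⟩ := Finset.mem_image.1 hq'
    exact hne (Prod.mk.inj h).1.symm

/-- the weight of all good cores is at most the number of roots times the weight of `F0` -/
lemma lw_GC_le {S A L : ℕ} {δ : ℝ} (hSR : S ≤ R) {t : ℝ} (ht : 0 ≤ t) (v : V) :
    lw t (fm hG (GC hG H S δ A L) v L) ≤ bb hG o A * wt t (F0 hG H S δ A L) := by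
  classical
  have h1 : fm hG (GC hG H S δ A L) v L ⊆
      (bl hG v A).biUnion fun z => fm hG (GR hG H S δ A L z) v L := by
    intro c hc
    rw [mem_fm] at hc
    obtain ⟨h1, h2, z, a, b, h3, B⟩ := hc
    rw [Finset.mem_biUnion]
    refine ⟨z, ?_, ?_⟩
    · rw [mem_bl, SimpleGraph.dist_comm, ← h3]
      exact (dist_en_le z a ((ch_append _ _ _).1 B.sa.1).1).trans B.la
    · rw [mem_fm]
      exact ⟨h1, h2, a, b, h3, B⟩
  refine (lw_mono ht h1).trans ((lw_biUnion ht _ _).trans ?_)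
  have h2 : ∀ z ∈ bl hG v A, lw t (fm hG (GR hG H S δ A L z) v L) ≤ wt t (F0 hG H S δ A L) := by
    intro z _
    set g := tau hG z o with hg
    have hgz : g z = o := tau_apply hG z o
    unfold lw wt
    have : ∑ s ∈ fm hG (GR hG H S δ A L z) v L, t ^ s.length =
        ∑ q ∈ (fm hG (GR hG H S δ A L z) v L).image (fun c => (g v, c.map g)), t ^ q.2.length := by
      rw [Finset.sum_image]
      · simp
      · intro c _ c' _ h
        exact (List.map_injective_iff.2 g.injective) (Prod.mk.inj h).2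
    rw [this]
    refine Finset.sum_le_sum_of_subset_of_nonneg ?_ fun _ _ _ => pow_nonneg ht _
    intro q hq
    obtain ⟨c, hc, rfl⟩ := Finset.mem_image.1 hq
    rw [mem_fm] at hc
    obtain ⟨-, -, a, b, h3, B⟩ := hc
    rw [mem_F0]
    refine ⟨a.map g, b.map g, ?_, ?_⟩
    · rw [← hgz, en_map, h3]
    · have := B.map hG H hSR g
      rwa [hgz] at this
  refine (Finset.sum_le_sum h2).trans ?_
  rw [Finset.sum_const, nsmul_eq_mul, card_bl hG v o]
  exact le_rfl

theorem init {m r S mlow κ Bl : ℕ} {t : ℝ} (ht : 0 < t) (hκ : 0 < κ)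
    (hS : S ≤ R) (hr : r ≤ R)
    (hb : 4 * ((m : ℝ) + 1) * S ≤ 1 / 128 * bb hG o r)
    (hBl : 4 * ((r : ℝ) * (r + 1) + (r * S + S * (r + 1) + S * S) / (1 / 128)) ≤ Bl)
    (hml : 4 * (r + 1) * (κ + 1 + Bl) ≤ mlow) (hmm : mlow ≤ m + 1) :
    Fam hG H S (1 / 64) r (m + 2 * r) o (fun _ => True) (F0 hG H S (1 / 64) r (m + 2 * r)) ∧
    (cnt (sa G) o m : ℝ) * t ^ m ≤ ((m / κ : ℕ) + 1) *
      (∑ k ∈ Finset.range (mlow + 1), (cnt (sa G) o k : ℝ) * t ^ k) ^ 2 *
      (max 1 (bb hG o r * wt t (F0 hG H S (1 / 64) r (m + 2 * r)))) ^ (m / κ) := by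
  classical
  refine ⟨fun q hq => ?_, ?_⟩
  · obtain ⟨a, b, h1, h2⟩ := (mem_F0 hG H).1 hq
    exact ⟨a, b, h1, h2, trivial⟩
  have hP : ∀ v c, GC hG H S (1 / 64) r (m + 2 * r) v c → sa G v c ∧ c.length ≤ m + 2 * r := by
    rintro v c ⟨z, a, b, h1, h2⟩
    exact GR_ch hG H ⟨a, b, h1, h2⟩
  refine count_peel hG o t ht (GC hG H S (1 / 64) r (m + 2 * r)) (m + 2 * r) hP _
    (le_max_left _ _) ?_ m mlow (m / κ) ?_
  · intro v
    rw [← lw_fm hG t _ (fun v c h => (hP v c h).1.1)]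
    exact (lw_GC_le hG H hS ht.le v).trans (le_max_right _ _)
  · intro s hs hlen
    have h2 : (2 : ℝ) * (1 / 128) = 1 / 64 := by norm_num
    have := peel hG H S r (1 / 128) (by norm_num) m mlow κ hκ ?_ o s hs hlen.le (by omega)
    · rw [h2] at this
      exact this
    · intro M hM1 hM2
      have hM2' : (M.card : ℝ) ≤ m + 1 := by exact_mod_cast hM2
      have hM1' : (mlow : ℝ) ≤ M.card := by exact_mod_cast hM1
      obtain ⟨E, hE1, hE2, hE3⟩ := expo hG H S r hS hr (1 / 128) (by norm_num) M (by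
        refine le_trans ?_ hb
        have : (0 : ℝ) ≤ S := Nat.cast_nonneg S
        nlinarith)
      have hml' : (4 : ℝ) * (r + 1) * (κ + 1 + Bl) ≤ mlow := by exact_mod_cast hml
      have hEc : (2 : ℝ) * (κ + 1 + Bl) ≤ E.card := by
        have h3 : (4 : ℝ) * (r + 1) * (κ + 1 + Bl) ≤ 2 * (r + 1) * E.card := by linarith
        have h4 : (0 : ℝ) < 2 * ((r : ℝ) + 1) := by positivity
        have h5 : 2 * ((r : ℝ) + 1) * (2 * (κ + 1 + Bl)) ≤ 2 * (r + 1) * E.card := by linarith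
        exact le_of_mul_le_mul_left h5 h4
      have hEc' : 2 * (κ + 1 + Bl) ≤ E.card := by exact_mod_cast hEc
      refine ⟨E, hE1, Bl, by omega, hEc', fun y1 α1 hα => ?_⟩
      obtain ⟨B, hB1, hB2, hB3⟩ := hE3 y1 α1 hα
      refine ⟨B, hB1, ?_, hB3⟩
      have : (B.card : ℝ) ≤ Bl := hB2.trans hBl
      exact_mod_cast this

end Pool.H98.C
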