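import Pool.Agent.H98.C.Basic

set_option autoImplicit false

/-! Deterministic concatenations with loop erasure. -/

namespace Pool.H98.C

open Pool.Agent.H61.SW

variable {V : Type} {G : SimpleGraph V}

lemma nodup_three {A B C : List V} (hA : A.Nodup) (hB : B.Nodup) (hC : C.Nodup)
    (h1 : ∀ x ∈ A, x ∉ B) (h2 : ∀ x ∈ A, x ∉ C) (h3 : ∀ x ∈ B, x ∉ C) :
    (A ++ (B ++ C)).Nodup := by
  rw [List.nodup_append, List.nodup_append]
  refine ⟨hA, ⟨hB, hC, ?_⟩, ?_⟩
  · rintro a ha b hb rfl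
    exact h3 a ha hb
  · rintro a ha b hb rfl
    rcases List.mem_append.1 hb with hb | hb
    · exact h1 a ha hb
    · exact h2 a ha hb

theorem join_det {z1 z2 : V} {a1 c1 b1 a2 c2 b2 κ : List V} {g : G ≃g G}
    (h1 : sa G z1 (a1 ++ (c1 ++ b1))) (h2 : sa G z2 (a2 ++ (c2 ++ b2)))
    (hκ : ch G (en z1 (a1 ++ (c1 ++ b1))) κ)
    (hκe : en (en z1 (a1 ++ (c1 ++ b1))) κ = g z2)
    (D1 : ∀ x ∈ κ, x ∉ z1 :: (a1 ++ c1))
    (D2 : ∀ x ∈ κ, x = g z2 ∨ ∀ y ∈ en z2 a2 :: (c2 ++ b2), x ≠ g y)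
    (D3 : ∀ x ∈ z1 :: (a1 ++ (c1 ++ b1)), ∀ y ∈ z2 :: (a2 ++ (c2 ++ b2)), x ≠ g y) :
    ∃ π : List V, π.length ≤ b1.length + κ.length + a2.length ∧
      (∀ x ∈ π, x ∈ b1 ∨ x ∈ κ ∨ ∃ y ∈ a2, x = g y) ∧
      en (en z1 (a1 ++ c1)) π = g (en z2 a2) ∧
      sa G z1 (a1 ++ ((c1 ++ (π ++ c2.map g)) ++ b2.map g)) ∧
      en z1 (a1 ++ ((c1 ++ (π ++ c2.map g)) ++ b2.map g)) = g (en z2 (a2 ++ (c2 ++ b2))) := by
  have hs1 : a1 ++ (c1 ++ b1) = (a1 ++ c1) ++ b1 := by simp
  have hs2 : a2 ++ (c2 ++ b2) = a2 ++ (c2 ++ b2) := rfl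
  set m1 := en z1 (a1 ++ c1) with hm1
  -- the walk to be loop-erased
  have hch1 : ch G m1 b1 := by
    have := h1.1
    rw [hs1, ch_append] at this
    exact this.2
  have hu : en z1 (a1 ++ (c1 ++ b1)) = en m1 b1 := by rw [hs1, en_append]
  have hch2 : ch G z2 a2 := ((ch_append _ _ _).1 h2.1).1
  have hw : ch G m1 (b1 ++ (κ ++ a2.map g)) := by
    rw [ch_append, ch_append, ← hu, hκe]
    exact ⟨hch1, hκ, (ch_map g z2 a2).2 hch2⟩
  have hwe : en m1 (b1 ++ (κ ++ a2.map g)) = g (en z2 a2) := by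
    rw [en_append, en_append, ← hu, hκe, en_map]
  obtain ⟨π, p1, p2, p3, p4⟩ := loop_erase m1 _ hw
  have pmem : ∀ x ∈ π, x ∈ b1 ∨ x ∈ κ ∨ ∃ y ∈ a2, x = g y := by
    intro x hx
    rcases List.mem_append.1 (p4 x hx) with h | h
    · exact Or.inl h
    rcases List.mem_append.1 h with h | h
    · exact Or.inr (Or.inl h)
    · obtain ⟨y, hy, rfl⟩ := List.mem_map.1 h
      exact Or.inr (Or.inr ⟨y, hy, rfl⟩)
  have hπe : en m1 π = g (en z2 a2) := p2.trans hwe
  have nd1 : ((z1 :: (a1 ++ c1)) ++ b1).Nodup := by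
    have := h1.2
    rw [hs1] at this
    simpa using this
  have nd2 : ((z2 :: a2) ++ (c2 ++ b2)).Nodup := by simpa using h2.2
  rw [List.nodup_append] at nd1 nd2
  refine ⟨π, ?_, pmem, hπe, ⟨?_, ?_⟩, ?_⟩
  · have : (b1 ++ (κ ++ a2.map g)).length = b1.length + κ.length + a2.length := by
      simp; omega
    omega
  · have e : a1 ++ ((c1 ++ (π ++ c2.map g)) ++ b2.map g) =
        (a1 ++ c1) ++ (π ++ (c2 ++ b2).map g) := by simp
    rw [e]
    refine (ch_append _ _ _).2 ⟨?_, (ch_append _ _ _).2 ⟨p1.1, ?_⟩⟩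
    · have := h1.1
      rw [hs1, ch_append] at this
      exact this.1
    · rw [← hm1, hπe]
      exact (ch_map g _ _).2 ((ch_append _ _ _).1 h2.1).2
  · have e : z1 :: (a1 ++ ((c1 ++ (π ++ c2.map g)) ++ b2.map g)) =
        (z1 :: (a1 ++ c1)) ++ (π ++ (c2 ++ b2).map g) := by simp
    rw [e]
    refine nodup_three nd1.1 (List.nodup_cons.1 p1.2).2 (nd2.2.1.map g.injective) ?_ ?_ ?_
    · intro x hx hxπ
      rcases pmem x hxπ with h | h | ⟨y, hy, rfl⟩
      · exact nd1.2.2 x hx x h rfl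
      · exact D1 x h hx
      · refine D3 _ ?_ y (by simp [hy]) rfl
        rcases List.mem_cons.1 hx with h | h
        · simp [h]
        · rcases List.mem_append.1 h with h | h <;> simp [h]
    · intro x hx hxc
      obtain ⟨y, hy, rfl⟩ := List.mem_map.1 hxc
      refine D3 _ ?_ y ?_ rfl
      · rcases List.mem_cons.1 hx with h | h
        · simp [h]
        · rcases List.mem_append.1 h with h | h <;> simp [h]
      · rcases List.mem_append.1 hy with h | h <;> simp [h]
    · intro x hx hxc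
      obtain ⟨y, hy, rfl⟩ := List.mem_map.1 hxc
      rcases pmem _ hx with h | h | ⟨y', hy', hyy⟩
      · refine D3 (g y) (by simp [h]) y ?_ rfl
        rcases List.mem_append.1 hy with h | h <;> simp [h]
      · rcases D2 _ h with h | h
        · have hz : y = z2 := g.injective h
          subst hz
          exact nd2.2.2 y (by simp) y hy rfl
        · exact h y (List.mem_cons_of_mem _ hy) rfl
      · have hz : y = y' := g.injective hyy
        subst hz
        exact nd2.2.2 y (by simp [hy']) y hy rfl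
  · have e : a1 ++ ((c1 ++ (π ++ c2.map g)) ++ b2.map g) =
        (a1 ++ c1) ++ (π ++ (c2 ++ b2).map g) := by simp
    rw [e, en_append, en_append, ← hm1, hπe, en_map, en_append z2 a2]

theorem raise_det {z : V} {a c b p q : List V} (h : sa G z (a ++ (c ++ b)))
    (hp : ch G z p) (hq : ch G (en z (a ++ (c ++ b))) q)
    (D1 : ∀ x ∈ p, x ∉ en z a :: (c ++ b)) (D2 : ∀ x ∈ q, x ∉ z :: (a ++ c))
    (D3 : ∀ x ∈ p, x ∉ q) :
    ∃ a' b' : List V, en (en z p) a' = en z a ∧ a'.length ≤ p.length + a.length ∧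
      b'.length ≤ b.length + q.length ∧ sa G (en z p) (a' ++ (c ++ b')) ∧
      en (en z p) (a' ++ (c ++ b')) = en (en z (a ++ (c ++ b))) q ∧
      (∀ x ∈ en z p :: a', x ∈ z :: a ∨ x ∈ p) ∧ (∀ x ∈ b', x ∈ b ∨ x ∈ q) := by
  have hcha : ch G z a := ((ch_append _ _ _).1 h.1).1
  have hchcb : ch G (en z a) (c ++ b) := ((ch_append _ _ _).1 h.1).2
  have hchc : ch G (en z a) c := ((ch_append _ _ _).1 hchcb).1
  have hchb : ch G (en (en z a) c) b := ((ch_append _ _ _).1 hchcb).2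
  have hw1 : ch G (en z p) (rv z p ++ a) := by
    rw [ch_append, en_rv]
    exact ⟨ch_rv z p hp, hcha⟩
  obtain ⟨a', A1, A2, A3, A4⟩ := loop_erase (en z p) _ hw1
  rw [en_append, en_rv] at A2
  have hq' : ch G (en (en (en z a) c) b) q := by
    rw [← en_append, ← en_append]
    exact hq
  have hw2 : ch G (en (en z a) c) (b ++ q) := by
    rw [ch_append]
    exact ⟨hchb, hq'⟩
  obtain ⟨b', B1, B2, B3, B4⟩ := loop_erase (en (en z a) c) _ hw2
  have memA : ∀ x ∈ en z p :: a', x ∈ z :: a ∨ x ∈ p := by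
    have hzp : ∀ x ∈ en z p :: rv z p, x ∈ z :: a ∨ x ∈ p := by
      intro x hx
      rcases List.mem_cons.1 (mem_rv.1 hx) with rfl | hx
      · exact Or.inl (by simp)
      · exact Or.inr hx
    intro x hx
    rcases List.mem_cons.1 hx with rfl | hx
    · exact hzp _ (by simp)
    · rcases List.mem_append.1 (A4 x hx) with hx | hx
      · exact hzp _ (List.mem_cons_of_mem _ hx)
      · exact Or.inl (List.mem_cons_of_mem _ hx)
  have memB : ∀ x ∈ b', x ∈ b ∨ x ∈ q := fun x hx => List.mem_append.1 (B4 x hx)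
  have nd : ((z :: a) ++ (c ++ b)).Nodup := by simpa using h.2
  rw [List.nodup_append, List.nodup_append] at nd
  obtain ⟨n1, ⟨n2, n3, n4⟩, n5⟩ := nd
  refine ⟨a', b', A2, ?_, ?_, ⟨?_, ?_⟩, ?_, memA, memB⟩
  · have := A3
    rw [List.length_append, length_rv] at this
    exact this
  · simpa using B3
  · rw [ch_append, ch_append, A2]
    exact ⟨A1.1, hchc, B1.1⟩
  · have e : en z p :: (a' ++ (c ++ b')) = (en z p :: a') ++ (c ++ b') := by simp
    rw [e]
    refine nodup_three A1.2 n2 (List.nodup_cons.1 B1.2).2 ?_ ?_ ?_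
    · intro x hx hxc
      rcases memA x hx with hx | hx
      · exact n5 x hx x (List.mem_append_left _ hxc) rfl
      · exact D1 x hx (by simp [hxc])
    · intro x hx hxb
      rcases memA x hx with hx | hx
      · rcases memB x hxb with hxb | hxb
        · exact n5 x hx x (List.mem_append_right _ hxb) rfl
        · refine D2 x hxb ?_
          rcases List.mem_cons.1 hx with h | h <;> simp [h]
      · rcases memB x hxb with hxb | hxb
        · exact D1 x hx (by simp [hxb])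
        · exact D3 x hx hxb
    · intro x hx hxb
      rcases memB x hxb with hxb | hxb
      · exact n4 x hx x hxb rfl
      · exact D2 x hxb (by simp [hx])
  · rw [en_append, A2, en_append, B2, en_append, ← en_append (en z a) c b, ← en_append z a (c ++ b)]

end Pool.H98.C
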