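import Pool.Agent.H98.C.Init

set_option autoImplicit false

/-! Levels: two merges, then raise the scale by a factor 2. -/

namespace Pool.H98.C

open Finset Pool.Agent.H61.SW

variable {V : Type} {G : SimpleGraph V} {o : V} {R : ℕ} (hG : TG G) (H : Homog G o R)

lemma Fam.mono {S A A' L L' : ℕ} {δ δ' : ℝ} {z : V} {P P' : List V → Prop}
    {F : Finset (V × List V)} (h : Fam hG H S δ A L z P F) (hδ : δ ≤ δ') (hA : A ≤ A')
    (hL : L ≤ L') (hP : ∀ s, P s → P' s) : Fam hG H S δ' A' L' z P' F := by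
  intro q hq
  obtain ⟨a, b, h1, B, h2⟩ := h q hq
  exact ⟨a, b, h1, ⟨B.sa, B.hs.trans hδ, B.he.trans hδ, B.qq.trans hδ, B.la.trans hA,
    B.lb.trans hA, B.ll.trans hL⟩, hP _ h2⟩

lemma bb_mono {r r' : ℕ} (h : r ≤ r') : bb hG o r ≤ bb hG o r' := by
  unfold bb
  have : bl hG o r ⊆ bl hG o r' := fun x hx => by
    rw [mem_bl] at hx ⊢; omega
  exact_mod_cast Finset.card_le_card this

/-- logarithmic form of the merge inequality -/
lemma merge_log {Z1 Z2 Z' t p l x y lam : ℝ} {n : ℕ} (hp : 0 < p) (hl : 0 < l)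
    (ht : t = Real.exp (-lam)) (h1 : Real.exp x ≤ Z1) (h2 : Real.exp y ≤ Z2)
    (h : p / 2 * (Z1 * Z2) * t ^ n ≤ l ^ 2 * Z') :
    Real.exp (x + y + Real.log (p / 2) - n * lam - 2 * Real.log l) ≤ Z' := by
  have hp2 : 0 < p / 2 := by positivity
  have e1 : Real.exp (x + y + Real.log (p / 2) - n * lam - 2 * Real.log l) =
      (p / 2 * (Real.exp x * Real.exp y) * t ^ n) / l ^ 2 := by
    rw [Real.exp_sub, Real.exp_sub, Real.exp_add, Real.exp_add, Real.exp_log hp2, ht,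
      ← Real.exp_nat_mul, mul_neg, Real.exp_neg, two_mul, Real.exp_add, Real.exp_log hl]
    field_simp
  rw [e1, div_le_iff₀ (by positivity)]
  refine le_trans ?_ (h.trans (le_of_eq (mul_comm _ _)))
  have hx := Real.exp_pos x
  have hy := Real.exp_pos y
  have ht0 : 0 ≤ t ^ n := by rw [ht]; positivity
  refine mul_le_mul_of_nonneg_right ?_ ht0
  refine mul_le_mul_of_nonneg_left ?_ hp2.le
  exact mul_le_mul h1 h2 hy.le (hx.le.trans h1)

/-- numerical facts for one level: `S = 2^j N^13`, `Λ = 4^j N^25` -/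
lemma num_level {c b : ℝ} {N j S Λ : ℕ} (hc : 0 < c) (hS : S = 2 ^ j * N ^ 13)
    (hΛ : Λ = 4 ^ j * N ^ 25) (hN : 40000 ≤ N) (hcN : 1000 ≤ c * N) (hb : c * (S : ℝ) ^ 5 ≤ b) :
    (Λ : ℝ) * Λ * (1 / b) ≤ 1 / (1000 * N) ∧ (S : ℝ) * Λ * (1 / b) ≤ 1 / (1000 * N) := by
  have hN0 : (0 : ℝ) < N := by
    have : 0 < N := by omega
    exact_mod_cast this
  have hN1 : (1 : ℝ) ≤ N := by
    have : 1 ≤ N := by omega
    exact_mod_cast this
  have h2 : (1 : ℝ) ≤ 2 ^ j := one_le_pow₀ (by norm_num)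
  have hS0 : (0 : ℝ) < S := by rw [hS]; push_cast; positivity
  have hb0 : 0 < c * (S : ℝ) ^ 5 := by positivity
  have hβ : 1 / b ≤ 1 / (c * (S : ℝ) ^ 5) := one_div_le_one_div_of_le hb0 hb
  have e4 : (4 : ℝ) ^ j = 2 ^ j * 2 ^ j := by
    rw [← mul_pow]; norm_num
  have hSr : (S : ℝ) = 2 ^ j * N ^ 13 := by rw [hS]; push_cast; ring
  have hΛr : (Λ : ℝ) = 2 ^ j * 2 ^ j * N ^ 25 := by rw [hΛ]; push_cast; rw [e4]
  have key1 : (Λ : ℝ) * Λ * (1 / (c * (S : ℝ) ^ 5)) = 1 / (c * 2 ^ j * N ^ 15) := by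
    rw [hSr, hΛr]
    field_simp
  have key2 : (S : ℝ) * Λ * (1 / (c * (S : ℝ) ^ 5)) = 1 / (c * (2 ^ j * 2 ^ j) * N ^ 27) := by
    rw [hSr, hΛr]
    field_simp
  have hNp : ∀ k : ℕ, 2 ≤ k → (N : ℝ) * N ≤ (N : ℝ) ^ k := by
    intro k hk
    calc (N : ℝ) * N = (N : ℝ) ^ 2 := by ring
      _ ≤ (N : ℝ) ^ k := pow_le_pow_right₀ hN1 hk
  constructor
  · calc (Λ : ℝ) * Λ * (1 / b) ≤ (Λ : ℝ) * Λ * (1 / (c * (S : ℝ) ^ 5)) :=
          mul_le_mul_of_nonneg_left hβ (by positivity)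
      _ = 1 / (c * 2 ^ j * N ^ 15) := key1
      _ ≤ 1 / (1000 * N) := by
        apply one_div_le_one_div_of_le (by positivity)
        have h3 := hNp 15 (by norm_num)
        calc 1000 * (N : ℝ) ≤ (c * N) * N := mul_le_mul_of_nonneg_right hcN hN0.le
          _ = c * 1 * (N * N) := by ring
          _ ≤ c * 2 ^ j * N ^ 15 := by gcongr
  · calc (S : ℝ) * Λ * (1 / b) ≤ (S : ℝ) * Λ * (1 / (c * (S : ℝ) ^ 5)) :=
          mul_le_mul_of_nonneg_left hβ (by positivity)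
      _ = 1 / (c * (2 ^ j * 2 ^ j) * N ^ 27) := key2
      _ ≤ 1 / (1000 * N) := by
        apply one_div_le_one_div_of_le (by positivity)
        have h3 := hNp 27 (by norm_num)
        have h4 : (1 : ℝ) ≤ 2 ^ j * 2 ^ j := one_le_mul_of_one_le_of_one_le h2 h2
        calc 1000 * (N : ℝ) ≤ (c * N) * N := mul_le_mul_of_nonneg_right hcN hN0.le
          _ = c * 1 * (N * N) := by ring
          _ ≤ c * (2 ^ j * 2 ^ j) * N ^ 27 := by gcongr

/-- one level: two merges and a raise -/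
theorem level_step {N j S L Λ : ℕ} {c t lam x : ℝ} (hc : 0 < c) (hlam : 0 < lam)
    (ht : t = Real.exp (-lam)) (hS : S = 2 ^ j * N ^ 13)
    (hΛ : Λ = 4 ^ j * N ^ 25) (hN : 40000 ≤ N) (hcN : 1000 ≤ c * N)
    (hb : c * (S : ℝ) ^ 5 ≤ bb hG o S) (hL : L + 4 * S ≤ Λ) (hR : 8 * Λ ≤ R)
    (z : V) (F : Finset (V × List V))
    (hF : Fam hG H S (1 / N) S L z (fun _ => True) F) (hx : Real.exp x ≤ wt t F) :
    ∃ (z' : V) (F' : Finset (V × List V)),
      Fam hG H (2 * S) (1 / N) (2 * S) (4 * L + 8 * S) z' (fun _ => True) F' ∧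
      Real.exp (4 * x - 12 * S * lam - 6 * Real.log (4 * Λ) - 4) ≤ wt t F' := by
  obtain ⟨n1, n2⟩ := num_level hc hS hΛ hN hcN hb
  set β : ℝ := 1 / bb hG o S with hβ
  have hβ0 : 0 < β := by have := bb_pos hG (o := o) S; positivity
  have hN0 : (0 : ℝ) < N := by
    have : 0 < N := by omega
    exact_mod_cast this
  have hN4 : (40000 : ℝ) ≤ N := by exact_mod_cast hN
  have hNi : 1 / (N : ℝ) ≤ 1 / 40000 := one_div_le_one_div_of_le (by norm_num) hN4
  have hNi0 : 0 < 1 / (N : ℝ) := by positivity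
  have hS1 : 1 ≤ S := by
    rw [hS]
    have h1 : 1 ≤ 2 ^ j := Nat.one_le_two_pow
    have h2 : 1 ≤ N ^ 13 := Nat.one_le_pow _ _ (by omega)
    exact Nat.one_le_iff_ne_zero.2 (by positivity)
  have hSr : (1 : ℝ) ≤ S := by exact_mod_cast hS1
  have hΛr : (L : ℝ) + 4 * S ≤ Λ := by exact_mod_cast hL
  have hL0 : (0 : ℝ) ≤ L := Nat.cast_nonneg L
  have ht0 : 0 < t := by rw [ht]; exact Real.exp_pos _
  have ht1 : t ≤ 1 := by rw [ht]; exact Real.exp_le_one_iff.2 (by linarith)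
  have n1' : 1 / (1000 * (N : ℝ)) = (1 / N) / 1000 := by field_simp
  rw [n1'] at n1 n2
  -- first merge
  obtain ⟨ω1, F1, hF1, hw1⟩ := merge (δ' := 33 * (1 / N)) (p := 1) (M := 16) hG H ht0 ht1 hNi0
    (by norm_num) (by omega) z z (fun _ => True) (fun _ => True) F F hF hF (fun _ _ => True)
    (fun s _ => (Pr_true _ fun _ => trivial).ge) (by
      have h1 : (((L : ℝ) + 1) * (L + 1 + S) + S * (L + 1)) * β ≤ (Λ * Λ + Λ * Λ) * β := by
        refine mul_le_mul_of_nonneg_right ?_ hβ0.le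
        have : (S : ℝ) ≤ Λ := by linarith
        gcongr <;> linarith
      have h2 : (Λ * Λ + Λ * Λ) * β = 2 * ((Λ : ℝ) * Λ * β) := by ring
      linarith) (by
      have h1 : (S : ℝ) * (L + 1 + S) * β ≤ S * Λ * β := by
        gcongr; linarith
      linarith)
  have hF1' : Fam hG H S (33 * (1 / N)) S (2 * L + 2 * S) z (fun _ => True) F1 :=
    hF1.mono hG H le_rfl le_rfl le_rfl fun _ _ => trivial
  have hz1 := merge_log (by norm_num) (by positivity) ht hx hx hw1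
  -- second merge
  obtain ⟨ω2, F2, hF2, hw2⟩ := merge (δ' := 600 * (1 / N)) (p := 1) (M := 16) hG H ht0 ht1
    (by positivity) (by norm_num) (by omega) z z (fun _ => True) (fun _ => True) F1 F1 hF1' hF1'
    (fun _ _ => True) (fun s _ => (Pr_true _ fun _ => trivial).ge) (by
      push_cast
      have h1 : (((2 * L + 2 * S : ℝ) + 1) * (2 * L + 2 * S + 1 + S) + S * (2 * L + 2 * S + 1)) * β ≤
          ((2 * Λ) * (2 * Λ) + Λ * (2 * Λ)) * β := by
        refine mul_le_mul_of_nonneg_right ?_ hβ0.le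
        have : (S : ℝ) ≤ Λ := by linarith
        gcongr <;> linarith
      have h2 : ((2 * Λ) * (2 * Λ) + Λ * (2 * Λ)) * β = 6 * ((Λ : ℝ) * Λ * β) := by ring
      linarith) (by
      push_cast
      have h1 : (S : ℝ) * (2 * L + 2 * S + 1 + S) * β ≤ S * (2 * Λ) * β := by
        gcongr; linarith
      have h2 : (S : ℝ) * (2 * Λ) * β = 2 * (S * Λ * β) := by ring
      linarith)
  have hF2' : Fam hG H S (600 * (1 / N)) S (2 * (2 * L + 2 * S) + 2 * S) z (fun _ => True) F2 :=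
    hF2.mono hG H le_rfl le_rfl le_rfl fun _ _ => trivial
  have hz2 := merge_log (by norm_num) (by positivity) ht hz1 hz1 hw2
  -- raise
  obtain ⟨ω3, F3, hF3, hw3⟩ := raise (S' := 2 * S) (δ' := 1 / N) (t := t) (M := 16) hG H ht0
    (by norm_num) (by omega) (by omega) z (fun _ => True) F2 hF2' (by linarith) (by
      push_cast
      have h1 : 16 * ((2 * S : ℝ) * (2 * (2 * L + 2 * S) + 2 * S + 1 + S + 2 * S) * β) ≤
          16 * (2 * S * (4 * Λ) * β) := by
        gcongr; linarith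
      have h2 : 16 * (2 * S * (4 * Λ) * β) = 128 * ((S : ℝ) * Λ * β) := by ring
      linarith)
  refine ⟨_, F3, hF3.mono hG H le_rfl (by omega) (by omega) fun _ _ => trivial, ?_⟩
  have hz3 : Real.exp (x + x + Real.log (1 / 2) - ((2 * S + 2 * S : ℕ) : ℝ) * lam -
      2 * Real.log (2 * L + 2 * S + 1) + (x + x + Real.log (1 / 2) - ((2 * S + 2 * S : ℕ) : ℝ) * lam -
      2 * Real.log (2 * L + 2 * S + 1)) + Real.log (1 / 2) - ((2 * S + 2 * S : ℕ) : ℝ) * lam -
      2 * Real.log (2 * ((2 * L + 2 * S : ℕ) : ℝ) + 2 * S + 1) - Real.log 2) ≤ wt t F3 := by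
    rw [Real.exp_sub, Real.exp_log (by norm_num), div_le_iff₀ (by norm_num)]
    linarith
  refine le_trans (Real.exp_le_exp.2 ?_) hz3
  have hlog2 : Real.log 2 ≤ 1 := by
    have := Real.log_le_sub_one_of_pos (show (0 : ℝ) < 2 by norm_num)
    linarith
  have hlh : Real.log (1 / 2) = - Real.log 2 := by
    rw [one_div, Real.log_inv]
  have l1 : Real.log (2 * L + 2 * S + 1) ≤ Real.log (4 * Λ) :=
    Real.log_le_log (by positivity) (by linarith)
  have l2 : Real.log (2 * ((2 * L + 2 * S : ℕ) : ℝ) + 2 * S + 1) ≤ Real.log (4 * Λ) :=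
    Real.log_le_log (by positivity) (by push_cast; linarith)
  rw [hlh]
  push_cast
  push_cast at l2
  nlinarith

end Pool.H98.C
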