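import Pool.Agent.H98.C.Level

set_option autoImplicit false

/-! Iteration of the levels and the first level. -/

namespace Pool.H98.C

open Finset Pool.Agent.H61.SW

variable {V : Type} {G : SimpleGraph V} {o : V} {R : ℕ} (hG : TG G) (H : Homog G o R)

lemma cost_le {N j : ℕ} {lam : ℝ} (hN : 40000 ≤ N) :
    12 * (2 ^ j * (N : ℝ) ^ 13) * lam + 6 * Real.log (4 * (4 ^ j * (N : ℝ) ^ 25)) + 4 ≤
      2 ^ j * ((12 * lam + 1) * (N : ℝ) ^ 13) := by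
  have hN4 : (40000 : ℝ) ≤ N := by exact_mod_cast hN
  have hN0 : (0 : ℝ) < N := by linarith
  have hN1 : (1 : ℝ) ≤ N := by linarith
  have h2 : (1 : ℝ) ≤ 2 ^ j := one_le_pow₀ (by norm_num)
  have e1 : Real.log (4 * (4 ^ j * (N : ℝ) ^ 25)) = (j + 1) * Real.log 4 + 25 * Real.log N := by
    rw [Real.log_mul (by norm_num) (by positivity), Real.log_mul (by positivity) (by positivity),
      Real.log_pow, Real.log_pow]
    push_cast
    ring
  have h4 : Real.log 4 ≤ 3 := by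
    have := Real.log_le_sub_one_of_pos (show (0 : ℝ) < 4 by norm_num)
    linarith
  have h5 : Real.log N ≤ N := by
    have := Real.log_le_sub_one_of_pos hN0
    linarith
  have hj : (j : ℝ) + 1 ≤ 2 ^ j := by
    have : j + 1 ≤ 2 ^ j := Nat.lt_two_pow_self
    exact_mod_cast this
  have h13 : 40000 * (N : ℝ) ≤ (N : ℝ) ^ 13 := by
    calc 40000 * (N : ℝ) ≤ N * N := mul_le_mul_of_nonneg_right hN4 hN0.le
      _ = (N : ℝ) ^ 2 := by ring
      _ ≤ (N : ℝ) ^ 13 := pow_le_pow_right₀ hN1 (by norm_num)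
  rw [e1]
  have h6 : ((j : ℝ) + 1) * Real.log 4 ≤ 2 ^ j * 3 := by
    have : 0 ≤ Real.log 4 := Real.log_nonneg (by norm_num)
    have h7 : (0 : ℝ) ≤ (j : ℝ) + 1 := by positivity
    nlinarith
  have h8 : 6 * (((j : ℝ) + 1) * Real.log 4 + 25 * Real.log N) + 4 ≤ 2 ^ j * (N : ℝ) ^ 13 := by
    have h9 : 2 ^ j * (18 + 150 * (N : ℝ) + 4) ≤ 2 ^ j * (N : ℝ) ^ 13 :=
      mul_le_mul_of_nonneg_left (by linarith) (by positivity)
    nlinarith
  nlinarith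

theorem levels {N : ℕ} {c t lam X : ℝ} (hc : 0 < c) (hlam : 0 < lam)
    (ht : t = Real.exp (-lam)) (hN : 40000 ≤ N) (hcN : 1000 ≤ c * N)
    (hbase : ∃ (z : V) (F : Finset (V × List V)) (L : ℕ),
      L + 4 * (2 ^ 1 * N ^ 13) ≤ 4 ^ 1 * N ^ 25 ∧
      Fam hG H (2 ^ 1 * N ^ 13) (1 / N) (2 ^ 1 * N ^ 13) L z (fun _ => True) F ∧
      Real.exp (4 * X + (12 * lam + 1) * N ^ 13) ≤ wt t F) (j : ℕ) (hj : 1 ≤ j)
    (hgr : ∀ i, 1 ≤ i → i < j →
      c * ((2 ^ i * N ^ 13 : ℕ) : ℝ) ^ 5 ≤ bb hG o (2 ^ i * N ^ 13))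
    (hR : 8 * (4 ^ j * N ^ 25) ≤ R) :
    ∃ (z : V) (F : Finset (V × List V)) (L : ℕ),
      L + 4 * (2 ^ j * N ^ 13) ≤ 4 ^ j * N ^ 25 ∧
      Fam hG H (2 ^ j * N ^ 13) (1 / N) (2 ^ j * N ^ 13) L z (fun _ => True) F ∧
      Real.exp (4 ^ j * X + 2 ^ j / 2 * ((12 * lam + 1) * N ^ 13)) ≤ wt t F := by
  induction j, hj using Nat.le_induction with
  | base =>
    obtain ⟨z, F, L, h1, h2, h3⟩ := hbase
    refine ⟨z, F, L, h1, h2, le_trans (Real.exp_le_exp.2 (le_of_eq ?_)) h3⟩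
    ring
  | succ j hj ih =>
    have hpow : 4 ^ (j + 1) * N ^ 25 = 4 * (4 ^ j * N ^ 25) := by ring
    obtain ⟨z, F, L, h1, h2, h3⟩ := ih (fun i hi hij => hgr i hi (by omega)) (by omega)
    obtain ⟨z', F', h4, h5⟩ := level_step hG H hc hlam ht rfl rfl hN hcN
      (hgr j hj (by omega)) h1 (by omega) z F h2 h3
    have e2 : 2 ^ (j + 1) * N ^ 13 = 2 * (2 ^ j * N ^ 13) := by ring
    refine ⟨z', F', 4 * L + 8 * (2 ^ j * N ^ 13), ?_, ?_, ?_⟩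
    · rw [e2, hpow]; omega
    · rw [e2]; exact h4
    · refine le_trans (Real.exp_le_exp.2 ?_) h5
      have hcost := cost_le (j := j) (lam := lam) hN
      push_cast
      have e3 : (4 : ℝ) ^ (j + 1) = 4 * 4 ^ j := by ring
      have e4 : (2 : ℝ) ^ (j + 1) = 2 * 2 ^ j := by ring
      rw [e3, e4]
      linarith

/-- counts and balls -/
lemma bb_le {Δ : ℝ} (hΔ : 1 ≤ Δ) (hcnt : ∀ k, (cnt (sa G) o k : ℝ) ≤ Δ ^ k) (r : ℕ) :
    bb hG o r ≤ (r + 1) * Δ ^ r := by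
  classical
  have h1 : bl hG o r ⊆ (fm hG (sa G) o r).image (fun s => en o s) := by
    intro y hy
    rw [mem_bl] at hy
    rw [Finset.mem_image]
    refine ⟨geo hG o y, ?_, en_geo hG o y⟩
    rw [mem_fm]
    exact ⟨by rw [length_geo]; exact hy, ch_geo hG o y, ch_geo hG o y, nodup_geo hG o y⟩
  have h2 : ((fm hG (sa G) o r).card : ℝ) = lw 1 (fm hG (sa G) o r) := by
    simp [lw]
  have h3 : bb hG o r ≤ ((fm hG (sa G) o r).card : ℝ) := by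
    unfold bb
    exact_mod_cast (Finset.card_le_card h1).trans Finset.card_image_le
  rw [h2, lw_fm hG 1 (sa G) (fun _ _ h => h.1)] at h3
  refine h3.trans ?_
  have h4 : ∀ k ∈ Finset.range (r + 1), (cnt (sa G) o k : ℝ) * 1 ^ k ≤ Δ ^ r := by
    intro k hk
    rw [one_pow, mul_one]
    exact (hcnt k).trans (pow_le_pow_right₀ hΔ (by rw [Finset.mem_range] at hk; omega))
  refine (Finset.sum_le_sum h4).trans (le_of_eq ?_)
  simp

/-- numerical facts for the first level -/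
lemma num_base {N : ℕ} (hN : 40000 ≤ N) :
    4 * (N ^ 7 + 1) * (N ^ 16 + 1 + 1000 * N ^ 16) ≤ N ^ 24 ∧ N ^ 24 ≤ N ^ 25 + 1 ∧
    N ^ 25 + 2 * N ^ 7 + 2 * N ^ 8 + 4 * (2 ^ 1 * N ^ 13) ≤ 4 ^ 1 * N ^ 25 ∧
    N ^ 7 + N ^ 8 ≤ 2 ^ 1 * N ^ 13 ∧ N ^ 25 / N ^ 16 = N ^ 9 := by
  have h1 : 1 ≤ N := by omega
  have hp : ∀ k, 1 ≤ N ^ k := fun k => Nat.one_le_pow _ _ h1
  have hm : ∀ j k, j ≤ k → N ^ j ≤ N ^ k := fun j k h => Nat.pow_le_pow_right h1 h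
  have hs : ∀ j k, j < k → 40000 * N ^ j ≤ N ^ k := by
    intro j k h
    calc 40000 * N ^ j ≤ N * N ^ j := Nat.mul_le_mul_right _ hN
      _ = N ^ (j + 1) := by ring
      _ ≤ N ^ k := hm _ _ h
  refine ⟨?_, ?_, ?_, ?_, ?_⟩
  · have a1 : N ^ 7 + 1 ≤ 2 * N ^ 7 := by have := hp 7; omega
    have a2 : N ^ 16 + 1 + 1000 * N ^ 16 ≤ 1002 * N ^ 16 := by have := hp 16; omega
    calc 4 * (N ^ 7 + 1) * (N ^ 16 + 1 + 1000 * N ^ 16)
        ≤ 4 * (2 * N ^ 7) * (1002 * N ^ 16) :=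
          Nat.mul_le_mul (Nat.mul_le_mul_left _ a1) a2
      _ = 8016 * N ^ 23 := by ring
      _ ≤ 40000 * N ^ 23 := by omega
      _ ≤ N ^ 24 := hs 23 24 (by norm_num)
  · have := hm 24 25 (by norm_num); omega
  · have b1 := hs 7 25 (by norm_num)
    have b2 := hs 8 25 (by norm_num)
    have b3 := hs 13 25 (by norm_num)
    omega
  · have b1 := hm 7 13 (by norm_num)
    have b2 := hm 8 13 (by norm_num)
    omega
  · rw [show N ^ 25 = N ^ 9 * N ^ 16 by ring]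
    exact Nat.mul_div_cancel _ (hp 16)

lemma real_base {N ε lam d : ℝ} (hN : 1 ≤ N) (hlam : 0 < lam) (hd : 0 ≤ d)
    (h : 100 * (1 + lam) * (1 + d) ≤ ε * N) :
    (∀ {l9 lD lW : ℝ}, ε * N ^ 25 ≤ l9 + 2 * lD + N ^ 9 * lW → l9 ≤ N ^ 9 →
      lD ≤ N ^ 24 + N ^ 24 * d → 97 / 100 * ε * N ^ 16 ≤ lW) ∧
    (∀ {lB : ℝ}, lB ≤ N ^ 7 + N ^ 7 * d → lB ≤ 1 / 100 * ε * N ^ 16) ∧
    96 * (1 + lam) * N ^ 15 ≤ 96 / 100 * ε * N ^ 16 ∧ 0 < ε * N ^ 16 := by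
  have hmr : ∀ j k : ℕ, j ≤ k → N ^ j ≤ N ^ k := fun j k h => pow_le_pow_right₀ hN h
  have h1 : 0 ≤ lam * (1 + d) := by positivity
  have h2 : 100 * (1 + d) ≤ ε * N := by nlinarith
  have h3 : 100 * (1 + lam) ≤ ε * N := by
    have : 0 ≤ (1 + lam) * d := by positivity
    nlinarith
  have hεN : 0 < ε * N := by linarith
  refine ⟨?_, ?_, ?_, ?_⟩
  · intro l9 lD lW g1 g2 g3
    have g4 : 100 * (1 + d) * N ^ 24 ≤ ε * N ^ 25 := by
      have e1 : ε * N ^ 25 = (ε * N) * N ^ 24 := by ring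
      rw [e1]
      exact mul_le_mul_of_nonneg_right h2 (by positivity)
    have g5 := hmr 9 24 (by norm_num)
    have g6 : 0 ≤ d * N ^ 24 := by positivity
    have g7 : 97 / 100 * (ε * N ^ 25) ≤ N ^ 9 * lW := by linarith
    have g8 : 97 / 100 * (ε * N ^ 25) = N ^ 9 * (97 / 100 * ε * N ^ 16) := by ring
    rw [g8] at g7
    exact le_of_mul_le_mul_left g7 (by positivity)
  · intro lB g1
    have g2 : (1 + d) * N ^ 7 ≤ (1 / 100 * (ε * N)) * N ^ 7 :=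
      mul_le_mul_of_nonneg_right (by linarith) (by positivity)
    have g3 : 1 / 100 * (ε * N) * N ^ 7 ≤ 1 / 100 * (ε * N) * N ^ 15 :=
      mul_le_mul_of_nonneg_left (hmr 7 15 (by norm_num)) (by positivity)
    have g4 : 1 / 100 * (ε * N) * N ^ 15 = 1 / 100 * ε * N ^ 16 := by ring
    linarith
  · have e1 : 96 / 100 * ε * N ^ 16 = 96 / 100 * (ε * N) * N ^ 15 := by ring
    rw [e1]
    exact mul_le_mul_of_nonneg_right (by linarith) (by positivity)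
  · have e1 : ε * N ^ 16 = (ε * N) * N ^ 15 := by ring
    rw [e1]; positivity

lemma real_base2 {N lam : ℝ} (hN : 40000 ≤ N) (hlam : 0 < lam) :
    4 * N ^ 15 + (12 * lam + 1) * N ^ 13 ≤ 96 * (1 + lam) * N ^ 15 - 1 := by
  have hN1 : 1 ≤ N := by linarith
  have g13 : N ^ 13 ≤ N ^ 15 := pow_le_pow_right₀ hN1 (by norm_num)
  have g15 : 1 ≤ N ^ 15 := one_le_pow₀ hN1
  have g17 : lam * N ^ 13 ≤ lam * N ^ 15 := mul_le_mul_of_nonneg_left g13 hlam.le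
  have g18 : 0 ≤ lam * N ^ 15 := by positivity
  linarith

lemma raise_num {N c b : ℝ} (hN : 40000 ≤ N) (hc : 0 < c) (hcN : 1000 ≤ c * N)
    (hb : c * (N ^ 8) ^ 5 ≤ b) :
    16 * (2 * N ^ 13 * (N ^ 25 + 2 * N ^ 7 + 1 + N ^ 8 + 2 * N ^ 13) * (1 / b)) ≤ 1 / N := by
  have hN0 : 0 < N := by linarith
  have hN1 : 1 ≤ N := by linarith
  have hs25 : ∀ j k : ℕ, j < k → 40000 * N ^ j ≤ N ^ k := by
    intro j k h
    calc 40000 * N ^ j ≤ N * N ^ j := mul_le_mul_of_nonneg_right hN (by positivity)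
      _ = N ^ (j + 1) := by ring
      _ ≤ N ^ k := pow_le_pow_right₀ hN1 h
  have g1 : 1 / b ≤ 1 / (c * (N ^ 8) ^ 5) :=
    one_div_le_one_div_of_le (by positivity) hb
  have hb0 : 0 ≤ 1 / b := by
    have : 0 < c * (N ^ 8) ^ 5 := by positivity
    have : 0 < b := by linarith
    positivity
  have f1 := hs25 7 25 (by norm_num)
  have f2 := hs25 0 25 (by norm_num)
  have f3 := hs25 8 25 (by norm_num)
  have f4 := hs25 13 25 (by norm_num)
  simp only [pow_zero, mul_one] at f2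
  calc 16 * (2 * N ^ 13 * (N ^ 25 + 2 * N ^ 7 + 1 + N ^ 8 + 2 * N ^ 13) * (1 / b))
      ≤ 16 * (2 * N ^ 13 * (2 * N ^ 25) * (1 / (c * (N ^ 8) ^ 5))) := by
        gcongr
        linarith
    _ = 64 / (c * N ^ 2) := by
        field_simp
        ring
    _ ≤ 1 / N := by
        rw [div_le_div_iff₀ (by positivity) hN0]
        have : 64 * N ≤ (c * N) * N := mul_le_mul_of_nonneg_right (by linarith) hN0.le
        linarith

lemma half_exp {a Z w : ℝ} (h1 : Real.exp a ≤ Z) (h2 : Z ≤ 2 * w) (h3 : 0 ≤ w) :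
    Real.exp (a - 1) ≤ w := by
  have h21 : (2 : ℝ) ≤ Real.exp 1 := by
    have := Real.add_one_le_exp (1 : ℝ)
    linarith
  rw [Real.exp_sub, div_le_iff₀ (Real.exp_pos _)]
  nlinarith

theorem base_level {N : ℕ} {c t lam ε Δ : ℝ} (hc : 0 < c) (hlam : 0 < lam)
    (ht : t = Real.exp (-lam)) (hN : 40000 ≤ N) (hcN : 1000 ≤ c * N) (hΔ : 1 ≤ Δ)
    (hcnt : ∀ k, (cnt (sa G) o k : ℝ) ≤ Δ ^ k)
    (hNε : 100 * (1 + lam) * (1 + Real.log Δ) ≤ ε * N)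
    (hm : Real.exp (ε * (N : ℝ) ^ 25) ≤ (cnt (sa G) o (N ^ 25) : ℝ) * t ^ (N ^ 25))
    (hg7 : c * ((N ^ 7 : ℕ) : ℝ) ^ 5 ≤ bb hG o (N ^ 7))
    (hg8 : c * ((N ^ 8 : ℕ) : ℝ) ^ 5 ≤ bb hG o (N ^ 8)) (hR : 8 * (4 ^ 1 * N ^ 25) ≤ R) :
    ∃ (z : V) (F : Finset (V × List V)) (L : ℕ),
      L + 4 * (2 ^ 1 * N ^ 13) ≤ 4 ^ 1 * N ^ 25 ∧
      Fam hG H (2 ^ 1 * N ^ 13) (1 / N) (2 ^ 1 * N ^ 13) L z (fun _ => True) F ∧
      Real.exp (4 * (N : ℝ) ^ 15 + (12 * lam + 1) * N ^ 13) ≤ wt t F := by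
  obtain ⟨k1, k2, k3, k4, k5⟩ := num_base hN
  have hN4 : (40000 : ℝ) ≤ N := by exact_mod_cast hN
  have hN0 : (0 : ℝ) < N := by linarith
  have hN1 : (1 : ℝ) ≤ N := by linarith
  have h1 : 1 ≤ N := by omega
  have hmN : ∀ j k, j ≤ k → N ^ j ≤ N ^ k := fun j k h => Nat.pow_le_pow_right h1 h
  have hmr : ∀ j k : ℕ, j ≤ k → (N : ℝ) ^ j ≤ (N : ℝ) ^ k := fun j k h =>
    pow_le_pow_right₀ hN1 h
  have hpr : ∀ k : ℕ, (1 : ℝ) ≤ (N : ℝ) ^ k := fun k => one_le_pow₀ hN1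
  have ht0 : 0 < t := by rw [ht]; exact Real.exp_pos _
  have ht1 : t ≤ 1 := by rw [ht]; exact Real.exp_le_one_iff.2 (by linarith)
  have hlogΔ : 0 ≤ Real.log Δ := Real.log_nonneg hΔ
  have hs25 : ∀ j k : ℕ, j < k → 40000 * (N : ℝ) ^ j ≤ (N : ℝ) ^ k := by
    intro j k h
    calc 40000 * (N : ℝ) ^ j ≤ N * (N : ℝ) ^ j := mul_le_mul_of_nonneg_right hN4 (by positivity)
      _ = (N : ℝ) ^ (j + 1) := by ring
      _ ≤ (N : ℝ) ^ k := hmr _ _ h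
  have hR7 : N ^ 7 ≤ R := by have := hmN 7 25 (by norm_num); omega
  have hR8 : N ^ 8 ≤ R := by have := hmN 8 25 (by norm_num); omega
  have hR13 : 2 ^ 1 * N ^ 13 ≤ R := by have := hmN 13 25 (by norm_num); omega
  have hbb7 := bb_pos hG (o := o) (N ^ 7)
  have hbb8 := bb_pos hG (o := o) (N ^ 8)
  -- initial family
  obtain ⟨hF0, hbig⟩ := init (m := N ^ 25) (r := N ^ 7) (S := N ^ 8) (mlow := N ^ 24) (κ := N ^ 16)
    (Bl := 1000 * N ^ 16) hG H (o := o) (R := R) ht0 (by positivity) hR8 hR7 (by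
      push_cast
      have e1 : 4 * ((N : ℝ) ^ 25 + 1) * (N : ℝ) ^ 8 ≤ 8 * (N : ℝ) ^ 33 := by
        have := hpr 25
        have e2 : (N : ℝ) ^ 33 = (N : ℝ) ^ 25 * (N : ℝ) ^ 8 := by ring
        rw [e2]
        nlinarith [hpr 8]
      have e3 : 1024 * (N : ℝ) ^ 33 ≤ c * ((N ^ 7 : ℕ) : ℝ) ^ 5 := by
        push_cast
        have e4 : c * (((N : ℝ) ^ 7) ^ 5) = (c * N) * ((N : ℝ) * (N : ℝ) ^ 33) := by ring
        rw [e4]
        have e5 : (1024 : ℝ) ≤ (c * N) * N := by nlinarith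
        nlinarith [hpr 33]
      linarith) (by
      push_cast
      have e1 : ((N : ℝ) ^ 7 * ((N : ℝ) ^ 7 + 1) + ((N : ℝ) ^ 7 * (N : ℝ) ^ 8 +
          (N : ℝ) ^ 8 * ((N : ℝ) ^ 7 + 1) + (N : ℝ) ^ 8 * (N : ℝ) ^ 8) / (1 / 128)) =
          (N : ℝ) ^ 14 + (N : ℝ) ^ 7 + 128 * (2 * (N : ℝ) ^ 15 + (N : ℝ) ^ 8 + (N : ℝ) ^ 16) := by
        field_simp
        ring
      rw [e1]
      have f1 := hs25 14 16 (by norm_num)
      have f2 := hs25 7 16 (by norm_num)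
      have f3 := hs25 15 16 (by norm_num)
      have f4 := hs25 8 16 (by norm_num)
      have f5 := hpr 16
      linarith) k1 k2
  rw [k5] at hbig
  set Z0 := wt t (F0 hG H (N ^ 8) (1 / 64) (N ^ 7) (N ^ 25 + 2 * N ^ 7)) with hZ0
  set B := bb hG o (N ^ 7) with hB
  have hZ0nn : 0 ≤ Z0 := Finset.sum_nonneg fun _ _ => pow_nonneg ht0.le _
  -- bound of the short walks
  have hD : ∑ k ∈ Finset.range (N ^ 24 + 1), (cnt (sa G) o k : ℝ) * t ^ k ≤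
      ((N : ℝ) ^ 24 + 1) * Δ ^ (N ^ 24) := by
    have : ∀ k ∈ Finset.range (N ^ 24 + 1), (cnt (sa G) o k : ℝ) * t ^ k ≤ Δ ^ (N ^ 24) := by
      intro k hk
      have a1 : (cnt (sa G) o k : ℝ) ≤ Δ ^ (N ^ 24) :=
        (hcnt k).trans (pow_le_pow_right₀ hΔ (by rw [Finset.mem_range] at hk; omega))
      have a2 : t ^ k ≤ 1 := pow_le_one₀ ht0.le ht1
      have a3 : (0 : ℝ) ≤ cnt (sa G) o k := Nat.cast_nonneg _
      have a4 : (0 : ℝ) ≤ t ^ k := by positivity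
      nlinarith
    refine (Finset.sum_le_sum this).trans (le_of_eq ?_)
    simp
  have hD0 : 0 < ∑ k ∈ Finset.range (N ^ 24 + 1), (cnt (sa G) o k : ℝ) * t ^ k := by
    refine Finset.sum_pos' (fun _ _ => by positivity) ⟨0, by simp, ?_⟩
    rw [sigma_zero]; simp
  set D := ∑ k ∈ Finset.range (N ^ 24 + 1), (cnt (sa G) o k : ℝ) * t ^ k with hDdef
  set W := max 1 (B * Z0) with hW
  have hW1 : 1 ≤ W := le_max_left _ _
  have hlogD : Real.log D ≤ (N : ℝ) ^ 24 + (N : ℝ) ^ 24 * Real.log Δ := by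
    refine (Real.log_le_log hD0 hD).trans ?_
    rw [Real.log_mul (by positivity) (by positivity), Real.log_pow]
    push_cast
    have := Real.log_le_sub_one_of_pos (show (0 : ℝ) < (N : ℝ) ^ 24 + 1 by positivity)
    linarith
  have hlog : ε * (N : ℝ) ^ 25 ≤ Real.log ((N : ℝ) ^ 9 + 1) + 2 * Real.log D +
      (N : ℝ) ^ 9 * Real.log W := by
    have h2 := hm.trans hbig
    have h3 := Real.log_le_log (Real.exp_pos _) h2
    rw [Real.log_exp] at h3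
    have hn9 : (((N ^ 9 : ℕ) : ℝ) + 1) ≠ 0 := by positivity
    have hD2 : D ^ 2 ≠ 0 := pow_ne_zero _ hD0.ne'
    have hWp : W ^ (N ^ 9) ≠ 0 := pow_ne_zero _ (by linarith)
    have h4 : Real.log ((((N ^ 9 : ℕ) : ℝ) + 1) * D ^ 2 * W ^ (N ^ 9)) =
        Real.log (((N ^ 9 : ℕ) : ℝ) + 1) + 2 * Real.log D + ((N ^ 9 : ℕ) : ℝ) * Real.log W := by
      rw [Real.log_mul (mul_ne_zero hn9 hD2) hWp, Real.log_mul hn9 hD2, Real.log_pow, Real.log_pow]
      norm_num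
    rw [h4] at h3
    push_cast at h3
    exact h3
  have hlog9 : Real.log ((N : ℝ) ^ 9 + 1) ≤ (N : ℝ) ^ 9 := by
    have := Real.log_le_sub_one_of_pos (show (0 : ℝ) < (N : ℝ) ^ 9 + 1 by positivity)
    linarith
  obtain ⟨R1, R2, R3, R4⟩ := real_base hN1 hlam hlogΔ hNε
  have hW2 : 97 / 100 * ε * (N : ℝ) ^ 16 ≤ Real.log W := R1 hlog hlog9 hlogD
  have hWlog : 0 < Real.log W := lt_of_lt_of_le (by linarith) hW2
  have hWeq : W = B * Z0 := by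
    rcases max_choice 1 (B * Z0) with h | h
    · rw [hW, h] at hWlog
      simp at hWlog
    · exact h
  have hZ0pos : 0 < Z0 := by
    rcases hZ0nn.eq_or_lt with h | h
    · rw [hWeq, ← h] at hWlog
      simp at hWlog
    · exact h
  have hlogB : Real.log B ≤ 1 / 100 * ε * (N : ℝ) ^ 16 := by
    have h6 := bb_le hG hΔ hcnt (N ^ 7)
    have h7 := Real.log_le_log hbb7 h6
    rw [Real.log_mul (by positivity) (by positivity), Real.log_pow] at h7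
    push_cast at h7
    have h8 := Real.log_le_sub_one_of_pos (show (0 : ℝ) < (N : ℝ) ^ 7 + 1 by positivity)
    refine R2 ?_
    have : Real.log B = Real.log (bb hG o (N ^ 7)) := rfl
    rw [this]
    linarith
  have hlogZ : 96 * (1 + lam) * (N : ℝ) ^ 15 ≤ Real.log Z0 := by
    rw [hWeq, Real.log_mul (by positivity) (by positivity)] at hW2
    have h12 : 96 / 100 * ε * (N : ℝ) ^ 16 ≤ Real.log Z0 := by linarith
    exact R3.trans h12
  -- raise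
  obtain ⟨ω, F1, hF1, hw⟩ := raise (S' := 2 ^ 1 * N ^ 13) (δ' := 1 / N) (t := t) (M := 16) hG H ht0
    (by norm_num) (by have := Nat.one_le_pow 13 N h1; omega) hR13 o (fun _ => True) _ hF0
    (by norm_num) (by
      push_cast at hg8
      have := raise_num hN4 hc hcN hg8
      push_cast
      exact this)
  refine ⟨_, F1, N ^ 25 + 2 * N ^ 7 + 2 * N ^ 8, k3,
    hF1.mono hG H le_rfl k4 le_rfl fun _ _ => trivial, ?_⟩
  have hZ1 : Real.exp (96 * (1 + lam) * (N : ℝ) ^ 15) ≤ Z0 := by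
    rw [← Real.exp_log hZ0pos]
    exact Real.exp_le_exp.2 hlogZ
  have h20 : Real.exp (96 * (1 + lam) * (N : ℝ) ^ 15 - 1) ≤ wt t F1 :=
     half_exp hZ1 hw (Finset.sum_nonneg fun _ _ => pow_nonneg ht0.le _)
  exact le_trans (Real.exp_le_exp.2 (real_base2 hN4 hlam)) h20

end Pool.H98.C
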