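import Pool.Agent.H98.C.Defs
import Pool.Agent.H61.SWMass

set_option autoImplicit false

/-! Unimodular transitive graphs have the families `Homog`; the others have a height function. -/

namespace Pool.H98.C

open Finset Pool.Agent.H61.SW Classical

variable {V : Type} {G : SimpleGraph V}

/-- orbit of `y` under the stabiliser of `x` -/
def orb (G : SimpleGraph V) (x y : V) : Set V := {z | ∃ φ : G ≃g G, φ x = x ∧ φ y = z}

lemma orb_eq_orb (x y : V) : orb G x y = Pool.Agent.H61.SW.orb G x y := rfl

/-- nonunimodular graphs have a height function -/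
theorem hasHeight_of_not_uni (hG : TG G)
    (huni : ¬ ∀ x y, (orb G x y).ncard = (orb G y x).ncard) :
    ∃ h : V → ℝ, HasHeight G h :=
  hasHeight_of_not_unimod hG.lf hG.conn hG.tr huni

/-- restriction of an automorphism to the ball -/
noncomputable def rst (hG : TG G) (o : V) (R : ℕ) (φ : G ≃g G) : ↥(bl hG o R) → V := fun c => φ c

/-- restrictions of the automorphisms fixing `o` to the ball -/
def Rst (hG : TG G) (o : V) (R : ℕ) : Type :=
  {f : ↥(bl hG o R) → V // ∃ φ : G ≃g G, φ o = o ∧ rst hG o R φ = f}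

namespace Rst

variable {hG : TG G} {o : V} {R : ℕ}

/-- chosen automorphism -/
noncomputable def s (f : Rst hG o R) : G ≃g G := f.2.choose

lemma s_o (f : Rst hG o R) : f.s o = o := f.2.choose_spec.1

lemma s_rst (f : Rst hG o R) : rst hG o R f.s = f.1 := f.2.choose_spec.2

noncomputable def mk' (hG : TG G) (o : V) (R : ℕ) (φ : G ≃g G) (h : φ o = o) : Rst hG o R :=
  ⟨rst hG o R φ, φ, h, rfl⟩

lemma s_mk' (φ : G ≃g G) (h : φ o = o) {c : V} (hc : G.dist o c ≤ R) :
    (mk' hG o R φ h).s c = φ c := by
  have h1 := (mk' hG o R φ h).s_rst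
  exact congrFun h1 ⟨c, (mem_bl hG o c R).2 hc⟩

lemma ext' {f f' : Rst hG o R} (h : ∀ c, G.dist o c ≤ R → f.s c = f'.s c) : f = f' := by
  apply Subtype.ext
  rw [← f.s_rst, ← f'.s_rst]
  ext ⟨c, hc⟩
  exact h c ((mem_bl hG o c R).1 hc)

noncomputable instance : Finite (Rst hG o R) := by
  have : Function.Injective (fun (f : Rst hG o R) (c : ↥(bl hG o R)) =>
      (⟨f.s c, (mem_bl hG o _ R).2 (by
        nth_rewrite 1 [← f.s_o]
        rw [dist_iso hG.conn]
        exact (mem_bl hG o _ R).1 c.2)⟩ : ↥(bl hG o R))) := by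
    intro f f' h
    apply ext'
    intro c hc
    have h1 := congrFun h ⟨c, (mem_bl hG o c R).2 hc⟩
    exact congrArg Subtype.val h1
  exact Finite.of_injective _ this

instance : Nonempty (Rst hG o R) := ⟨mk' hG o R 1 rfl⟩

noncomputable instance : Fintype (Rst hG o R) := Fintype.ofFinite _

/-- left multiplication -/
noncomputable def mul (γ : G ≃g G) (hγ : γ o = o) (f : Rst hG o R) : Rst hG o R :=
  mk' hG o R (γ * f.s) (by rw [RelIso.mul_apply, f.s_o, hγ])

lemma s_mul (γ : G ≃g G) (hγ : γ o = o) (f : Rst hG o R) {c : V} (hc : G.dist o c ≤ R) :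
    (mul γ hγ f).s c = γ (f.s c) := by
  unfold mul
  rw [s_mk' _ _ hc, RelIso.mul_apply]

lemma mul_bij (γ : G ≃g G) (hγ : γ o = o) : Function.Bijective (mul (hG := hG) (R := R) γ hγ) := by
  apply Function.Injective.bijective_of_finite
  intro f f' h
  apply ext'
  intro c hc
  have h1 := s_mul γ hγ f hc
  have h2 := s_mul γ hγ f' hc
  rw [h, h2] at h1
  exact γ.injective h1.symm

end Rst

lemma Pr_rst_le (hG : TG G) (o : V) (R : ℕ) {c : V} (hc : G.dist o c ≤ R) (w : V) :
    Pr (fun f : Rst hG o R => f.s c = w) ≤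
      if w ∈ Pool.Agent.H61.SW.orb G o c then 1 / ((Pool.Agent.H61.SW.orb G o c).ncard : ℝ)
      else 0 := by
  classical
  split_ifs with hw
  · have hpos := orb_pos hG.lf hG.conn o c
    have hfin := orb_finite hG.lf hG.conn o c
    rw [le_div_iff₀ (by exact_mod_cast hpos)]
    obtain ⟨φ, h1, h2⟩ := hw
    have key : ∀ w' ∈ hfin.toFinset, Pr (fun f : Rst hG o R => f.s c = w) =
        Pr (fun f : Rst hG o R => f.s c = w') := by
      intro w' hw'
      rw [Set.Finite.mem_toFinset] at hw'
      obtain ⟨ψ, h3, h4⟩ := hw'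
      have hγ : (φ * ψ⁻¹ : G ≃g G) o = o := by
        rw [RelIso.mul_apply]
        have : ψ⁻¹ o = o := by
          nth_rewrite 1 [← h3]
          exact RelIso.inv_apply_self ψ o
        rw [this, h1]
      rw [← Pr_bij (Rst.mul_bij (hG := hG) (R := R) (φ * ψ⁻¹) hγ)
        (fun f : Rst hG o R => f.s c = w)]
      refine Pr_congr fun f => ?_
      rw [Rst.s_mul _ _ _ hc, RelIso.mul_apply]
      constructor
      · intro h
        have h5 : ψ⁻¹ (f.s c) = c := φ.injective (h.trans h2.symm)
        have h6 : ψ (ψ⁻¹ (f.s c)) = w' := by rw [h5, h4]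
        rw [← h6]
        exact (RelIso.apply_inv_self ψ _).symm
      · intro h
        rw [h, ← h4, ← h2]
        congr 1
        exact RelIso.inv_apply_self ψ c
    have hsum : ∑ w' ∈ hfin.toFinset, Pr (fun f : Rst hG o R => f.s c = w') ≤ 1 := by
      unfold Pr
      rw [← Ex_sum]
      refine Ex_le_of_le zero_le_one fun f => ?_
      rw [Finset.sum_ite_eq]
      split_ifs <;> norm_num
    rw [← Finset.sum_congr rfl key, Finset.sum_const, nsmul_eq_mul,
      ← Set.ncard_eq_toFinset_card _ hfin] at hsum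
    linarith
  · refine le_of_eq ?_
    unfold Pr Ex
    have : ∀ f : Rst hG o R, ¬ f.s c = w := by
      intro f h
      exact hw ⟨f.s, f.s_o, h⟩
    simp [this]

theorem exists_homog (hG : TG G) (o : V) (huni : ∀ x y, (orb G x y).ncard = (orb G y x).ncard)
    (R : ℕ) : Nonempty (Homog G o R) := by
  classical
  refine ⟨⟨Rst hG o R, inferInstance, inferInstance, fun x f => f.s.trans (tau hG o x),
    ?_, ?_, ?_⟩⟩
  · intro x f
    show tau hG o x (f.s o) = x
    rw [f.s_o, tau_apply]
  · intro c y hc X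
    have h1 : ∀ x, Pr (fun f : Rst hG o R => (f.s.trans (tau hG o x)) c = y) =
        Pr (fun f : Rst hG o R => f.s c = (tau hG o x).symm y) := by
      intro x
      refine Pr_congr fun f => ?_
      show tau hG o x (f.s c) = y ↔ _
      constructor
      · intro h; rw [← h]; exact ((tau hG o x).symm_apply_apply _).symm
      · intro h; rw [h]; exact (tau hG o x).apply_symm_apply _
    simp only [h1]
    -- the invariant relation
    set Rel : V → V → Prop := fun x z => ∃ φ : G ≃g G, φ o = x ∧ φ c = z with hRel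
    have hRinv : ∀ (φ : G ≃g G) u v, Rel (φ u) (φ v) ↔ Rel u v := by
      intro φ u v
      constructor
      · rintro ⟨ψ, h2, h3⟩
        refine ⟨φ⁻¹ * ψ, ?_, ?_⟩
        · rw [RelIso.mul_apply, h2]; exact RelIso.inv_apply_self φ u
        · rw [RelIso.mul_apply, h3]; exact RelIso.inv_apply_self φ v
      · rintro ⟨ψ, h2, h3⟩
        exact ⟨φ * ψ, by rw [RelIso.mul_apply, h2], by rw [RelIso.mul_apply, h3]⟩
    have hdist : ∀ x z, Rel x z → G.dist x z = G.dist o c := by
      rintro x z ⟨φ, rfl, rfl⟩
      exact dist_iso hG.conn φ o c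
    have hA : {x | Rel y x}.Finite := by
      refine (ball_finite hG.lf hG.conn y (G.dist o c)).subset ?_
      intro x hx
      exact (hdist y x hx).le
    have hB : {x | Rel x y}.Finite := by
      refine (ball_finite hG.lf hG.conn y (G.dist o c)).subset ?_
      intro x hx
      have := (hdist x y hx).le
      rw [SimpleGraph.dist_comm] at this
      exact this
    have hmt := mass_transport hG.lf hG.conn hG.tr huni Rel hRinv y hA hB
    have hout : {x | Rel y x}.ncard = (Pool.Agent.H61.SW.orb G o c).ncard := by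
      have h2 : {x | Rel y x} = (tau hG o y) '' (Pool.Agent.H61.SW.orb G o c) := by
        ext z
        constructor
        · rintro ⟨φ, h3, h4⟩
          refine ⟨((tau hG o y)⁻¹ * φ : G ≃g G) c, ⟨(tau hG o y)⁻¹ * φ, ?_, rfl⟩, ?_⟩
          · rw [RelIso.mul_apply, h3]
            nth_rewrite 2 [← tau_apply hG o y]
            exact RelIso.inv_apply_self _ _
          · rw [RelIso.mul_apply, h4]
            exact RelIso.apply_inv_self _ _
        · rintro ⟨w, ⟨φ, h3, h4⟩, rfl⟩
          refine ⟨tau hG o y * φ, ?_, ?_⟩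
          · rw [RelIso.mul_apply, h3, tau_apply]
          · rw [RelIso.mul_apply, h4]
      rw [h2, Set.ncard_image_of_injective _ (tau hG o y).injective]
    have hpos := orb_pos hG.lf hG.conn o c
    have h3 : ∀ x ∈ X, Pr (fun f : Rst hG o R => f.s c = (tau hG o x).symm y) ≤
        if Rel x y then 1 / ((Pool.Agent.H61.SW.orb G o c).ncard : ℝ) else 0 := by
      intro x _
      refine (Pr_rst_le hG o R hc _).trans (le_of_eq ?_)
      have h4 : (tau hG o x).symm y ∈ Pool.Agent.H61.SW.orb G o c ↔ Rel x y := by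
        constructor
        · rintro ⟨φ, h5, h6⟩
          refine ⟨tau hG o x * φ, ?_, ?_⟩
          · rw [RelIso.mul_apply, h5, tau_apply]
          · rw [RelIso.mul_apply, h6]
            exact (tau hG o x).apply_symm_apply _
        · rintro ⟨φ, h5, h6⟩
          refine ⟨(tau hG o x)⁻¹ * φ, ?_, ?_⟩
          · rw [RelIso.mul_apply, h5]
            nth_rewrite 2 [← tau_apply hG o x]
            exact RelIso.inv_apply_self _ _
          · rw [RelIso.mul_apply, h6]; rfl
      by_cases h : Rel x y
      · rw [if_pos h, if_pos (h4.2 h)]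
      · rw [if_neg h, if_neg (fun h' => h (h4.1 h'))]
    refine (Finset.sum_le_sum h3).trans ?_
    rw [← Finset.sum_filter, Finset.sum_const, nsmul_eq_mul]
    have h5 : (X.filter (fun x => Rel x y)).card ≤ (Pool.Agent.H61.SW.orb G o c).ncard := by
      rw [← hout, hmt, ← Set.ncard_coe_finset]
      refine Set.ncard_le_ncard ?_ hB
      intro x hx
      simp only [Finset.coe_filter, Set.mem_ofPred_eq] at hx
      exact hx.2
    have hp' : (0 : ℝ) < ((Pool.Agent.H61.SW.orb G o c).ncard : ℝ) := by exact_mod_cast hpos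
    rw [mul_one_div, div_le_one hp']
    exact_mod_cast h5
  · intro g x
    have hγ : ((tau hG o (g x))⁻¹ * (g * tau hG o x) : G ≃g G) o = o := by
      rw [RelIso.mul_apply, RelIso.mul_apply, tau_apply]
      nth_rewrite 2 [← tau_apply hG o (g x)]
      exact RelIso.inv_apply_self _ _
    refine ⟨Rst.mul _ hγ, Rst.mul_bij _ hγ, ?_⟩
    intro f c hc
    show g (tau hG o x (f.s c)) = tau hG o (g x) ((Rst.mul _ hγ f).s c)
    rw [Rst.s_mul _ _ _ hc, RelIso.mul_apply, RelIso.mul_apply]
    exact (RelIso.apply_inv_self _ _).symm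

end Pool.H98.C
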