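import Pool.Agent.H98.C.Fin3
import Pool.Agent.H98.C.Inf
import Pool.Agent.H98.C.Uni
import Pool.Agent.H61.SWHeight

set_option autoImplicit false

/-! Locality of the connective constant at transitive graphs whose balls grow at least like `c r ^ 5`. -/

namespace Pool.H98.C

open Finset Filter Topology Pool.Agent.H61.SW

/-- A transitive unimodular graph with many self-avoiding walks of one fixed length, and with
growth at least `c r ^ 5` up to some fixed radius, has a divergent generating function. -/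
theorem one_graph (c lam ε Δ : ℝ) (hc : 0 < c) (hlam : 0 < lam) (hε : 0 < ε) (hΔ : 1 ≤ Δ) :
    ∃ N r0 : ℕ, 1 ≤ N ∧ ∀ (V : Type) [Infinite V] (G : SimpleGraph V) (o : V) (hG : TG G),
    (∀ R, Nonempty (Homog G o R)) → (∀ k, (cnt (sa G) o k : ℝ) ≤ Δ ^ k) →
    Real.exp (ε * (N : ℝ) ^ 25) ≤ (cnt (sa G) o (N ^ 25) : ℝ) * Real.exp (-lam) ^ (N ^ 25) →
    (∀ r : ℕ, 1 ≤ r → r ≤ r0 → c * (r : ℝ) ^ 5 ≤ bb hG o r) →
    ¬ Summable (fun k : ℕ => (cnt (sa G) o k : ℝ) * Real.exp (-lam) ^ k) := by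
  obtain ⟨N1, hN1⟩ := exists_nat_gt (1000 / c)
  obtain ⟨N2, hN2⟩ := exists_nat_gt (100 * (1 + lam) * (1 + Real.log Δ) / ε)
  obtain ⟨N, hN⟩ : ∃ N : ℕ, N = 40000 + N1 + N2 := ⟨_, rfl⟩
  have hN4 : 40000 ≤ N := by omega
  have hNr : (N : ℝ) = 40000 + N1 + N2 := by rw [hN]; push_cast; ring
  have hcN : 1000 ≤ c * N := by
    rw [div_lt_iff₀ hc] at hN1
    have h2 : (0 : ℝ) ≤ N2 := Nat.cast_nonneg _
    rw [hNr]
    nlinarith
  have hNε : 100 * (1 + lam) * (1 + Real.log Δ) ≤ ε * N := by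
    rw [div_lt_iff₀ hε] at hN2
    have h2 : (0 : ℝ) ≤ N1 := Nat.cast_nonneg _
    rw [hNr]
    nlinarith
  obtain ⟨s0, hs0⟩ := case_fin (t := Real.exp (-lam)) hc hlam rfl hN4 hcN
  refine ⟨N, max s0 (N ^ 8), by omega, fun V _ G o hG hH hcnt hm hgr => ?_⟩
  have h78 : N ^ 7 ≤ N ^ 8 := Nat.pow_le_pow_right (by omega) (by norm_num)
  have h7 : 1 ≤ N ^ 7 := Nat.one_le_iff_ne_zero.2 (by positivity)
  have hbase : ∀ (R : ℕ) (H : Homog G o R), 8 * (4 ^ 1 * N ^ 25) ≤ R →
      ∃ (z : V) (F : Finset (V × List V)) (L : ℕ),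
      L + 4 * (2 ^ 1 * N ^ 13) ≤ 4 ^ 1 * N ^ 25 ∧
      Fam hG H (2 ^ 1 * N ^ 13) (1 / N) (2 ^ 1 * N ^ 13) L z (fun _ => True) F ∧
      Real.exp (4 * (N : ℝ) ^ 15 + (12 * lam + 1) * N ^ 13) ≤ wt (Real.exp (-lam)) F :=
    fun R H hR => base_level hG H hc hlam rfl hN4 hcN hΔ hcnt hNε hm
      (hgr _ h7 (h78.trans (le_max_right _ _))) (hgr _ (h7.trans h78) (le_max_right _ _)) hR
  by_cases hall : ∀ r : ℕ, 1 ≤ r → c * (r : ℝ) ^ 5 ≤ bb hG o r
  · exact case_inf hG hc hlam rfl hN4 hcN hΔ hcnt hH hbase hall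
  · push Not at hall
    classical
    have hex : ∃ r : ℕ, 1 ≤ r ∧ bb hG o r < c * (r : ℝ) ^ 5 := hall
    obtain ⟨h1, h2⟩ := Nat.find_spec hex
    have h3 : ∀ r : ℕ, 1 ≤ r → r < Nat.find hex → c * (r : ℝ) ^ 5 ≤ bb hG o r := by
      intro r hr1 hr2
      have := Nat.find_min hex hr2
      push Not at this
      exact this hr1
    have h4 : s0 ≤ Nat.find hex := by
      by_contra h
      push Not at h
      have := hgr (Nat.find hex) h1 (h.le.trans (le_max_left _ _))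
      linarith
    exact hs0 V G o hG hH hbase (Nat.find hex) h4 h3 h2

/-- there are self-avoiding walks of every length -/
lemma one_le_cnt {V : Type*} {G : SimpleGraph V} [Infinite V] (hG : TG G) (o : V) (n : ℕ) :
    1 ≤ cnt (sa G) o n := by
  obtain ⟨w, hw⟩ := Infinite.exists_notMem_finset (bl hG o n)
  rw [mem_bl] at hw
  have hfin : {s : List V | s.length = n ∧ sa G o s}.Finite := fin_of_imp hG.lf (fun _ _ h => h.1) n o
  have hne : {s : List V | s.length = n ∧ sa G o s}.Nonempty := by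
    refine ⟨(geo hG o w).take n, ?_, ?_⟩
    · rw [List.length_take, length_geo]; omega
    · have h : sa G o (geo hG o w) := ⟨ch_geo hG o w, nodup_geo hG o w⟩
      rw [← List.take_append_drop n (geo hG o w)] at h
      exact sa_append_left h
  exact (Set.ncard_pos hfin).2 hne

lemma one_le_mu {V : Type*} {G : SimpleGraph V} [Infinite V] (hG : TG G) (o : V) {μ : ℝ}
    (hμ : Tendsto (fun n : ℕ => (cnt (sa G) o n : ℝ) ^ ((1 : ℝ) / n)) atTop (𝓝 μ)) : 1 ≤ μ := by
  refine ge_of_tendsto' hμ fun n => ?_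
  exact Real.one_le_rpow (by exact_mod_cast one_le_cnt hG o n) (by positivity)

/-- a divergent generating function bounds the connective constant from below -/
lemma le_of_not_summable {a : ℕ → ℝ} (ha : ∀ n, 0 ≤ a n) {μ t : ℝ} (ht : 0 < t)
    (hμ : Tendsto (fun n : ℕ => a n ^ ((1 : ℝ) / n)) atTop (𝓝 μ))
    (hns : ¬ Summable fun n => a n * t ^ n) : 1 / t ≤ μ := by
  by_contra h
  push Not at h
  obtain ⟨b, hb1, hb2⟩ := exists_between h
  apply hns
  have hμ0 : 0 ≤ μ := ge_of_tendsto' hμ fun n => Real.rpow_nonneg (ha n) _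
  have hb0 : 0 < b := lt_of_le_of_lt hμ0 hb1
  have hbt : b * t < 1 := by rwa [lt_div_iff₀ ht] at hb2
  have hgeo : Summable fun n : ℕ => (b * t) ^ n :=
    summable_geometric_of_lt_one (by positivity) hbt
  have hev : ∀ᶠ n : ℕ in atTop, a n * t ^ n ≤ (b * t) ^ n := by
    filter_upwards [hμ.eventually (gt_mem_nhds hb1), eventually_gt_atTop 0] with n h1 h2
    rw [mul_pow]
    refine mul_le_mul_of_nonneg_right ?_ (by positivity)
    have h3 : a n = (a n ^ ((1 : ℝ) / n)) ^ n := by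
      rw [← Real.rpow_natCast, ← Real.rpow_mul (ha n), one_div_mul_cancel, Real.rpow_one]
      exact_mod_cast h2.ne'
    rw [h3]
    exact pow_le_pow_left₀ (Real.rpow_nonneg (ha n) _) h1.le n
  refine Summable.of_norm_bounded_eventually_nat hgeo ?_
  filter_upwards [hev] with n hn
  rw [Real.norm_of_nonneg (mul_nonneg (ha n) (by positivity))]
  exact hn

/-- the lower bound, for the limit graph given through its counts and ball sizes -/
theorem lower_bound (μ c D : ℝ) (hc : 0 < c) (hD : 1 ≤ D) (C B : ℕ → ℕ)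
    (hC1 : (C 1 : ℝ) ≤ D)
    (hC : ∀ n, μ ^ n ≤ C n) (hB : ∀ r : ℕ, 1 ≤ r → c * (r : ℝ) ^ 5 ≤ B r) (a : ℝ) (ha : a < μ)
    (hμ1 : 0 < μ) :
    ∃ n0 : ℕ, ∀ (V : Type) [Infinite V] (G : SimpleGraph V) (o : V) (m : ℝ), TG G →
    Tendsto (fun n : ℕ => (cnt (sa G) o n : ℝ) ^ ((1 : ℝ) / n)) atTop (𝓝 m) →
    (∀ n, n ≤ n0 → cnt (sa G) o n = C n) →
    (∀ r, r ≤ n0 → Set.ncard {v | G.dist o v ≤ r} = B r) → a < m := by
  obtain ⟨n, hn, L, hL, δ, hδ, hδ1, key⟩ := liminf_arg μ D hD hμ1 B a ha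
  by_cases hμ : μ ≤ 1
  · refine ⟨0, fun V _ G o m hG hm _ _ => ?_⟩
    exact lt_of_lt_of_le (ha.trans_le hμ) (one_le_mu hG o hm)
  push Not at hμ
  obtain ⟨a', ha'⟩ : ∃ a', a' = (max a 1 + μ) / 2 := ⟨_, rfl⟩
  have h1 : max a 1 < μ := max_lt ha hμ
  have h2 : max a 1 < a' := by rw [ha']; linarith
  have h3 : a' < μ := by rw [ha']; linarith
  have h4 : 1 < a' := (le_max_right _ _).trans_lt h2
  have h5 : a < a' := (le_max_left _ _).trans_lt h2
  obtain ⟨lam, hlam⟩ : ∃ lam, lam = Real.log a' := ⟨_, rfl⟩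
  have hlam0 : 0 < lam := by rw [hlam]; exact Real.log_pos h4
  obtain ⟨ε, hε⟩ : ∃ ε, ε = Real.log μ - lam := ⟨_, rfl⟩
  have hε0 : 0 < ε := by
    rw [hε, hlam, sub_pos]; exact Real.log_lt_log (by linarith) h3
  obtain ⟨N, r0, hN1, hmain⟩ := one_graph c lam ε D hc hlam0 hε0 hD
  refine ⟨n + 1 + L + N ^ 25 + r0, fun V _ G o m hG hm hcC hbB => ?_⟩
  have heq : ∀ v k, cnt (sa G) v k = cnt (sa G) o k := fun v k => cnt_eq hG v k
  have hcnt : ∀ k, (cnt (sa G) o k : ℝ) ≤ D ^ k := by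
    intro k
    have h6 : (cnt (sa G) o 1 : ℝ) ≤ D := by rw [hcC 1 (by omega)]; exact hC1
    have h7 := sigma_pow hG.lf o heq 1 k
    rw [mul_one] at h7
    have h8 : (cnt (sa G) o k : ℝ) ≤ (cnt (sa G) o 1 : ℝ) ^ k := by exact_mod_cast h7
    exact h8.trans (pow_le_pow_left₀ (by positivity) h6 k)
  by_cases huni : ∀ x y, (orb G x y).ncard = (orb G y x).ncard
  · have hns := hmain V G o hG (fun R => exists_homog hG o huni R) hcnt (by
      rw [hcC _ (by omega)]
      have e1 : Real.exp (ε * (N : ℝ) ^ 25) = μ ^ (N ^ 25) * Real.exp (-lam) ^ (N ^ 25) := by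
        rw [← mul_pow]
        have : μ * Real.exp (-lam) = Real.exp ε := by
          rw [hε, Real.exp_sub, Real.exp_log hμ1, Real.exp_neg, div_eq_mul_inv]
        rw [this, ← Real.exp_nat_mul]
        congr 1
        push_cast
        ring
      rw [e1]
      exact mul_le_mul_of_nonneg_right (hC _) (by positivity)) (by
      intro r hr1 hr2
      have e2 : bb hG o r = ((Set.ncard {v | G.dist o v ≤ r} : ℕ) : ℝ) := by
        unfold bb
        rw [card_bl_ncard]
      rw [e2, hbB r (by omega)]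
      exact hB r hr1)
    have h7 := le_of_not_summable (fun k => Nat.cast_nonneg _) (Real.exp_pos _) hm hns
    have h8 : 1 / Real.exp (-lam) = a' := by
      rw [Real.exp_neg, one_div, inv_inv, hlam, Real.exp_log (by linarith)]
    rw [h8] at h7
    linarith
  · obtain ⟨h, hh⟩ := hasHeight_of_not_uni hG huni
    obtain ⟨t, ht, hb⟩ := height_bound hG.lf hG.conn o hm (h := h) hh δ hδ hδ1 L hL n
    have hm0 : 0 ≤ m := zero_le_one.trans (one_le_mu hG o hm)
    refine key m hm0 ?_ t (by rw [← hbB L (by omega)]; exact ht) ?_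
    · have h9 := mu_pow_le hG.lf o heq hm 1 one_pos
      rw [Nat.cast_one, div_one, Real.rpow_one] at h9
      exact h9.trans (by simpa using hcnt 1)
    · refine le_trans ?_ hb
      rw [hcC n (by omega)]
      exact hC n

end Pool.H98.C
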