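import Pool.Agent.H98.C.Coll
import Pool.Agent.H98.C.Join

set_option autoImplicit false

/-! Merging two families of blocks. -/

namespace Pool.H98.C

open Finset Pool.Agent.H61.SW

section gen
variable {Ω Ω' : Type} [Fintype Ω] [Fintype Ω']

lemma Ex_fst [Nonempty Ω'] (f : Ω → ℝ) : Ex (fun p : Ω × Ω' => f p.1) = Ex f := by
  rw [Ex_prod]
  simp only [Ex_const]

lemma Ex_snd [Nonempty Ω] (f : Ω' → ℝ) : Ex (fun p : Ω × Ω' => f p.2) = Ex f := by
  rw [Ex_prod']
  simp only [Ex_const]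

lemma Pr_fst [Nonempty Ω'] (f : Ω → Prop) : Pr (fun p : Ω × Ω' => f p.1) = Pr f := by
  classical
  rw [Pr_prod]
  refine congrArg Ex (funext fun ω => ?_)
  by_cases h : f ω
  · rw [Pr_true _ (fun _ => h)]; simp [h]
  · rw [Pr_false _ (fun _ => h)]; simp [h]

lemma Pr_snd [Nonempty Ω] (f : Ω' → Prop) : Pr (fun p : Ω × Ω' => f p.2) = Pr f := by
  classical
  rw [Pr_prod']
  refine congrArg Ex (funext fun ω => ?_)
  by_cases h : f ω
  · rw [Pr_true _ (fun _ => h)]; simp [h]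
  · rw [Pr_false _ (fun _ => h)]; simp [h]

/-- some outcome is good for a large weight -/
lemma exists_good [Nonempty Ω] {ι : Type} (T : Finset ι) (w : ι → ℝ) (hw : ∀ i ∈ T, 0 ≤ w i)
    (Q : ι → Ω → Prop) [∀ i ω, Decidable (Q i ω)] (c : ℝ) (h : ∀ i ∈ T, c ≤ Pr (Q i)) :
    ∃ ω, c * ∑ i ∈ T, w i ≤ ∑ i ∈ T.filter (fun i => Q i ω), w i := by
  classical
  obtain ⟨ω, hω⟩ := exists_ge_Ex (fun ω => ∑ i ∈ T, w i * (if Q i ω then (1 : ℝ) else 0))
  refine ⟨ω, ?_⟩
  have h1 : ∑ i ∈ T.filter (fun i => Q i ω), w i =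
      ∑ i ∈ T, w i * (if Q i ω then (1 : ℝ) else 0) := by
    rw [Finset.sum_filter]
    refine Finset.sum_congr rfl fun i _ => ?_
    by_cases hq : Q i ω <;> simp [hq]
  rw [h1]
  refine le_trans ?_ hω
  rw [Ex_sum, Finset.mul_sum]
  refine Finset.sum_le_sum fun i hi => ?_
  rw [Ex_const_mul, mul_comm]
  refine mul_le_mul_of_nonneg_left ?_ (hw i hi)
  refine (h i hi).trans (le_of_eq ?_)
  unfold Pr
  congr 1
  ext ω
  by_cases hq : Q i ω <;> simp [hq]

/-- Markov with a multiple of the mean bound -/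
lemma Pr_markov {f : Ω → ℝ} (hf : ∀ ω, 0 ≤ f ω) {m M : ℝ} (hm : 0 < m) (hM : 0 < M)
    (h : Ex f ≤ m) : Pr (fun ω => M * m < f ω) ≤ 1 / M := by
  refine (Pr_gt_le hf (by positivity)).trans ?_
  rw [div_le_div_iff₀ (by positivity) hM]
  nlinarith

end gen

section count
variable {V : Type}

/-- sums over the image, bounded fibres -/
lemma sum_image_fiber {ι : Type} (t : ℝ) (ht : 0 ≤ t) (T : Finset ι) (Φ : ι → V × List V)
    (F : Finset (V × List V)) (hF : ∀ i ∈ T, Φ i ∈ F) (n : ℕ) (κ : ι → ℕ × ℕ)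
    (h1 : ∀ i ∈ T, (κ i).1 < n ∧ (κ i).2 < n)
    (hinj : ∀ i ∈ T, ∀ j ∈ T, Φ i = Φ j → κ i = κ j → i = j) :
    ∑ i ∈ T, t ^ (Φ i).2.length ≤ (n : ℝ) ^ 2 * wt t F := by
  classical
  rw [← Finset.sum_fiberwise_of_maps_to hF, wt, Finset.mul_sum]
  refine Finset.sum_le_sum fun f _ => ?_
  have h2 : ∑ i ∈ T.filter (fun i => Φ i = f), t ^ (Φ i).2.length =
      ((T.filter (fun i => Φ i = f)).card : ℝ) * t ^ f.2.length := by
    rw [← nsmul_eq_mul, ← Finset.sum_const]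
    refine Finset.sum_congr rfl fun i hi => ?_
    rw [(Finset.mem_filter.1 hi).2]
  rw [h2]
  refine mul_le_mul_of_nonneg_right ?_ (pow_nonneg ht _)
  have h3 : (T.filter (fun i => Φ i = f)).card ≤ (range n ×ˢ range n).card := by
    refine Finset.card_le_card_of_injOn κ ?_ ?_
    · intro i hi
      have := h1 i (Finset.mem_filter.1 hi).1
      simp [this.1, this.2]
    · intro i hi j hj hij
      have hi' := Finset.mem_filter.1 hi
      have hj' := Finset.mem_filter.1 hj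
      exact hinj i hi'.1 j hj'.1 (hi'.2.trans hj'.2.symm) hij
  rw [Finset.card_product, Finset.card_range] at h3
  rw [sq]
  exact_mod_cast h3

end count

variable {V : Type} {G : SimpleGraph V} {o : V} {R : ℕ} (hG : TG G) (H : Homog G o R)

/-- the connecting walk -/
noncomputable def kap {S : ℕ} (τ : G ≃g G) (π : List V) (u w : V) (ω : OO hG H S × OO hG H S) :
    List V :=
  por hG H u ω.1.1 ++ (π.map (XX hG H u ω.1) ++
    (rv w (por hG H w ω.2.1)).map (gg hG H τ u w ω))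

lemma kap_spec {S : ℕ} (τ : G ≃g G) (π : List V) (hπ : ch G o π) (hπe : en o π = τ o) (u w : V)
    (ω : OO hG H S × OO hG H S) :
    ch G u (kap hG H τ π u w ω) ∧ en u (kap hG H τ π u w ω) = gg hG H τ u w ω w ∧
    (kap hG H τ π u w ω).length ≤ 2 * S + π.length ∧
    ∀ x ∈ kap hG H τ π u w ω, x ∈ por hG H u ω.1.1 ∨ x ∈ π.map (XX hG H u ω.1) ∨
      ∃ y ∈ w :: por hG H w ω.2.1, x = gg hG H τ u w ω y := by
  unfold kap
  have e1 : en u (por hG H u ω.1.1) = XX hG H u ω.1 o := (XX_o hG H u ω.1).symm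
  have e2 : en (XX hG H u ω.1 o) (π.map (XX hG H u ω.1)) =
      gg hG H τ u w ω (en w (por hG H w ω.2.1)) := by
    rw [en_map, hπe, gg_apply, ← XX_o hG H w ω.2]
    simp
  refine ⟨?_, ?_, ?_, ?_⟩
  · rw [ch_append, ch_append, e1, e2]
    exact ⟨ch_por hG H u _, (ch_map _ _ _).2 hπ,
      (ch_map _ _ _).2 (ch_rv _ _ (ch_por hG H w _))⟩
  · rw [en_append, en_append, e1, e2, en_map, en_rv]
  · simp only [List.length_append, List.length_map, length_rv]
    have h1 := length_por hG H u ω.1.1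
    have h2 := length_por hG H w ω.2.1
    omega
  · intro x hx
    rcases List.mem_append.1 hx with hx | hx
    · exact Or.inl hx
    rcases List.mem_append.1 hx with hx | hx
    · exact Or.inr (Or.inl hx)
    · obtain ⟨y, hy, rfl⟩ := List.mem_map.1 hx
      exact Or.inr (Or.inr ⟨y, mem_rv.1 (List.mem_cons_of_mem _ hy), rfl⟩)

/-- data of a good pair: the placed concatenation is a block -/
theorem merge_one {S A L : ℕ} {δ M m : ℝ} (hSR : S ≤ R)
    {z1 z2 : V} {a1 c1 b1 a2 c2 b2 : List V}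
    (B1 : Blk hG H S δ A L z1 a1 c1 b1) (B2 : Blk hG H S δ A L z2 a2 c2 b2)
    (ω : OO hG H S × OO hG H S) (g : G ≃g G)
    (hg : g = gg hG H (RelIso.refl _) (en z1 (a1 ++ (c1 ++ b1))) z2 ω)
    (E1 : ∀ v ∈ por hG H (en z1 (a1 ++ (c1 ++ b1))) ω.1.1, v ∉ z1 :: (a1 ++ c1))
    (E2 : ∀ v ∈ por hG H z2 ω.2.1, v ∉ en z2 a2 :: (c2 ++ b2))
    (E3 : ¬ ∃ x ∈ z1 :: (a1 ++ (c1 ++ b1)), ∃ y ∈ (z2 :: (a2 ++ (c2 ++ b2))) ++
      por hG H z2 ω.2.1, x = g y)
    (E4 : ¬ ∃ x ∈ por hG H (en z1 (a1 ++ (c1 ++ b1))) ω.1.1, ∃ y ∈ z2 :: (a2 ++ (c2 ++ b2)),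
      x = g y)
    (E5 : hit hG H S z1 (por hG H (en z1 (a1 ++ (c1 ++ b1))) ω.1.1) +
      hit hG H S z1 (((z2 :: (a2 ++ (c2 ++ b2))) ++ por hG H z2 ω.2.1).map g) ≤ M * m)
    (E6 : hit hG H S (en z2 (a2 ++ (c2 ++ b2))) (por hG H z2 ω.2.1) +
      hit hG H S (g (en z2 (a2 ++ (c2 ++ b2)))) (z1 :: (a1 ++ (c1 ++ b1))) +
      hit hG H S (g (en z2 (a2 ++ (c2 ++ b2)))) (por hG H (en z1 (a1 ++ (c1 ++ b1))) ω.1.1) ≤
        M * m)
    (E7 : QQ hG H S z1 (g (en z2 (a2 ++ (c2 ++ b2)))) ≤ M * m) (hδ : 0 ≤ δ) :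
    ∃ π : List V, π.length ≤ 2 * A + 2 * S ∧
      en (en z1 (a1 ++ c1)) π = g (en z2 a2) ∧
      Blk hG H S (δ + M * m) A (2 * L + 2 * S) z1 a1 (c1 ++ (π ++ c2.map g)) (b2.map g) ∧
      en z1 (a1 ++ ((c1 ++ (π ++ c2.map g)) ++ b2.map g)) = g (en z2 (a2 ++ (c2 ++ b2))) ∧
      ∀ x ∈ a1 ++ ((c1 ++ (π ++ c2.map g)) ++ b2.map g), x ∈ a1 ++ (c1 ++ b1) ∨
        x ∈ por hG H (en z1 (a1 ++ (c1 ++ b1))) ω.1.1 ∨
        ∃ y, (y ∈ z2 :: (a2 ++ (c2 ++ b2)) ∨ y ∈ por hG H z2 ω.2.1) ∧ x = g y := by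
  set u := en z1 (a1 ++ (c1 ++ b1)) with hu
  set z' := en z2 (a2 ++ (c2 ++ b2)) with hz'
  obtain ⟨k1, k2, k3, k4⟩ := kap_spec hG H (S := S) (RelIso.refl _) [] trivial rfl u z2 ω
  rw [← hg] at k2 k4
  set κ := kap hG H (RelIso.refl _) [] u z2 ω with hκ
  have k4' : ∀ x ∈ κ, x ∈ por hG H u ω.1.1 ∨ ∃ y ∈ z2 :: por hG H z2 ω.2.1, x = g y := by
    intro x hx
    rcases k4 x hx with h | h | h
    · exact Or.inl h
    · simp at h
    · exact Or.inr h
  obtain ⟨π, p1, p2, p3, p4, p5⟩ := join_det (g := g) (κ := κ) B1.sa B2.sa k1 k2 (by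
      intro x hx
      rcases k4' x hx with h | ⟨y, hy, rfl⟩
      · exact E1 x h
      · intro hx'
        refine E3 ⟨g y, ?_, y, ?_, rfl⟩
        · rcases List.mem_cons.1 hx' with h | h
          · rw [h]; simp
          · rcases List.mem_append.1 h with h | h <;> simp [h]
        · rcases List.mem_cons.1 hy with h | h <;> simp [h]) (by
      intro x hx
      rcases k4' x hx with h | ⟨y, hy, rfl⟩
      · right
        intro y hy hxy
        refine E4 ⟨x, h, y, ?_, hxy⟩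
        exact mem_cons_of_split hy
      · rcases List.mem_cons.1 hy with rfl | hy
        · exact Or.inl rfl
        · right
          intro y' hy' hyy
          have : y = y' := g.injective hyy
          subst this
          exact E2 y hy hy') (by
      intro x hx y hy hxy
      exact E3 ⟨x, hx, y, List.mem_append_left _ hy, hxy⟩)
  have hlκ : κ.length ≤ 2 * S := by simpa using k3
  have l1 := B1.ll
  have l2 := B2.ll
  have la1 := B1.la
  have lb1 := B1.lb
  have la2 := B2.la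
  have lb2 := B2.lb
  simp only [List.length_append] at l1 l2
  -- where the new vertices are
  have memπ : ∀ x ∈ π, x ∈ b1 ∨ x ∈ por hG H u ω.1.1 ∨
      ∃ y, (y ∈ z2 :: a2 ∨ y ∈ por hG H z2 ω.2.1) ∧ x = g y := by
    intro x hx
    rcases p2 x hx with h | h | ⟨y, hy, rfl⟩
    · exact Or.inl h
    · rcases k4' x h with h | ⟨y, hy, rfl⟩
      · exact Or.inr (Or.inl h)
      · refine Or.inr (Or.inr ⟨y, ?_, rfl⟩)
        rcases List.mem_cons.1 hy with h | h
        · left; simp [h]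
        · exact Or.inr h
    · exact Or.inr (Or.inr ⟨y, Or.inl (List.mem_cons_of_mem _ hy), rfl⟩)
  have memall : ∀ x ∈ a1 ++ ((c1 ++ (π ++ c2.map g)) ++ b2.map g), x ∈ a1 ++ (c1 ++ b1) ∨
        x ∈ por hG H u ω.1.1 ∨
        ∃ y, (y ∈ z2 :: (a2 ++ (c2 ++ b2)) ∨ y ∈ por hG H z2 ω.2.1) ∧ x = g y := by
    intro x hx
    simp only [List.mem_append] at hx
    rcases hx with h | (h | h | h) | h
    · left; simp [h]
    · left; simp [h]
    · rcases memπ x h with h | h | ⟨y, hy, rfl⟩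
      · left; simp [h]
      · exact Or.inr (Or.inl h)
      · refine Or.inr (Or.inr ⟨y, ?_, rfl⟩)
        rcases hy with hy | hy
        · left
          rcases List.mem_cons.1 hy with h | h <;> simp [h]
        · exact Or.inr hy
    · obtain ⟨y, hy, rfl⟩ := List.mem_map.1 h
      exact Or.inr (Or.inr ⟨y, Or.inl (by simp [hy]), rfl⟩)
    · obtain ⟨y, hy, rfl⟩ := List.mem_map.1 h
      exact Or.inr (Or.inr ⟨y, Or.inl (by simp [hy]), rfl⟩)
  refine ⟨π, by omega, p3, ⟨p4, ?_, ?_, ?_, la1, by simpa using lb2, ?_⟩, p5, memall⟩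
  · -- exposure at the root
    have h1 : ∀ v ∈ en z1 a1 :: ((c1 ++ (π ++ c2.map g)) ++ b2.map g),
        v ∈ (en z1 a1 :: (c1 ++ b1)) ++ (por hG H u ω.1.1 ++
          ((z2 :: (a2 ++ (c2 ++ b2))) ++ por hG H z2 ω.2.1).map g) := by
      intro x hx
      rw [List.mem_append, List.mem_append]
      rcases List.mem_cons.1 hx with h | h
      · left; rw [h]; simp
      simp only [List.mem_append] at h
      have key : ∀ y, (y ∈ z2 :: (a2 ++ (c2 ++ b2)) ∨ y ∈ por hG H z2 ω.2.1) →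
          g y ∈ ((z2 :: (a2 ++ (c2 ++ b2))) ++ por hG H z2 ω.2.1).map g := fun y hy =>
        List.mem_map_of_mem (List.mem_append.2 hy)
      rcases h with (h | h | h) | h
      · left; simp [h]
      · rcases memπ x h with h | h | ⟨y, hy, rfl⟩
        · left; simp [h]
        · exact Or.inr (Or.inl h)
        · refine Or.inr (Or.inr (key y ?_))
          rcases hy with hy | hy
          · left
            rcases List.mem_cons.1 hy with h | h <;> simp [h]
          · exact Or.inr hy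
      · obtain ⟨y, hy, rfl⟩ := List.mem_map.1 h
        exact Or.inr (Or.inr (key y (Or.inl (by simp [hy]))))
      · obtain ⟨y, hy, rfl⟩ := List.mem_map.1 h
        exact Or.inr (Or.inr (key y (Or.inl (by simp [hy]))))
    refine (hit_mono hG H h1).trans ((hit_append hG H S z1 _ _).trans ?_)
    have h2 := hit_append hG H S z1 (por hG H u ω.1.1)
      (((z2 :: (a2 ++ (c2 ++ b2))) ++ por hG H z2 ω.2.1).map g)
    have h3 := B1.hs
    linarith
  · -- exposure at the far end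
    rw [p5]
    have h1 : ∀ v ∈ z1 :: (a1 ++ (c1 ++ (π ++ c2.map g))),
        v ∈ (z1 :: (a1 ++ (c1 ++ b1))) ++ (por hG H u ω.1.1 ++
          ((por hG H z2 ω.2.1).map g ++ (z2 :: (a2 ++ c2)).map g)) := by
      intro x hx
      rw [List.mem_append, List.mem_append, List.mem_append]
      rcases List.mem_cons.1 hx with h | h
      · left; rw [h]; simp
      simp only [List.mem_append] at h
      rcases h with h | h | h | h
      · left; simp [h]
      · left; simp [h]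
      · rcases memπ x h with h | h | ⟨y, hy, rfl⟩
        · left; simp [h]
        · exact Or.inr (Or.inl h)
        · rcases hy with hy | hy
          · refine Or.inr (Or.inr (Or.inr (List.mem_map_of_mem ?_)))
            rcases List.mem_cons.1 hy with h | h <;> simp [h]
          · exact Or.inr (Or.inr (Or.inl (List.mem_map_of_mem hy)))
      · obtain ⟨y, hy, rfl⟩ := List.mem_map.1 h
        exact Or.inr (Or.inr (Or.inr (List.mem_map_of_mem (by simp [hy]))))
    refine (hit_mono hG H h1).trans ((hit_append hG H S _ _ _).trans ?_)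
    have h2 := hit_append hG H S (g z') (por hG H u ω.1.1)
      ((por hG H z2 ω.2.1).map g ++ (z2 :: (a2 ++ c2)).map g)
    have h3 := hit_append hG H S (g z') ((por hG H z2 ω.2.1).map g) ((z2 :: (a2 ++ c2)).map g)
    rw [hit_iso hG H hSR, hit_iso hG H hSR] at h3
    have h4 := B2.he
    linarith
  · rw [p5]
    linarith
  · simp only [List.length_append, List.length_map]
    omega

/-- the placement of a pair -/
noncomputable def plc {S : ℕ} (z1 z2 : V) (s1 : List V) (ω : OO hG H S × OO hG H S) : G ≃g G :=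
  gg hG H (RelIso.refl _) (en z1 s1) z2 ω

/-- property of the lists of the merged family -/
def MP {S : ℕ} (z1 z2 : V) (P1 P2 : List V → Prop) (Conf : V → OO hG H S × OO hG H S → Prop)
    (ω : OO hG H S × OO hG H S) (s : List V) : Prop :=
  ∃ s1 s2, P1 s1 ∧ P2 s2 ∧ Conf (en z1 s1) ω ∧
    en z1 s = plc hG H z1 z2 s1 ω (en z2 s2) ∧
    ∀ x ∈ s, x ∈ s1 ∨ x ∈ por hG H (en z1 s1) ω.1.1 ∨
      ∃ y, (y ∈ z2 :: s2 ∨ y ∈ por hG H z2 ω.2.1) ∧ x = plc hG H z1 z2 s1 ω y

theorem merge {S A L : ℕ} {δ δ' t p M : ℝ} (ht : 0 < t) (ht1 : t ≤ 1) (hδ : 0 < δ) (hM : 0 < M)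
    (hR : 3 * S + L ≤ R)
    (z1 z2 : V) (P1 P2 : List V → Prop) (F1 F2 : Finset (V × List V))
    (h1 : Fam hG H S δ A L z1 P1 F1) (h2 : Fam hG H S δ A L z2 P2 F2)
    (Conf : V → OO hG H S × OO hG H S → Prop)
    (hConf : ∀ s, P1 s → p ≤ Pr (Conf (en z1 s)))
    (hnum : 2 * δ + ((L + 1) * (L + 1 + S) + S * (L + 1)) * (1 / bb hG o S) + 3 / M ≤ p / 2)
    (hδ' : δ + M * (δ + S * (L + 1 + S) * (1 / bb hG o S)) ≤ δ') :
    ∃ (ω : OO hG H S × OO hG H S) (F : Finset (V × List V)),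
      Fam hG H S δ' A (2 * L + 2 * S) z1 (MP hG H z1 z2 P1 P2 Conf ω) F ∧
      (p / 2) * (wt t F1 * wt t F2) * t ^ (2 * A + 2 * S) ≤ (2 * L + 2 * S + 1) ^ 2 * wt t F := by
  classical
  have hSR : S ≤ R := by omega
  have hbb := bb_pos hG (o := o) S
  set β : ℝ := 1 / bb hG o S with hβ
  have hβ0 : 0 < β := by positivity
  set m : ℝ := δ + S * (L + 1 + S) * β with hm
  have hm0 : 0 < m := by positivity
  choose! a1 b1 e1 B1 Q1 using h1
  choose! a2 b2 e2 B2 Q2 using h2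
  -- shorthand
  let s1 : V × List V → List V := fun q => a1 q ++ (q.2 ++ b1 q)
  let s2 : V × List V → List V := fun q => a2 q ++ (q.2 ++ b2 q)
  let g : V × List V → OO hG H S × OO hG H S → G ≃g G := fun q ω => plc hG H z1 z2 (s1 q) ω
  let Bad : (V × List V) × (V × List V) → OO hG H S × OO hG H S → Prop := fun q ω =>
    (∃ v ∈ por hG H (en z1 (s1 q.1)) ω.1.1, v ∈ z1 :: (a1 q.1 ++ q.1.2)) ∨
    (∃ v ∈ por hG H z2 ω.2.1, v ∈ en z2 (a2 q.2) :: (q.2.2 ++ b2 q.2)) ∨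
    (∃ x ∈ z1 :: s1 q.1, ∃ y ∈ (z2 :: s2 q.2) ++ por hG H z2 ω.2.1, x = g q.1 ω y) ∨
    (∃ x ∈ por hG H (en z1 (s1 q.1)) ω.1.1, ∃ y ∈ z2 :: s2 q.2, x = g q.1 ω y) ∨
    (M * m < hit hG H S z1 (por hG H (en z1 (s1 q.1)) ω.1.1) +
      hit hG H S z1 (((z2 :: s2 q.2) ++ por hG H z2 ω.2.1).map (g q.1 ω))) ∨
    (M * m < hit hG H S (en z2 (s2 q.2)) (por hG H z2 ω.2.1) +
      hit hG H S (g q.1 ω (en z2 (s2 q.2))) (z1 :: s1 q.1) +
      hit hG H S (g q.1 ω (en z2 (s2 q.2))) (por hG H (en z1 (s1 q.1)) ω.1.1)) ∨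
    (M * m < QQ hG H S z1 (g q.1 ω (en z2 (s2 q.2))))
  have hBad : ∀ q ∈ F1 ×ˢ F2, Pr (Bad q) ≤ p / 2 := by
    intro q hq
    obtain ⟨hq1, hq2⟩ := Finset.mem_product.1 hq
    have C1 := B1 q.1 hq1
    have C2 := B2 q.2 hq2
    have len1 : (s1 q.1).length ≤ L := C1.ll
    have len2 : (s2 q.2).length ≤ L := C2.ll
    have hτ : G.dist o ((RelIso.refl G.Adj : G ≃g G) o) = 0 := by
      show G.dist o o = 0
      simp
    have hRR : G.dist o ((RelIso.refl G.Adj : G ≃g G) o) + S + (L + S) ≤ R := by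
      rw [hτ]; omega
    have d2 : ∀ ω2 : OO hG H S, ∀ y ∈ (z2 :: s2 q.2) ++ por hG H z2 ω2.1,
        G.dist z2 y ≤ L + S := by
      intro ω2 y hy
      rcases List.mem_append.1 hy with hy | hy
      · exact ((dist_mem_ch C2.sa.1 hy).trans len2).trans (by omega)
      · exact (dist_por hG H z2 ω2.1 y (List.mem_cons_of_mem _ hy)).trans (by omega)
    have d1 : ∀ ω1 : OO hG H S, ∀ x ∈ por hG H (en z1 (s1 q.1)) ω1.1,
        G.dist (en z1 (s1 q.1)) x ≤ L + S := fun ω1 x hx =>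
      (dist_por hG H _ ω1.1 x (List.mem_cons_of_mem _ hx)).trans (by omega)
    have dz : G.dist z2 (en z2 (s2 q.2)) + S ≤ L + S := by
      have := dist_en_le z2 (s2 q.2) C2.sa.1
      omega
    have lenB : ∀ ω2 : OO hG H S, ((z2 :: s2 q.2) ++ por hG H z2 ω2.1).length ≤ L + 1 + S := by
      intro ω2
      have := length_por hG H z2 ω2.1
      simp only [List.length_append, List.length_cons]
      omega
    -- the seven bounds
    have b1' : Pr (fun ω : OO hG H S × OO hG H S =>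
        ∃ v ∈ por hG H (en z1 (s1 q.1)) ω.1.1, v ∈ z1 :: (a1 q.1 ++ q.1.2)) ≤ δ := by
      have h := Pr_fst (Ω' := OO hG H S) (fun ω1 : OO hG H S =>
        ∃ v ∈ por hG H (en z1 (s1 q.1)) ω1.1, v ∈ z1 :: (a1 q.1 ++ q.1.2))
      rw [h]
      have h' := Pr_fst (Ω' := H.Θ) (fun ω1 : PO hG H S =>
        ∃ v ∈ por hG H (en z1 (s1 q.1)) ω1, v ∈ z1 :: (a1 q.1 ++ q.1.2))
      rw [h']
      exact C1.he
    have b2' : Pr (fun ω : OO hG H S × OO hG H S =>
        ∃ v ∈ por hG H z2 ω.2.1, v ∈ en z2 (a2 q.2) :: (q.2.2 ++ b2 q.2)) ≤ δ := by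
      have h := Pr_snd (Ω := OO hG H S) (fun ω1 : OO hG H S =>
        ∃ v ∈ por hG H z2 ω1.1, v ∈ en z2 (a2 q.2) :: (q.2.2 ++ b2 q.2))
      rw [h]
      have h' := Pr_fst (Ω' := H.Θ) (fun ω1 : PO hG H S =>
        ∃ v ∈ por hG H z2 ω1, v ∈ en z2 (a2 q.2) :: (q.2.2 ++ b2 q.2))
      rw [h']
      exact C2.hs
    have b3' := strX hG H (RelIso.refl _) (en z1 (s1 q.1)) z2 hRR (z1 :: s1 q.1)
      (fun ω2 => (z2 :: s2 q.2) ++ por hG H z2 ω2.1) lenB d2
    have b4' := strY hG H (RelIso.refl _) (en z1 (s1 q.1)) z2 hRR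
      (fun ω1 => por hG H (en z1 (s1 q.1)) ω1.1) (z2 :: s2 q.2)
      (fun ω1 => length_por hG H _ ω1.1) d1
    have b5' : Pr (fun ω : OO hG H S × OO hG H S =>
        M * m < hit hG H S z1 (por hG H (en z1 (s1 q.1)) ω.1.1) +
          hit hG H S z1 (((z2 :: s2 q.2) ++ por hG H z2 ω.2.1).map (g q.1 ω))) ≤ 1 / M := by
      refine Pr_markov (fun ω => add_nonneg (hit_nonneg hG H _ _ _) (hit_nonneg hG H _ _ _))
        hm0 hM ?_
      rw [Ex_add]
      have i1 : Ex (fun ω : OO hG H S × OO hG H S =>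
          hit hG H S z1 (por hG H (en z1 (s1 q.1)) ω.1.1)) ≤ δ := by
        have h := Ex_fst (Ω' := OO hG H S) (fun ω1 : OO hG H S =>
          hit hG H S z1 (por hG H (en z1 (s1 q.1)) ω1.1))
        rw [h]
        have h' := Ex_fst (Ω' := H.Θ) (fun ω1 : PO hG H S =>
          hit hG H S z1 (por hG H (en z1 (s1 q.1)) ω1))
        rw [h', ← QQ_eq, QQ_comm]
        exact C1.qq
      have i2 := expX hG H (RelIso.refl _) (en z1 (s1 q.1)) z2 z1 hRR
        (fun ω2 => (z2 :: s2 q.2) ++ por hG H z2 ω2.1) lenB d2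
      push_cast at i2
      have : Ex (fun ω : OO hG H S × OO hG H S =>
          hit hG H S z1 (((z2 :: s2 q.2) ++ por hG H z2 ω.2.1).map (g q.1 ω))) ≤
          S * ((L + 1 + S) * β) := i2
      rw [hm]
      linarith
    have b6' : Pr (fun ω : OO hG H S × OO hG H S =>
        M * m < hit hG H S (en z2 (s2 q.2)) (por hG H z2 ω.2.1) +
          hit hG H S (g q.1 ω (en z2 (s2 q.2))) (z1 :: s1 q.1) +
          hit hG H S (g q.1 ω (en z2 (s2 q.2))) (por hG H (en z1 (s1 q.1)) ω.1.1)) ≤ 1 / M := by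
      refine Pr_markov (fun ω => add_nonneg (add_nonneg (hit_nonneg hG H _ _ _)
        (hit_nonneg hG H _ _ _)) (hit_nonneg hG H _ _ _)) hm0 hM ?_
      rw [Ex_add, Ex_add]
      have i1 : Ex (fun ω : OO hG H S × OO hG H S =>
          hit hG H S (en z2 (s2 q.2)) (por hG H z2 ω.2.1)) ≤ δ := by
        have h := Ex_snd (Ω := OO hG H S) (fun ω1 : OO hG H S =>
          hit hG H S (en z2 (s2 q.2)) (por hG H z2 ω1.1))
        rw [h]
        have h' := Ex_fst (Ω' := H.Θ) (fun ω1 : PO hG H S =>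
          hit hG H S (en z2 (s2 q.2)) (por hG H z2 ω1))
        rw [h', ← QQ_eq]
        exact C2.qq
      have i2 : Ex (fun ω : OO hG H S × OO hG H S =>
          hit hG H S (g q.1 ω (en z2 (s2 q.2))) (z1 :: s1 q.1)) ≤ (L + 1) * (S * β) := by
        refine (farX hG H (RelIso.refl _) (en z1 (s1 q.1)) z2 (en z2 (s2 q.2)) hRR dz
          (z1 :: s1 q.1)).trans ?_
        refine mul_le_mul_of_nonneg_right ?_ (by positivity)
        simp only [List.length_cons]
        push_cast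
        have : ((s1 q.1).length : ℝ) ≤ L := by exact_mod_cast len1
        linarith
      have i3 : Ex (fun ω : OO hG H S × OO hG H S =>
          hit hG H S (g q.1 ω (en z2 (s2 q.2))) (por hG H (en z1 (s1 q.1)) ω.1.1)) ≤
            S * (S * β) :=
        farY hG H (RelIso.refl _) (en z1 (s1 q.1)) z2 (en z2 (s2 q.2)) hRR
          (fun ω1 => por hG H (en z1 (s1 q.1)) ω1.1) (fun ω1 => length_por hG H _ ω1.1) d1
      rw [hm]
      nlinarith
    have b7' : Pr (fun ω : OO hG H S × OO hG H S =>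
        M * m < QQ hG H S z1 (g q.1 ω (en z2 (s2 q.2)))) ≤ 1 / M := by
      refine Pr_markov (fun ω => QQ_nonneg hG H _ _ _) hm0 hM ?_
      refine (QQX hG H (RelIso.refl _) (en z1 (s1 q.1)) z2 z1 (en z2 (s2 q.2)) hRR dz).trans ?_
      rw [hm]
      have : (0 : ℝ) ≤ (S : ℝ) * (L + 1) * β := by positivity
      nlinarith
    have b3'' : Pr (fun ω : OO hG H S × OO hG H S =>
        ∃ x ∈ z1 :: s1 q.1, ∃ y ∈ (z2 :: s2 q.2) ++ por hG H z2 ω.2.1, x = g q.1 ω y) ≤
        (L + 1) * ((L + 1 + S) * β) := by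
      refine b3'.trans ?_
      push_cast
      refine mul_le_mul_of_nonneg_right ?_ (by positivity)
      simp only [List.length_cons]
      push_cast
      have : ((s1 q.1).length : ℝ) ≤ L := by exact_mod_cast len1
      linarith
    have b4'' : Pr (fun ω : OO hG H S × OO hG H S =>
        ∃ x ∈ por hG H (en z1 (s1 q.1)) ω.1.1, ∃ y ∈ z2 :: s2 q.2, x = g q.1 ω y) ≤
        S * ((L + 1) * β) := by
      refine b4'.trans ?_
      refine mul_le_mul_of_nonneg_left ?_ (Nat.cast_nonneg _)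
      refine mul_le_mul_of_nonneg_right ?_ hβ0.le
      simp only [List.length_cons]
      push_cast
      have : ((s2 q.2).length : ℝ) ≤ L := by exact_mod_cast len2
      linarith
    have tot : Pr (Bad q) ≤ δ + (δ + ((L + 1) * ((L + 1 + S) * β) + (S * ((L + 1) * β) +
        (1 / M + (1 / M + 1 / M))))) := by
      refine (Pr_or _ _).trans (add_le_add b1' ?_)
      refine (Pr_or _ _).trans (add_le_add b2' ?_)
      refine (Pr_or _ _).trans (add_le_add b3'' ?_)
      refine (Pr_or _ _).trans (add_le_add b4'' ?_)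
      refine (Pr_or _ _).trans (add_le_add b5' ?_)
      exact (Pr_or _ _).trans (add_le_add b6' b7')
    refine tot.trans (le_trans (le_of_eq ?_) hnum)
    ring
  -- choose the outcome
  let Suc : (V × List V) × (V × List V) → OO hG H S × OO hG H S → Prop := fun q ω =>
    Conf (en z1 (s1 q.1)) ω ∧ ¬ Bad q ω
  have hSuc : ∀ q ∈ F1 ×ˢ F2, p / 2 ≤ Pr (Suc q) := by
    intro q hq
    have h3 := hConf (s1 q.1) (Q1 q.1 (Finset.mem_product.1 hq).1)
    have h4 := hBad q hq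
    have h5 : Pr (Conf (en z1 (s1 q.1))) ≤ Pr (Suc q) + Pr (Bad q) := by
      refine le_trans (Pr_mono fun ω hω => ?_) (Pr_or _ _)
      by_cases hb : Bad q ω
      · exact Or.inr hb
      · exact Or.inl ⟨hω, hb⟩
    linarith
  obtain ⟨ω, hω⟩ := exists_good (F1 ×ˢ F2) (fun q => t ^ q.1.2.length * t ^ q.2.2.length)
    (fun q _ => by positivity) Suc (p / 2) hSuc
  -- the merged data
  have key : ∀ q ∈ (F1 ×ˢ F2).filter (fun q => Suc q ω), ∃ π : List V,
      π.length ≤ 2 * A + 2 * S ∧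
      en (en z1 (a1 q.1 ++ q.1.2)) π = g q.1 ω (en z2 (a2 q.2)) ∧
      Blk hG H S δ' A (2 * L + 2 * S) z1 (a1 q.1) (q.1.2 ++ (π ++ q.2.2.map (g q.1 ω)))
        ((b2 q.2).map (g q.1 ω)) ∧
      MP hG H z1 z2 P1 P2 Conf ω
        (a1 q.1 ++ ((q.1.2 ++ (π ++ q.2.2.map (g q.1 ω))) ++ (b2 q.2).map (g q.1 ω))) := by
    intro q hq
    obtain ⟨hq0, hq3⟩ := Finset.mem_filter.1 hq
    obtain ⟨hq1, hq2⟩ := Finset.mem_product.1 hq0
    obtain ⟨hc, hb⟩ := hq3
    simp only [Bad, not_or] at hb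
    obtain ⟨E1, E2, E3, E4, E5, E6, E7⟩ := hb
    push Not at E1 E2 E5 E6 E7
    obtain ⟨π, p1, p2, p3, p4, p5⟩ := merge_one hG H hSR (B1 q.1 hq1) (B2 q.2 hq2) ω (g q.1 ω) rfl
      E1 E2 E3 E4 E5 E6 E7 hδ.le
    refine ⟨π, p1, p2, ?_, s1 q.1, s2 q.2, Q1 q.1 hq1, Q2 q.2 hq2, hc, p4, p5⟩
    exact ⟨p3.sa, p3.hs.trans hδ', p3.he.trans hδ', p3.qq.trans hδ', p3.la, p3.lb, p3.ll⟩
  choose! π π1 π2 π3 π4 using key
  let Φ : (V × List V) × (V × List V) → V × List V := fun q =>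
    (q.1.1, q.1.2 ++ (π q ++ q.2.2.map (g q.1 ω)))
  set T := (F1 ×ˢ F2).filter (fun q => Suc q ω) with hT
  refine ⟨ω, T.image Φ, ?_, ?_⟩
  · intro f hf
    obtain ⟨q, hq, rfl⟩ := Finset.mem_image.1 hf
    have hq1 : q.1 ∈ F1 := (Finset.mem_product.1 (Finset.mem_filter.1 hq).1).1
    exact ⟨a1 q.1, (b2 q.2).map (g q.1 ω), e1 q.1 hq1, π3 q hq, π4 q hq⟩
  · have hwt : wt t F1 * wt t F2 = ∑ q ∈ F1 ×ˢ F2, t ^ q.1.2.length * t ^ q.2.2.length := by
      rw [wt, wt, Finset.sum_mul_sum, Finset.sum_product]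
    have hlenL : ∀ q ∈ T, q.1.2.length < 2 * L + 2 * S + 1 ∧ q.2.2.length < 2 * L + 2 * S + 1 := by
      intro q hq
      obtain ⟨hq1, hq2⟩ := Finset.mem_product.1 (Finset.mem_filter.1 hq).1
      have l1 := (B1 q.1 hq1).ll
      have l2 := (B2 q.2 hq2).ll
      simp only [List.length_append] at l1 l2
      omega
    have hfib := sum_image_fiber t ht.le T Φ (T.image Φ)
      (fun i hi => Finset.mem_image_of_mem _ hi) (2 * L + 2 * S + 1)
      (fun q => (q.1.2.length, q.2.2.length)) hlenL (by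
        rintro ⟨⟨y1, c1⟩, ⟨y2, c2⟩⟩ hq ⟨⟨y1', c1'⟩, ⟨y2', c2'⟩⟩ hq' hΦ hκ
        simp only [Φ, Prod.mk.injEq] at hΦ hκ
        obtain ⟨hy, hC⟩ := hΦ
        obtain ⟨hl1, hl2⟩ := hκ
        obtain ⟨hc1, hrest⟩ := List.append_inj hC hl1
        subst hy
        subst hc1
        obtain ⟨hπ, hc2⟩ := List.append_inj' hrest (by simpa using hl2)
        have hc2' : c2 = c2' := (List.map_injective_iff.2 (g (y1, c1) ω).injective) hc2
        subst hc2'
        have hq1 := (Finset.mem_product.1 (Finset.mem_filter.1 hq).1)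
        have hq1' := (Finset.mem_product.1 (Finset.mem_filter.1 hq').1)
        have f1 := π2 _ hq
        have f2 := π2 _ hq'
        simp only at f1 f2
        rw [← hπ, f1] at f2
        have f3 := (g (y1, c1) ω).injective f2
        rw [e2 _ hq1.2, e2 _ hq1'.2] at f3
        simp only at f3
        rw [f3])
    have hsum : (∑ q ∈ T, t ^ q.1.2.length * t ^ q.2.2.length) * t ^ (2 * A + 2 * S) ≤
        ∑ q ∈ T, t ^ (Φ q).2.length := by
      rw [Finset.sum_mul]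
      refine Finset.sum_le_sum fun q hq => ?_
      rw [← pow_add, ← pow_add]
      refine pow_le_pow_of_le_one ht.le ht1 ?_
      simp only [Φ, List.length_append, List.length_map]
      have := π1 q hq
      omega
    rw [hwt]
    calc p / 2 * (∑ q ∈ F1 ×ˢ F2, t ^ q.1.2.length * t ^ q.2.2.length) * t ^ (2 * A + 2 * S)
        ≤ (∑ q ∈ T, t ^ q.1.2.length * t ^ q.2.2.length) * t ^ (2 * A + 2 * S) :=
          mul_le_mul_of_nonneg_right hω (by positivity)
      _ ≤ ∑ q ∈ T, t ^ (Φ q).2.length := hsum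
      _ ≤ _ := by
        refine hfib.trans (le_of_eq ?_)
        push_cast
        ring

end Pool.H98.C
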