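import Pool.Agent.H98.C.Defs

set_option autoImplicit false

/-! Portions and hitting probabilities. -/

namespace Pool.H98.C

open Finset Pool.Agent.H61.SW

section gen
variable {V : Type} {Ω Ω' : Type} [Fintype Ω] [Fintype Ω']

lemma Ex_comp [DecidableEq V] (e : Ω → V) (a : V → ℝ) :
    Ex (fun ω => a (e ω)) = ∑ x ∈ univ.image e, Pr (fun ω => e ω = x) * a x := by
  classical
  have h1 : (fun ω => a (e ω)) = fun ω => ∑ x ∈ univ.image e,
      a x * (if e ω = x then (1 : ℝ) else 0) := by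
    ext ω
    rw [Finset.sum_eq_single (e ω)]
    · simp
    · intro x _ hx
      simp [Ne.symm hx]
    · intro h
      exact absurd (Finset.mem_image_of_mem e (Finset.mem_univ ω)) h
  rw [h1, Ex_sum]
  refine Finset.sum_congr rfl fun x _ => ?_
  rw [Ex_const_mul, mul_comm]
  congr 2
  ext ω
  by_cases h : e ω = x <;> simp [h]

lemma Pr_true [Nonempty Ω] (p : Ω → Prop) (h : ∀ ω, p ω) : Pr p = 1 := by
  refine (congrArg Ex (funext fun ω => ?_)).trans (Ex_const (1 : ℝ))
  simp [h ω]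

lemma Pr_false (p : Ω → Prop) (h : ∀ ω, ¬ p ω) : Pr p = 0 := by
  unfold Pr Ex
  simp [h]

/-- two-list union bound -/
lemma Pr_two_lists (L : List V) (K : List V) (f : V → Ω → V) (β : ℝ)
    (h : ∀ c ∈ L, ∀ k ∈ K, Pr (fun ω => f c ω = k) ≤ β) :
    Pr (fun ω => ∃ v ∈ L.map (fun c => f c ω), v ∈ K) ≤ L.length * (K.length * β) := by
  have h1 : ∀ ω, (∃ v ∈ L.map (fun c => f c ω), v ∈ K) ↔ ∃ c ∈ L, ∃ k ∈ K, f c ω = k := by
    intro ω
    simp
  rw [Pr_congr h1]
  refine Pr_exists_list_le L (fun c ω => ∃ k ∈ K, f c ω = k) _ fun c hc => ?_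
  exact Pr_exists_list_le K (fun k ω => f c ω = k) β fun k hk => h c hc k hk

end gen

variable {V : Type} {G : SimpleGraph V} {o : V} {R : ℕ} (hG : TG G) (H : Homog G o R)

lemma bb_pos (S : ℕ) : 0 < bb hG o S := by
  unfold bb; exact_mod_cast card_bl_pos hG o S

lemma bb_one_le (S : ℕ) : 1 ≤ bb hG o S := by
  unfold bb; exact_mod_cast card_bl_pos hG o S

lemma ch_por {S : ℕ} (x : V) (ω : PO hG H S) : ch G x (por hG H x ω) := by
  have h := (ch_map (H.T x ω.1) o (geo hG o ω.2)).2 (ch_geo hG o ω.2)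
  rwa [H.T_o] at h

lemma nodup_por {S : ℕ} (x : V) (ω : PO hG H S) : (x :: por hG H x ω).Nodup := by
  have h1 : x :: por hG H x ω = (o :: geo hG o ω.2).map (H.T x ω.1) := by
    simp [por, H.T_o]
  rw [h1]
  exact (nodup_geo hG o ω.2).map (H.T x ω.1).injective

lemma length_por {S : ℕ} (x : V) (ω : PO hG H S) : (por hG H x ω).length ≤ S := by
  unfold por
  rw [List.length_map, length_geo]
  exact (mem_bl hG o _ S).1 ω.2.2

lemma en_por {S : ℕ} (x : V) (ω : PO hG H S) : en x (por hG H x ω) = H.T x ω.1 ω.2 := by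
  have h := en_map (H.T x ω.1) o (geo hG o ω.2)
  rw [en_geo, H.T_o] at h
  exact h

lemma dist_por {S : ℕ} (x : V) (ω : PO hG H S) : ∀ v ∈ x :: por hG H x ω, G.dist x v ≤ S :=
  fun _ hv => (dist_mem_ch (ch_por hG H x ω) hv).trans (length_por hG H x ω)

lemma dist_en_por {S : ℕ} (x : V) (ω : PO hG H S) : G.dist x (en x (por hG H x ω)) ≤ S :=
  dist_por hG H x ω _ (en_mem_cons _ _)

/-- the end of a portion of radius `S` is spread -/
lemma spr_por {S : ℕ} (x y : V) :
    Pr (fun ω : PO hG H S => en x (por hG H x ω) = y) ≤ 1 / bb hG o S := by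
  classical
  simp only [en_por]
  rw [Pr_prod]
  refine Ex_le_of_le (by have := bb_pos hG (o := o) S; positivity) fun θ => ?_
  rw [Pr_eq_card]
  simp only [Fintype.card_coe]
  unfold bb
  refine div_le_div_of_nonneg_right ?_ (Nat.cast_nonneg _)
  have : (univ.filter fun ω : ↥(bl hG o S) => H.T x θ ω = y).card ≤ 1 := by
    rw [Finset.card_le_one]
    intro a ha b hb
    simp only [Finset.mem_filter, Finset.mem_univ, true_and] at ha hb
    exact Subtype.ext ((H.T x θ).injective (ha.trans hb.symm))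
  convert (by exact_mod_cast this : ((univ.filter fun ω : ↥(bl hG o S) => H.T x θ ω = y).card : ℝ) ≤ 1)

/-- transplants from a spread vertex are spread -/
lemma spr_trans {Ω : Type} [Fintype Ω] {β : ℝ} (hβ : 0 ≤ β) (e : Ω → V)
    (he : ∀ y, Pr (fun ω => e ω = y) ≤ β) {c : V} (hc : G.dist o c ≤ R) (y : V) :
    Pr (fun p : Ω × H.Θ => H.T (e p.1) p.2 c = y) ≤ β := by
  classical
  rw [Pr_prod]
  have h1 := Ex_comp e (fun x => Pr fun θ => H.T x θ c = y)
  simp only at h1 ⊢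
  rw [h1]
  calc ∑ x ∈ univ.image e, Pr (fun ω => e ω = x) * Pr (fun θ => H.T x θ c = y)
      ≤ ∑ x ∈ univ.image e, β * Pr (fun θ => H.T x θ c = y) :=
        Finset.sum_le_sum fun x _ => mul_le_mul_of_nonneg_right (he x) (Pr_nonneg _)
    _ = β * ∑ x ∈ univ.image e, Pr (fun θ => H.T x θ c = y) := by rw [Finset.mul_sum]
    _ ≤ β * 1 := mul_le_mul_of_nonneg_left (H.sp c y hc _) hβ
    _ = β := mul_one β

/-- a further portion from a spread vertex rarely meets a list -/
lemma hit_spread {Ω : Type} [Fintype Ω] {β : ℝ} (hβ : 0 ≤ β) (e : Ω → V)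
    (he : ∀ y, Pr (fun ω => e ω = y) ≤ β) {S : ℕ} (hS : S ≤ R) (K : List V) :
    Ex (fun ω => hit hG H S (e ω) K) ≤ S * K.length * β := by
  unfold hit
  have h1 : Ex (fun ω => Pr fun ω' : PO hG H S => ∃ v ∈ por hG H (e ω) ω', v ∈ K) =
      Ex (fun h : ↥(bl hG o S) => Pr (fun p : Ω × H.Θ =>
        ∃ v ∈ (geo hG o h).map (H.T (e p.1) p.2), v ∈ K)) := by
    have h2 : ∀ ω, (Pr fun ω' : PO hG H S => ∃ v ∈ por hG H (e ω) ω', v ∈ K) =
      Ex fun h : ↥(bl hG o S) => Pr fun θ : H.Θ => ∃ v ∈ (geo hG o h).map (H.T (e ω) θ), v ∈ K := by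
      intro ω
      rw [Pr_prod']; rfl
    simp only [h2]
    rw [Ex_comm]
    congr 1
    ext h
    rw [Pr_prod]
  rw [h1]
  refine Ex_le_of_le (by positivity) fun h => ?_
  have h3 := Pr_two_lists (Ω := Ω × H.Θ) (geo hG o h) K (fun c p => H.T (e p.1) p.2 c) β
    (fun c hc k _ => spr_trans H hβ e he ((mem_geo_dist hG hc).trans
      (((mem_bl hG o _ S).1 h.2).trans hS)) k)
  refine h3.trans ?_
  rw [length_geo, mul_assoc]
  refine mul_le_mul_of_nonneg_right ?_ (by positivity)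
  exact_mod_cast (mem_bl hG o _ S).1 h.2

lemma hit_nonneg (S : ℕ) (x : V) (K : List V) : 0 ≤ hit hG H S x K := Pr_nonneg _

lemma hit_mono {S : ℕ} {x : V} {K K' : List V} (h : ∀ v ∈ K, v ∈ K') :
    hit hG H S x K ≤ hit hG H S x K' :=
  Pr_mono fun _ ⟨v, h1, h2⟩ => ⟨v, h1, h v h2⟩

lemma hit_append (S : ℕ) (x : V) (K K' : List V) :
    hit hG H S x (K ++ K') ≤ hit hG H S x K + hit hG H S x K' := by
  refine le_trans (Pr_mono fun ω => ?_) (Pr_or _ _)
  rintro ⟨v, h1, h2⟩
  rcases List.mem_append.1 h2 with h2 | h2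
  · exact Or.inl ⟨v, h1, h2⟩
  · exact Or.inr ⟨v, h1, h2⟩

lemma QQ_nonneg (S : ℕ) (x y : V) : 0 ≤ QQ hG H S x y := Pr_nonneg _

lemma QQ_eq (S : ℕ) (x y : V) : QQ hG H S x y =
    Ex fun ω1 : PO hG H S => hit hG H S y (por hG H x ω1) := by
  unfold QQ hit
  rw [Pr_prod]
  congr 1
  ext ω1
  refine Pr_congr fun ω2 => ?_
  constructor
  · rintro ⟨v, h1, h2⟩; exact ⟨v, h2, h1⟩
  · rintro ⟨v, h1, h2⟩; exact ⟨v, h2, h1⟩

lemma QQ_comm (S : ℕ) (x y : V) : QQ hG H S x y = QQ hG H S y x := by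
  unfold QQ
  rw [Pr_prod, Pr_prod']
  congr 1
  ext ω1
  refine Pr_congr fun ω2 => ?_
  constructor
  · rintro ⟨v, h1, h2⟩; exact ⟨v, h2, h1⟩
  · rintro ⟨v, h1, h2⟩; exact ⟨v, h2, h1⟩

/-! equivariance -/

lemma por_equiv {S : ℕ} (hS : S ≤ R) (g : G ≃g G) (x : V) :
    ∃ σ : PO hG H S → PO hG H S, Function.Bijective σ ∧
      ∀ ω, por hG H (g x) (σ ω) = (por hG H x ω).map g := by
  obtain ⟨σ, h1, h2⟩ := H.eq g x
  refine ⟨fun ω => (σ ω.1, ω.2), ⟨?_, ?_⟩, ?_⟩
  · rintro ⟨a, b⟩ ⟨a', b'⟩ h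
    simp only [Prod.mk.injEq] at h
    rw [h1.1 h.1, h.2]
  · rintro ⟨a, b⟩
    obtain ⟨a', ha'⟩ := h1.2 a
    exact ⟨(a', b), by simp [ha']⟩
  · intro ω
    unfold por
    simp only [List.map_map]
    refine List.map_congr_left fun c hc => ?_
    exact (h2 ω.1 c ((mem_geo_dist hG hc).trans (((mem_bl hG o _ S).1 ω.2.2).trans hS))).symm

lemma mem_map_iff (g : G ≃g G) (x : V) (K : List V) : g x ∈ K.map g ↔ x ∈ K :=
  List.mem_map_of_injective g.injective

lemma hit_iso {S : ℕ} (hS : S ≤ R) (g : G ≃g G) (x : V) (K : List V) :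
    hit hG H S (g x) (K.map g) = hit hG H S x K := by
  obtain ⟨σ, h1, h2⟩ := por_equiv hG H hS g x
  unfold hit
  rw [← Pr_bij h1]
  refine Pr_congr fun ω => ?_
  rw [h2]
  constructor
  · rintro ⟨v, h3, h4⟩
    obtain ⟨w, h5, rfl⟩ := List.mem_map.1 h3
    exact ⟨w, h5, (mem_map_iff g w K).1 h4⟩
  · rintro ⟨v, h3, h4⟩
    exact ⟨g v, List.mem_map_of_mem h3, List.mem_map_of_mem h4⟩

/-- `g⁻¹` version: exposure of `g x` to `K` in terms of `x` -/
lemma hit_iso' {S : ℕ} (hS : S ≤ R) (g : G ≃g G) (x : V) (K : List V) :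
    hit hG H S (g x) K = Pr fun ω : PO hG H S => ∃ v ∈ por hG H x ω, g v ∈ K := by
  obtain ⟨σ, h1, h2⟩ := por_equiv hG H hS g x
  unfold hit
  rw [← Pr_bij h1]
  refine Pr_congr fun ω => ?_
  rw [h2]
  constructor
  · rintro ⟨v, h3, h4⟩
    obtain ⟨w, h5, rfl⟩ := List.mem_map.1 h3
    exact ⟨w, h5, h4⟩
  · rintro ⟨v, h3, h4⟩
    exact ⟨g v, List.mem_map_of_mem h3, h4⟩

lemma QQ_iso' {S : ℕ} (hS : S ≤ R) (g : G ≃g G) (x y : V) :
    QQ hG H S x (g y) = Pr fun ω : PO hG H S × PO hG H S =>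
      ∃ v ∈ por hG H x ω.1, ∃ w ∈ por hG H y ω.2, v = g w := by
  rw [QQ_eq, Pr_prod]
  congr 1
  ext ω1
  rw [hit_iso' hG H hS]
  refine Pr_congr fun ω2 => ?_
  constructor
  · rintro ⟨v, h1, h2⟩; exact ⟨g v, h2, v, h1, rfl⟩
  · rintro ⟨v, h1, w, h2, rfl⟩; exact ⟨w, h2, h1⟩

lemma QQ_iso {S : ℕ} (hS : S ≤ R) (g : G ≃g G) (x y : V) :
    QQ hG H S (g x) (g y) = QQ hG H S x y := by
  obtain ⟨σ, h1, h2⟩ := por_equiv hG H hS g x
  rw [QQ_eq, QQ_eq, ← Ex_bij h1]
  congr 1
  ext ω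
  rw [h2, hit_iso hG H hS]

/-! mass transport -/

/-- transport of a function of total mass at most one -/
lemma transport {c : V} (hc : G.dist o c ≤ R) (a : V → ℝ) (ha : ∀ y, 0 ≤ a y)
    (hs : ∀ Y : Finset V, ∑ y ∈ Y, a y ≤ 1) (X : Finset V) :
    ∑ x ∈ X, Ex (fun θ : H.Θ => a (H.T x θ c)) ≤ 1 := by
  classical
  set Y : Finset V := X.biUnion fun x => univ.image fun θ : H.Θ => H.T x θ c with hY
  have h1 : ∀ x ∈ X, Ex (fun θ : H.Θ => a (H.T x θ c)) =
      ∑ y ∈ Y, Pr (fun θ : H.Θ => H.T x θ c = y) * a y := by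
    intro x hx
    rw [Ex_comp (fun θ : H.Θ => H.T x θ c) a]
    refine Finset.sum_subset ?_ ?_
    · intro y hy
      rw [hY, Finset.mem_biUnion]
      exact ⟨x, hx, hy⟩
    · intro y _ hy
      rw [Pr_false _ (fun θ h => hy (Finset.mem_image.2 ⟨θ, Finset.mem_univ _, h⟩)), zero_mul]
  rw [Finset.sum_congr rfl h1, Finset.sum_comm]
  calc ∑ y ∈ Y, ∑ x ∈ X, Pr (fun θ : H.Θ => H.T x θ c = y) * a y
      = ∑ y ∈ Y, (∑ x ∈ X, Pr (fun θ : H.Θ => H.T x θ c = y)) * a y := by
        refine Finset.sum_congr rfl fun y _ => ?_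
        rw [Finset.sum_mul]
    _ ≤ ∑ y ∈ Y, 1 * a y := Finset.sum_le_sum fun y _ =>
        mul_le_mul_of_nonneg_right (H.sp c y hc X) (ha y)
    _ ≤ 1 := by simpa using hs Y

lemma sum_por_le {S : ℕ} (hS : S ≤ R) (X : Finset V) (v : V) :
    ∑ x ∈ X, Pr (fun ω : PO hG H S => v ∈ por hG H x ω) ≤ S := by
  have h1 : ∀ x, Pr (fun ω : PO hG H S => v ∈ por hG H x ω) =
      Ex fun h : ↥(bl hG o S) => Pr fun θ : H.Θ => v ∈ (geo hG o h).map (H.T x θ) := by
    intro x
    rw [Pr_prod']; rfl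
  simp only [h1]
  rw [← Ex_sum]
  refine Ex_le_of_le (Nat.cast_nonneg _) fun h => ?_
  have h2 : ∀ x ∈ X, Pr (fun θ : H.Θ => v ∈ (geo hG o h).map (H.T x θ)) ≤
      ((geo hG o h).map fun c => Pr fun θ : H.Θ => H.T x θ c = v).sum := by
    intro x _
    have := Pr_exists_list (geo hG o h) (fun c (θ : H.Θ) => H.T x θ c = v)
    refine le_trans (le_of_eq (Pr_congr fun θ => ?_)) this
    simp
  refine (Finset.sum_le_sum h2).trans ?_
  have h3 : ∀ l : List V, (∀ c ∈ l, G.dist o c ≤ R) →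
      ∑ x ∈ X, (l.map fun c => Pr fun θ : H.Θ => H.T x θ c = v).sum ≤ l.length := by
    intro l
    induction l with
    | nil => simp
    | cons c l ih =>
      intro hl
      simp only [List.map_cons, List.sum_cons, List.length_cons]
      rw [Finset.sum_add_distrib]
      have h4 := H.sp c v (hl c (by simp)) X
      have h5 := ih fun c hc => hl c (List.mem_cons_of_mem _ hc)
      push_cast
      linarith
  refine (h3 _ fun c hc => (mem_geo_dist hG hc).trans
    (((mem_bl hG o _ S).1 h.2).trans hS)).trans ?_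
  rw [length_geo]
  exact_mod_cast (mem_bl hG o _ S).1 h.2

lemma sum_por_cons_le {S : ℕ} (hS : S ≤ R) (X : Finset V) (v : V) :
    ∑ x ∈ X, Pr (fun ω : PO hG H S => v ∈ x :: por hG H x ω) ≤ S + 1 := by
  classical
  have h1 : ∀ x ∈ X, Pr (fun ω : PO hG H S => v ∈ x :: por hG H x ω) ≤
      (if x = v then 1 else 0) + Pr (fun ω : PO hG H S => v ∈ por hG H x ω) := by
    intro x _
    by_cases hx : x = v
    · simp only [hx, if_true]
      have h2 := Pr_le_one (fun ω : PO hG H S => v ∈ v :: por hG H v ω)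
      have h3 := Pr_nonneg (fun ω : PO hG H S => v ∈ por hG H v ω)
      linarith
    · simp only [hx, if_false, zero_add]
      refine Pr_mono fun ω h => ?_
      rcases List.mem_cons.1 h with h | h
      · exact absurd h.symm hx
      · exact h
  refine (Finset.sum_le_sum h1).trans ?_
  rw [Finset.sum_add_distrib, add_comm]
  refine add_le_add (sum_por_le hG H hS X v) ?_
  rw [Finset.sum_ite_eq']
  split <;> norm_num

lemma sum_hit_end_le {r S : ℕ} (hr : r ≤ R) (hS : S ≤ R) (X : Finset V) (K : List V) :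
    ∑ x ∈ X, Ex (fun ω : PO hG H r => hit hG H S (en x (por hG H x ω)) K) ≤ S * K.length := by
  classical
  -- bound of hit by a sum
  have hb : ∀ e : V, hit hG H S e K ≤ Ex fun h : ↥(bl hG o S) =>
      ((geo hG o h).map fun c => (K.map fun k => Pr fun θ : H.Θ => H.T e θ c = k).sum).sum := by
    intro e
    unfold hit
    rw [Pr_prod']
    refine Ex_mono fun h => ?_
    have h1 := Pr_exists_list (geo hG o h) (fun c (θ : H.Θ) => ∃ k ∈ K, H.T e θ c = k)
    have h2 : Pr (fun θ : H.Θ => ∃ v ∈ por hG H e (θ, h), v ∈ K) =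
        Pr (fun θ : H.Θ => ∃ c ∈ geo hG o h, ∃ k ∈ K, H.T e θ c = k) := by
      refine Pr_congr fun θ => ?_
      simp [por]
    rw [h2]
    refine h1.trans ?_
    refine List.sum_le_sum fun c _ => ?_
    exact Pr_exists_list K (fun k (θ : H.Θ) => H.T e θ c = k)
  have step : ∀ x ∈ X, Ex (fun ω : PO hG H r => hit hG H S (en x (por hG H x ω)) K) ≤
      Ex fun h : ↥(bl hG o S) => ((geo hG o h).map fun c => (K.map fun k =>
        Ex fun ω : PO hG H r => Pr fun θ : H.Θ => H.T (en x (por hG H x ω)) θ c = k).sum).sum := by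
    intro x _
    refine (Ex_mono fun ω => hb _).trans ?_
    rw [Ex_comm]
    refine Ex_mono fun h => ?_
    rw [Ex_list_sum]
    refine List.sum_le_sum fun c _ => ?_
    rw [Ex_list_sum]
  refine (Finset.sum_le_sum step).trans ?_
  rw [← Ex_sum]
  refine Ex_le_of_le (by positivity) fun h => ?_
  have key : ∀ c k : V, G.dist o c ≤ R →
      ∑ x ∈ X, Ex (fun ω : PO hG H r => Pr fun θ : H.Θ => H.T (en x (por hG H x ω)) θ c = k) ≤ 1 := by
    intro c k hc
    have e1 : ∀ x ∈ X, Ex (fun ω : PO hG H r => Pr fun θ : H.Θ => H.T (en x (por hG H x ω)) θ c = k) =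
        Ex fun h' : ↥(bl hG o r) => Ex fun θ' : H.Θ => Pr fun θ : H.Θ => H.T (H.T x θ' h') θ c = k := by
      intro x _
      rw [Ex_prod']
      simp only [en_por]
    rw [Finset.sum_congr rfl e1, ← Ex_sum]
    refine Ex_le_of_le zero_le_one fun h' => ?_
    exact transport H (((mem_bl hG o _ r).1 h'.2).trans hr)
      (fun e => Pr fun θ : H.Θ => H.T e θ c = k) (fun _ => Pr_nonneg _)
      (fun Y => H.sp c k hc Y) X
  have key2 : ∀ (l : List V) (K : List V), (∀ c ∈ l, G.dist o c ≤ R) →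
      ∑ x ∈ X, (l.map fun c => (K.map fun k =>
        Ex fun ω : PO hG H r => Pr fun θ : H.Θ => H.T (en x (por hG H x ω)) θ c = k).sum).sum ≤
      l.length * K.length := by
    intro l K
    induction l with
    | nil => simp
    | cons c l ih =>
      intro hl
      simp only [List.map_cons, List.sum_cons, List.length_cons]
      rw [Finset.sum_add_distrib]
      have h5 := ih fun c hc => hl c (List.mem_cons_of_mem _ hc)
      have h6 : ∑ x ∈ X, (K.map fun k =>
          Ex fun ω : PO hG H r => Pr fun θ : H.Θ => H.T (en x (por hG H x ω)) θ c = k).sum ≤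
          K.length := by
        clear h5 ih
        induction K with
        | nil => simp
        | cons k K ih =>
          simp only [List.map_cons, List.sum_cons, List.length_cons]
          rw [Finset.sum_add_distrib]
          have := key c k (hl c (by simp))
          push_cast
          linarith
      push_cast
      nlinarith
  refine (key2 _ K fun c hc => (mem_geo_dist hG hc).trans
    (((mem_bl hG o _ S).1 h.2).trans hS)).trans ?_
  rw [length_geo]
  refine mul_le_mul_of_nonneg_right ?_ (Nat.cast_nonneg _)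
  exact_mod_cast (mem_bl hG o _ S).1 h.2

lemma sum_hit_por_le {r S : ℕ} (hr : r ≤ R) (X : Finset V) (z : V) :
    ∑ x ∈ X, Ex (fun ω : PO hG H r => hit hG H S z (por hG H x ω)) ≤ S * r := by
  have h1 : ∀ x, Ex (fun ω : PO hG H r => hit hG H S z (por hG H x ω)) =
      Ex fun ω' : PO hG H S => Pr fun ω : PO hG H r => ∃ v ∈ por hG H z ω', v ∈ por hG H x ω := by
    intro x
    unfold hit Pr
    rw [Ex_comm]
  simp only [h1]
  rw [← Ex_sum]
  refine Ex_le_of_le (by positivity) fun ω' => ?_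
  have h2 : ∀ x ∈ X, Pr (fun ω : PO hG H r => ∃ v ∈ por hG H z ω', v ∈ por hG H x ω) ≤
      ((por hG H z ω').map fun v => Pr fun ω : PO hG H r => v ∈ por hG H x ω).sum := fun x _ =>
    Pr_exists_list _ _
  refine (Finset.sum_le_sum h2).trans ?_
  have h3 : ∀ l : List V, ∑ x ∈ X, (l.map fun v => Pr fun ω : PO hG H r => v ∈ por hG H x ω).sum ≤
      l.length * r := by
    intro l
    induction l with
    | nil => simp
    | cons v l ih =>
      simp only [List.map_cons, List.sum_cons, List.length_cons]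
      rw [Finset.sum_add_distrib]
      have := sum_por_le hG H hr X v
      push_cast
      linarith
  refine (h3 _).trans ?_
  refine mul_le_mul_of_nonneg_right ?_ (Nat.cast_nonneg _)
  exact_mod_cast length_por hG H z ω'

lemma sum_QQ_end_le {r S : ℕ} (hr : r ≤ R) (hS : S ≤ R) (X : Finset V) (z : V) :
    ∑ x ∈ X, Ex (fun ω : PO hG H r => QQ hG H S z (en x (por hG H x ω))) ≤ S * S := by
  have h1 : ∀ x, Ex (fun ω : PO hG H r => QQ hG H S z (en x (por hG H x ω))) =
      Ex fun ω' : PO hG H S => Ex fun ω : PO hG H r =>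
        hit hG H S (en x (por hG H x ω)) (por hG H z ω') := by
    intro x
    simp only [QQ_eq]
    rw [Ex_comm]
  simp only [h1]
  rw [← Ex_sum]
  refine Ex_le_of_le (by positivity) fun ω' => ?_
  refine (sum_hit_end_le hG H hr hS X _).trans ?_
  refine mul_le_mul_of_nonneg_left ?_ (Nat.cast_nonneg _)
  exact_mod_cast length_por hG H z ω'

end Pool.H98.C
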