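import Mathlib

set_option autoImplicit false

/-! Averages over finite types (uniform probability), as elementary as possible. -/

namespace Pool.H98.C

open Finset Classical

/-- average of `f` -/
noncomputable def Ex {Ω : Type*} [Fintype Ω] (f : Ω → ℝ) : ℝ := (∑ ω, f ω) / Fintype.card Ω

/-- probability of `p` under the uniform distribution -/
noncomputable def Pr {Ω : Type*} [Fintype Ω] (p : Ω → Prop) : ℝ := Ex fun ω => if p ω then 1 else 0

section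
variable {Ω Ω' : Type*} [Fintype Ω] [Fintype Ω']

lemma Ex_mono {f g : Ω → ℝ} (h : ∀ ω, f ω ≤ g ω) : Ex f ≤ Ex g :=
  div_le_div_of_nonneg_right (Finset.sum_le_sum fun ω _ => h ω) (Nat.cast_nonneg _)

lemma Ex_nonneg {f : Ω → ℝ} (h : ∀ ω, 0 ≤ f ω) : 0 ≤ Ex f :=
  div_nonneg (Finset.sum_nonneg fun ω _ => h ω) (Nat.cast_nonneg _)

lemma Ex_add (f g : Ω → ℝ) : Ex (fun ω => f ω + g ω) = Ex f + Ex g := by
  unfold Ex; rw [Finset.sum_add_distrib, add_div]

lemma Ex_const_mul (c : ℝ) (f : Ω → ℝ) : Ex (fun ω => c * f ω) = c * Ex f := by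
  unfold Ex; rw [← Finset.mul_sum, mul_div_assoc]

lemma Ex_const [Nonempty Ω] (c : ℝ) : Ex (fun _ : Ω => c) = c := by
  unfold Ex
  have : (Fintype.card Ω : ℝ) ≠ 0 := by exact_mod_cast Fintype.card_ne_zero
  simp [Finset.sum_const, Finset.card_univ]

lemma Ex_const_le (c : ℝ) (hc : 0 ≤ c) : Ex (fun _ : Ω => c) ≤ c := by
  rcases isEmpty_or_nonempty Ω with h | h
  · unfold Ex; simp [hc]
  · rw [Ex_const]

lemma Ex_le_of_le {f : Ω → ℝ} {c : ℝ} (hc : 0 ≤ c) (h : ∀ ω, f ω ≤ c) : Ex f ≤ c :=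
  (Ex_mono h).trans (Ex_const_le c hc)

lemma Ex_list_sum {ι : Type*} (l : List ι) (f : ι → Ω → ℝ) :
    Ex (fun ω => (l.map fun i => f i ω).sum) = (l.map fun i => Ex (f i)).sum := by
  induction l with
  | nil => simp [Ex]
  | cons a l ih =>
    simp only [List.map_cons, List.sum_cons]
    rw [Ex_add, ih]

lemma Ex_sum {ι : Type*} (s : Finset ι) (f : ι → Ω → ℝ) :
    Ex (fun ω => ∑ i ∈ s, f i ω) = ∑ i ∈ s, Ex (f i) := by
  unfold Ex
  rw [Finset.sum_comm, Finset.sum_div]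

/-- Fubini -/
lemma Ex_prod (f : Ω × Ω' → ℝ) : Ex f = Ex fun ω => Ex fun ω' => f (ω, ω') := by
  unfold Ex
  rw [Fintype.sum_prod_type, Fintype.card_prod, ← Finset.sum_div, div_div]
  push_cast
  rw [mul_comm (Fintype.card Ω : ℝ)]

lemma Ex_prod' (f : Ω × Ω' → ℝ) : Ex f = Ex fun ω' => Ex fun ω => f (ω, ω') := by
  unfold Ex
  rw [Fintype.sum_prod_type_right, Fintype.card_prod, ← Finset.sum_div, div_div]
  push_cast
  rfl

lemma Ex_comm (f : Ω → Ω' → ℝ) : Ex (fun ω => Ex fun ω' => f ω ω') =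
    Ex (fun ω' => Ex fun ω => f ω ω') := by
  rw [← Ex_prod (fun p : Ω × Ω' => f p.1 p.2), Ex_prod']

lemma Ex_bij {σ : Ω → Ω} (hσ : Function.Bijective σ) (f : Ω → ℝ) :
    Ex (fun ω => f (σ ω)) = Ex f := by
  unfold Ex
  rw [hσ.sum_comp f]

lemma Ex_bij' {σ : Ω → Ω'} (hσ : Function.Bijective σ) (f : Ω' → ℝ) :
    Ex (fun ω => f (σ ω)) = Ex f := by
  unfold Ex
  rw [hσ.sum_comp f, Fintype.card_of_bijective hσ]

lemma Pr_nonneg (p : Ω → Prop) : 0 ≤ Pr p := Ex_nonneg fun ω => by positivity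

lemma Pr_mono {p q : Ω → Prop} (h : ∀ ω, p ω → q ω) : Pr p ≤ Pr q := by
  refine Ex_mono fun ω => ?_
  by_cases hp : p ω
  · simp [hp, h ω hp]
  · simp only [hp, if_false]; positivity

lemma Pr_le_one (p : Ω → Prop) : Pr p ≤ 1 :=
  Ex_le_of_le zero_le_one fun ω => by split <;> norm_num

lemma Pr_or (p q : Ω → Prop) : Pr (fun ω => p ω ∨ q ω) ≤ Pr p + Pr q := by
  rw [Pr, Pr, Pr, ← Ex_add]
  refine Ex_mono fun ω => ?_
  by_cases hp : p ω <;> by_cases hq : q ω <;> simp [hp, hq]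

lemma Pr_exists_list {ι : Type*} (l : List ι) (p : ι → Ω → Prop) :
    Pr (fun ω => ∃ i ∈ l, p i ω) ≤ (l.map fun i => Pr (p i)).sum := by
  induction l with
  | nil => simp [Pr, Ex]
  | cons a l ih =>
    simp only [List.map_cons, List.sum_cons]
    refine le_trans ?_ ((Pr_or (p a) fun ω => ∃ i ∈ l, p i ω).trans (by linarith))
    refine Pr_mono fun ω => ?_
    rintro ⟨i, hi, h⟩
    rcases List.mem_cons.1 hi with rfl | hi
    · exact Or.inl h
    · exact Or.inr ⟨i, hi, h⟩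

lemma Pr_exists_list_le {ι : Type*} (l : List ι) (p : ι → Ω → Prop) (β : ℝ)
    (h : ∀ i ∈ l, Pr (p i) ≤ β) : Pr (fun ω => ∃ i ∈ l, p i ω) ≤ l.length * β := by
  refine (Pr_exists_list l p).trans ?_
  have := List.sum_le_card_nsmul (l.map fun i => Pr (p i)) β (by
    intro x hx
    obtain ⟨i, hi, rfl⟩ := List.mem_map.1 hx
    exact h i hi)
  simpa [nsmul_eq_mul] using this

/-- Markov -/
lemma Pr_gt_le {f : Ω → ℝ} (hf : ∀ ω, 0 ≤ f ω) {a : ℝ} (ha : 0 < a) :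
    Pr (fun ω => a < f ω) ≤ Ex f / a := by
  rw [le_div_iff₀ ha, Pr, mul_comm, ← Ex_const_mul]
  refine Ex_mono fun ω => ?_
  by_cases h : a < f ω
  · simp [h, h.le]
  · simp [h, hf ω]

lemma Pr_not [Nonempty Ω] (p : Ω → Prop) : Pr (fun ω => ¬ p ω) = 1 - Pr p := by
  have : Pr (fun ω => ¬ p ω) + Pr p = 1 := by
    rw [Pr, Pr, ← Ex_add]
    refine (congrArg Ex (funext fun ω => ?_)).trans (Ex_const (1 : ℝ))
    by_cases h : p ω <;> simp [h]
  linarith

lemma exists_of_Pr_lt_one [Nonempty Ω] {p : Ω → Prop} (h : Pr p < 1) : ∃ ω, ¬ p ω := by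
  by_contra hcon
  push Not at hcon
  have : Pr p = 1 := by
    rw [Pr]
    have h1 : (fun ω => (if p ω then (1 : ℝ) else 0)) = fun _ => (1 : ℝ) := by
      ext ω
      simp [hcon ω]
    rw [h1, Ex_const]
  linarith

lemma exists_le_Ex [Nonempty Ω] (f : Ω → ℝ) : ∃ ω, f ω ≤ Ex f := by
  by_contra hcon
  push Not at hcon
  have h1 : (∑ _ω : Ω, Ex f) < ∑ ω, f ω := Finset.sum_lt_sum_of_nonempty Finset.univ_nonempty fun ω _ => hcon ω
  have : (0 : ℝ) < Fintype.card Ω := by exact_mod_cast Fintype.card_pos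
  rw [Finset.sum_const, Finset.card_univ, nsmul_eq_mul] at h1
  have h2 : (Fintype.card Ω : ℝ) * Ex f = ∑ ω, f ω := by
    unfold Ex; field_simp
  linarith

lemma exists_ge_Ex [Nonempty Ω] (f : Ω → ℝ) : ∃ ω, Ex f ≤ f ω := by
  obtain ⟨ω, h⟩ := exists_le_Ex (fun ω => - f ω)
  refine ⟨ω, ?_⟩
  have : Ex (fun ω => - f ω) = - Ex f := by unfold Ex; rw [Finset.sum_neg_distrib, neg_div]
  linarith

lemma Pr_prod (p : Ω × Ω' → Prop) : Pr p = Ex fun ω => Pr fun ω' => p (ω, ω') := by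
  rw [Pr, Ex_prod]; rfl

lemma Pr_prod' (p : Ω × Ω' → Prop) : Pr p = Ex fun ω' => Pr fun ω => p (ω, ω') := by
  rw [Pr, Ex_prod']; rfl

lemma Pr_bij {σ : Ω → Ω} (hσ : Function.Bijective σ) (p : Ω → Prop) :
    Pr (fun ω => p (σ ω)) = Pr p := Ex_bij hσ fun ω => if p ω then (1 : ℝ) else 0

lemma Pr_bij' {σ : Ω → Ω'} (hσ : Function.Bijective σ) (p : Ω' → Prop) :
    Pr (fun ω => p (σ ω)) = Pr p := Ex_bij' hσ fun ω => if p ω then (1 : ℝ) else 0

lemma Pr_congr {p q : Ω → Prop} (h : ∀ ω, p ω ↔ q ω) : Pr p = Pr q := by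
  have : p = q := funext fun ω => propext (h ω)
  rw [this]

lemma Pr_eq_card (p : Ω → Prop) :
    Pr p = ((Finset.univ.filter p).card : ℝ) / Fintype.card Ω := by
  unfold Pr Ex
  rw [Finset.sum_boole]

end

end Pool.H98.C
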