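import Pool.Agent.H98.C.ExpoDefs

set_option autoImplicit false

/-! Statements of the independent modules (sorried here; proofs go to their own files). -/

namespace Pool.H98.C.Spec

open Finset Pool.Agent.H61.SW Pool.H98.C

/-! ### Module JOIN (file Join.lean): deterministic concatenations with loop erasure -/

section JOIN
variable {V : Type} {G : SimpleGraph V}

theorem join_det {z1 z2 : V} {a1 c1 b1 a2 c2 b2 κ : List V} {g : G ≃g G}
    (h1 : sa G z1 (a1 ++ (c1 ++ b1))) (h2 : sa G z2 (a2 ++ (c2 ++ b2)))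
    (hκ : ch G (en z1 (a1 ++ (c1 ++ b1))) κ)
    (hκe : en (en z1 (a1 ++ (c1 ++ b1))) κ = g z2)
    (D1 : ∀ x ∈ κ, x ∉ z1 :: (a1 ++ c1))
    (D2 : ∀ x ∈ κ, x = g z2 ∨ ∀ y ∈ en z2 a2 :: (c2 ++ b2), x ≠ g y)
    (D3 : ∀ x ∈ z1 :: (a1 ++ (c1 ++ b1)), ∀ y ∈ z2 :: (a2 ++ (c2 ++ b2)), x ≠ g y) :
    ∃ π : List V, π.length ≤ b1.length + κ.length + a2.length ∧
      (∀ x ∈ π, x ∈ b1 ∨ x ∈ κ ∨ ∃ y ∈ a2, x = g y) ∧
      en (en z1 (a1 ++ c1)) π = g (en z2 a2) ∧
      sa G z1 (a1 ++ ((c1 ++ (π ++ c2.map g)) ++ b2.map g)) ∧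
      en z1 (a1 ++ ((c1 ++ (π ++ c2.map g)) ++ b2.map g)) = g (en z2 (a2 ++ (c2 ++ b2))) := by
  sorry

theorem raise_det {z : V} {a c b p q : List V} (h : sa G z (a ++ (c ++ b)))
    (hp : ch G z p) (hq : ch G (en z (a ++ (c ++ b))) q)
    (D1 : ∀ x ∈ p, x ∉ en z a :: (c ++ b)) (D2 : ∀ x ∈ q, x ∉ z :: (a ++ c))
    (D3 : ∀ x ∈ p, x ∉ q) :
    ∃ a' b' : List V, en (en z p) a' = en z a ∧ a'.length ≤ p.length + a.length ∧
      b'.length ≤ b.length + q.length ∧ sa G (en z p) (a' ++ (c ++ b')) ∧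
      en (en z p) (a' ++ (c ++ b')) = en (en z (a ++ (c ++ b))) q ∧
      (∀ x ∈ en z p :: a', x ∈ z :: a ∨ x ∈ p) ∧ (∀ x ∈ b', x ∈ b ∨ x ∈ q) := by
  sorry

end JOIN

/-! ### Module NET (file Net.lean): nets, collisions -/

section NET
variable {V : Type} {G : SimpleGraph V} (hG : TG G)

theorem exists_net (o x : V) (D ρ : ℕ) : ∃ N : Finset V, (∀ n ∈ N, G.dist x n ≤ D) ∧
    (∀ y, G.dist x y ≤ D → ∃ n ∈ N, G.dist n y ≤ ρ) ∧
    N.card * (bl hG o (ρ / 2)).card ≤ (bl hG o (D + ρ / 2)).card := by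
  sorry

theorem collision (o x : V) (D ρ : ℕ) {Ω : Type} [Fintype Ω] [Nonempty Ω] (F : Ω → V)
    (hF : ∀ ω, G.dist x (F ω) ≤ D) :
    bb hG o (ρ / 2 / 2) / bb hG o (D + ρ / 2 / 2) ≤
      Pr (fun p : Ω × Ω => G.dist (F p.1) (F p.2) ≤ ρ) := by
  sorry

theorem exists_center (o x : V) (D ρ : ℕ) {Ω : Type} [Fintype Ω] [Nonempty Ω] (F : Ω → V)
    (hF : ∀ ω, G.dist x (F ω) ≤ D) :
    ∃ v, G.dist x v ≤ D ∧
      bb hG o (ρ / 2) / bb hG o (D + ρ / 2) ≤ Pr (fun ω : Ω => G.dist (F ω) v ≤ ρ) := by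
  sorry

end NET

/-! ### Module UNI (file Uni.lean): unimodular graphs have the families `Homog` -/

section UNI
variable {V : Type} {G : SimpleGraph V}

/-- orbit of `y` under the stabiliser of `x` -/
def orb (G : SimpleGraph V) (x y : V) : Set V := {z | ∃ φ : G ≃g G, φ x = x ∧ φ y = z}

theorem exists_homog (hG : TG G) (o : V) (huni : ∀ x y, (orb G x y).ncard = (orb G y x).ncard)
    (R : ℕ) : Nonempty (Homog G o R) := by
  sorry

/-- nonunimodular graphs have a height function -/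
theorem hasHeight_of_not_uni (hG : TG G) (huni : ¬ ∀ x y, (orb G x y).ncard = (orb G y x).ncard) :
    ∃ h : V → ℝ, HasHeight G h := by
  sorry

end UNI

/-! ### Module PORT (file Port.lean, helper98): portions and hitting probabilities -/

section PORT
variable {V : Type} {G : SimpleGraph V} {o : V} {R : ℕ} (hG : TG G) (H : Homog G o R)

lemma ch_por {S : ℕ} (x : V) (ω : PO hG H S) : ch G x (por hG H x ω) := by sorry

lemma nodup_por {S : ℕ} (x : V) (ω : PO hG H S) : (x :: por hG H x ω).Nodup := by sorry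

lemma length_por {S : ℕ} (x : V) (ω : PO hG H S) : (por hG H x ω).length ≤ S := by sorry

lemma dist_por {S : ℕ} (x : V) (ω : PO hG H S) : ∀ v ∈ x :: por hG H x ω, G.dist x v ≤ S := by
  sorry

/-- the end of a portion of radius `S` is spread -/
lemma spr_por {S : ℕ} (x y : V) :
    Pr (fun ω : PO hG H S => en x (por hG H x ω) = y) ≤ 1 / bb hG o S := by sorry

/-- a further portion from a spread vertex rarely meets a list -/
lemma hit_spread {Ω : Type} [Fintype Ω] {β : ℝ} (hβ : 0 ≤ β) (e : Ω → V)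
    (he : ∀ y, Pr (fun ω => e ω = y) ≤ β) {S : ℕ} (hS : S ≤ R) (K : List V) :
    Ex (fun ω => hit hG H S (e ω) K) ≤ S * K.length * β := by sorry

lemma hit_nonneg (S : ℕ) (x : V) (K : List V) : 0 ≤ hit hG H S x K := by sorry

lemma hit_mono {S : ℕ} {x : V} {K K' : List V} (h : ∀ v ∈ K, v ∈ K') :
    hit hG H S x K ≤ hit hG H S x K' := by sorry

lemma hit_append (S : ℕ) (x : V) (K K' : List V) :
    hit hG H S x (K ++ K') ≤ hit hG H S x K + hit hG H S x K' := by sorry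

lemma QQ_comm (S : ℕ) (x y : V) : QQ hG H S x y = QQ hG H S y x := by sorry

/-- mass transport: portions from all vertices through a given vertex -/
lemma sum_por_le {S : ℕ} (hS : S ≤ R) (X : Finset V) (v : V) :
    ∑ x ∈ X, Pr (fun ω : PO hG H S => v ∈ por hG H x ω) ≤ S := by sorry

lemma sum_por_cons_le {S : ℕ} (hS : S ≤ R) (X : Finset V) (v : V) :
    ∑ x ∈ X, Pr (fun ω : PO hG H S => v ∈ x :: por hG H x ω) ≤ S + 1 := by sorry

lemma sum_hit_end_le {r S : ℕ} (hr : r ≤ R) (hS : S ≤ R) (X : Finset V) (K : List V) :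
    ∑ x ∈ X, Ex (fun ω : PO hG H r => hit hG H S (en x (por hG H x ω)) K) ≤ S * K.length := by
  sorry

lemma sum_hit_por_le {r S : ℕ} (hr : r ≤ R) (X : Finset V) (z : V) :
    ∑ x ∈ X, Ex (fun ω : PO hG H r => hit hG H S z (por hG H x ω)) ≤ S * r := by
  sorry

lemma sum_QQ_end_le {r S : ℕ} (hr : r ≤ R) (hS : S ≤ R) (X : Finset V) (z : V) :
    ∑ x ∈ X, Ex (fun ω : PO hG H r => QQ hG H S z (en x (por hG H x ω))) ≤ S * S := by
  sorry

end PORT

/-! ### Module EXPO (file Expo.lean): exposed vertices of a finite set -/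

section EXPO
variable {V : Type} {G : SimpleGraph V} {o : V} {R : ℕ} (hG : TG G) (H : Homog G o R)

theorem expo (S r : ℕ) (hS : S ≤ R) (hr : r ≤ R) (δ : ℝ) (hδ : 0 < δ) (M : Finset V)
    (hM : 4 * (M.card : ℝ) * S ≤ δ * bb hG o r) :
    ∃ E ⊆ M, (M.card : ℝ) ≤ 2 * (r + 1) * E.card ∧
      ∀ (y1 : V) (α1 : List V), α1.length ≤ r → ∃ B ⊆ E,
        (B.card : ℝ) ≤ 4 * (r * (r + 1) + (r * S + S * (r + 1) + S * S) / δ) ∧
        ∀ y ∈ E, y ∉ B → ∃ α, Expd hG H S r δ M y α ∧ Cpt hG H S δ y1 α1 y α := by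
  sorry

end EXPO

/-! ### Module PEEL (file Peel.lean): decomposition of self-avoiding walks into good cores -/

section PEEL
variable {V : Type} {G : SimpleGraph V} {o : V} {R : ℕ} (hG : TG G) (H : Homog G o R)

theorem peel (S r : ℕ) (δ : ℝ) (hδ : 0 ≤ δ) (m mlow κ : ℕ) (hκ : 0 < κ)
    (hexpo : ∀ M : Finset V, mlow ≤ M.card → M.card ≤ m + 1 →
      ∃ E ⊆ M, ∃ Bl : ℕ, 0 < E.card ∧ 2 * (κ + 1 + Bl) ≤ E.card ∧
        ∀ (y1 : V) (α1 : List V), α1.length ≤ r → ∃ B ⊆ E, B.card ≤ Bl ∧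
          ∀ y ∈ E, y ∉ B → ∃ α, Expd hG H S r δ M y α ∧ Cpt hG H S δ y1 α1 y α)
    (v : V) (s : List V) (hs : sa G v s) (hlen : s.length ≤ m) (hmlow : mlow ≤ s.length + 1) :
    ∃ n ≤ m / κ, ∃ p mid q : List V, s = p ++ (mid ++ q) ∧ p.length + q.length ≤ mlow ∧
      CP (GC hG H S (2 * δ) r (m + 2 * r)) n (en v p) mid := by
  sorry

end PEEL

/-! ### Module COUNT (file Count.lean): counting with the decomposition -/

section COUNT
variable {V : Type} {G : SimpleGraph V}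

/-- weight generating bound for concatenations of cores -/
theorem count_peel (hG : TG G) (o : V) (t : ℝ) (ht : 0 < t) (P : V → List V → Prop) (L : ℕ)
    (hP : ∀ v c, P v c → sa G v c ∧ c.length ≤ L) (W : ℝ) (hW : 1 ≤ W)
    (hPW : ∀ v, ∑ k ∈ Finset.range (L + 1), (cnt P v k : ℝ) * t ^ k ≤ W)
    (m mlow N : ℕ)
    (hdec : ∀ s, sa G o s → s.length = m → ∃ n ≤ N, ∃ p mid q : List V, s = p ++ (mid ++ q) ∧
      p.length + q.length ≤ mlow ∧ CP P n (en o p) mid) :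
    (cnt (sa G) o m : ℝ) * t ^ m ≤
      (N + 1) * (∑ k ∈ Finset.range (mlow + 1), (cnt (sa G) o k : ℝ) * t ^ k) ^ 2 * W ^ N := by
  sorry

end COUNT

end Pool.H98.C.Spec
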