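import Pool.Agent.H98.C.Raise

set_option autoImplicit false

/-! Statements of modules AP and CHAIN (sorried here). -/

namespace Pool.H98.C.Spec

open Finset Pool.Agent.H61.SW Pool.H98.C

variable {V : Type} {G : SimpleGraph V} {o : V} {R : ℕ} (hG : TG G) (H : Homog G o R)

/-- Module AP: antiparallel doubling. All blocks of the family run from `z` to the SAME far end `z'`
inside the ball of radius `D` about `z`; merging with the reversed family gives blocks with a common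
far end `z''` close to `z`. -/
theorem ap_step {S A L D E ρ : ℕ} {δ δ' t p M : ℝ} (ht : 0 < t) (ht1 : t ≤ 1) (hδ : 0 < δ)
    (hM : 0 < M) (hR : 3 * S + L ≤ R) (z z' : V) (F : Finset (V × List V))
    (hF : Fam hG H S δ A L z (fun s => en z s = z' ∧ ∀ x ∈ s, G.dist z x ≤ D) F)
    (hE : G.dist z z' ≤ E) (hD : E + S ≤ D)
    (hp : p ≤ bb hG o (ρ / 2 / 2) / bb hG o (E + S + ρ / 2 / 2))
    (hnum : 2 * δ + ((L + 1) * (L + 1 + S) + S * (L + 1)) * (1 / bb hG o S) + 3 / M ≤ p / 2)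
    (hδ' : δ + M * (δ + S * (L + 1 + S) * (1 / bb hG o S)) ≤ δ') :
    ∃ (z'' : V) (F' : Finset (V × List V)), G.dist z z'' ≤ ρ ∧
      Fam hG H S δ' A (2 * L + 2 * S) z (fun s => en z s = z'' ∧ ∀ x ∈ s, G.dist z x ≤ D + ρ) F' ∧
      (p / 2) * (wt t F * wt t F) * t ^ (2 * A + 2 * S) ≤ (2 * L + 2 * S + 1) ^ 2 * wt t F' := by
  sorry

/-- Module CHAIN: confined blocks of large weight give exponentially many self-avoiding walks. -/
theorem chain [Infinite V] {S A L e D : ℕ} {δ δ' t p M : ℝ} (ht : 0 < t) (ht1 : t ≤ 1)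
    (hδ : 0 < δ) (hM : 0 < M) (he : 1 ≤ e) (hS : S ≤ e) (hD : 15 * e ≤ D)
    (hR : 3 * D + 20 * e ≤ R) (z : V) (F : Finset (V × List V)) (hne : F.Nonempty)
    (hF : Fam hG H S δ A L z (fun s => ∀ x ∈ s, G.dist z x ≤ e) F)
    (hp : p ≤ bb hG o (e / 2) / bb hG o (D + 4 * e + e / 2))
    (hnum : δ' + δ + ((2 * A + 2 * S + (D + 4 * e) + L + 1 + A) * (L + 1 + S) + S * (L + 1) +
      (D + 4 * e) * (2 * A + 2 * S + (D + 4 * e) + L + 1) + (D + 4 * e) * (L + 1)) *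
      (1 / bb hG o S) + 1 / M ≤ p / 2)
    (hδ' : δ + M * (δ + S * (A + S + (D + 4 * e)) * (1 / bb hG o S)) ≤ δ')
    (hγ : (2 * A + 2 * S + (D + 4 * e) + L + 2 : ℝ) ^ 2 <
      (p / 2) * wt t F * t ^ (2 * A + 2 * S + (D + 4 * e))) :
    ¬ Summable (fun k : ℕ => (cnt (sa G) o k : ℝ) * t ^ k) := by
  sorry

end Pool.H98.C.Spec
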